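import Mathlib
import Pool.Graph.R_pool_sql_team_seeded_b677cdb8.E8helper16.SL.E3

set_option autoImplicit false

/-! The correlations of the sieve weights along two families of linear forms `d m + u i`, `d' m + u' i`
(after `Pool.Agent.E8helper16.SL`, which has one tuple only). -/

namespace Pool.Agent.H526.FC
open Finset
open Pool.Agent.H373R2.T7
open Pool.Agent.E8helper16.SL (Rough nu nu_nonneg nu_le al act actL actR actB Bad nuB_congr bad_PerB mid mem_mid pz_split
  pz_disj Vz_split TT_eq TT fac_nonneg)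

/-- no constant term of the forms `d m + u k` is divisible by a prime divisor of `d` -/
def Nz {f : ℕ} (u : Fin f → ℤ) (d : ℕ) : Prop := ∀ l : ℕ, l.Prime → l ∣ d → ∀ k, ¬ (l : ℤ) ∣ u k

lemma nz_prime {f : ℕ} (u : Fin f → ℤ) {p : ℕ} (hp : p.Prime) (h : ∀ k, ¬ (p : ℤ) ∣ u k) : Nz u p := by
  intro l hl hlp k
  rw [(Nat.prime_dvd_prime_iff_eq hl hp).1 hlp]
  exact h k

lemma nz_one {f : ℕ} (u : Fin f → ℤ) : Nz u 1 := by
  intro l hl h
  exact absurd (Nat.dvd_one.1 h) hl.one_lt.ne'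

lemma nu_shift {f : ℕ} (s : Fin f → ℤ) (z : ℕ) (n h : ℤ) : nu s z (n - h) = nu (fun i => s i - h) z n := by
  have e : Rough s z (n - h) ↔ Rough (fun i => s i - h) z n := by
    unfold Rough
    have e2 : ∀ i, n - h + s i = n + (s i - h) := fun i => by ring
    simp only [e2]
  unfold nu
  by_cases q : Rough s z (n - h)
  · rw [if_pos q, if_pos (e.1 q)]
  · rw [if_neg q, if_neg (fun q' => q (e.2 q'))]

section pair
variable {f : ℕ} (u u' : Fin f → ℤ) (d d' : ℕ)

/-- constants -/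
def be2 : Fin f ⊕ Fin f → ℤ := Sum.elim u u'

lemma rough_iff (z z1 z2 : ℕ) (h1 : z1 ≤ z) (h2 : z2 ≤ z) (m : ℕ) :
    (Rough u z1 (d * m) ∧ Rough u' z2 (d' * m)) ↔
      ∀ l ∈ pz z, ¬ Bad (act (f := f) z1 z2) (al d d') (be2 u u') l m := by
  unfold Rough Bad
  constructor
  · rintro ⟨q1, q2⟩ l hl ⟨k, hk, hd⟩
    rw [mem_pz] at hl
    rcases k with k | k
    · exact q1 l (mem_pz.2 ⟨hk, hl.2⟩) k (by
        have e : (d : ℤ) * m + u k = al (f := f) d d' (Sum.inl k) * m + be2 u u' (Sum.inl k) := by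
          simp only [al, be2, Sum.elim_inl]
        rw [e]; exact hd)
    · exact q2 l (mem_pz.2 ⟨hk, hl.2⟩) k (by
        have e : (d' : ℤ) * m + u' k = al (f := f) d d' (Sum.inr k) * m + be2 u u' (Sum.inr k) := by
          simp only [al, be2, Sum.elim_inr]
        rw [e]; exact hd)
  · intro h
    constructor
    · intro l hl k hd
      rw [mem_pz] at hl
      apply h l (mem_pz.2 ⟨hl.1.trans h1, hl.2⟩)
      refine ⟨Sum.inl k, hl.1, ?_⟩
      have e : (d : ℤ) * m + u k = al (f := f) d d' (Sum.inl k) * m + be2 u u' (Sum.inl k) := by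
          simp only [al, be2, Sum.elim_inl]
      rw [← e]; exact hd
    · intro l hl k hd
      rw [mem_pz] at hl
      apply h l (mem_pz.2 ⟨hl.1.trans h2, hl.2⟩)
      refine ⟨Sum.inr k, hl.1, ?_⟩
      have e : (d' : ℤ) * m + u' k = al (f := f) d d' (Sum.inr k) * m + be2 u u' (Sum.inr k) := by
          simp only [al, be2, Sum.elim_inr]
      rw [← e]; exact hd

lemma nd_pair (h : Nz u d) (h' : Nz u' d') (ac : ℕ → Fin f ⊕ Fin f → Prop) :
    ∀ l : ℕ, l.Prime → ∀ k, ac l k → ¬ ((l : ℤ) ∣ al (f := f) d d' k ∧ (l : ℤ) ∣ be2 u u' k) := by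
  intro l hl k _ hk
  rcases k with k | k
  · simp only [al, be2, Sum.elim_inl] at hk
    exact h l hl (Int.natCast_dvd_natCast.1 hk.1) k hk.2
  · simp only [al, be2, Sum.elim_inr] at hk
    exact h' l hl (Int.natCast_dvd_natCast.1 hk.1) k hk.2

lemma pair_PerB (h : Nz u d) (h' : Nz u' d') (ac : ℕ → Fin f ⊕ Fin f → Prop) :
    PerB (Bad ac (al d d') (be2 u u')) (2 * f) :=
  bad_PerB ac _ _ (2 * f) (by rw [Fintype.card_sum, Fintype.card_fin]; omega) (nd_pair u u' d d' h h' ac)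

/-- the number of the classes for both families -/
noncomputable def NB (l : ℕ) : ℕ := nuB (Bad (actB (f := f)) (al d d') (be2 u u')) l
/-- the number of the classes for the first family -/
noncomputable def NL (l : ℕ) : ℕ := nuB (Bad (actL (f := f)) (al d d') (be2 u u')) l
/-- the number of the classes for the second family -/
noncomputable def NR (l : ℕ) : ℕ := nuB (Bad (actR (f := f)) (al d d') (be2 u u')) l

lemma act_both (z1 z2 l : ℕ) (h1 : l ≤ z1) (h2 : l ≤ z2) :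
    nuB (Bad (act (f := f) z1 z2) (al d d') (be2 u u')) l = NB u u' d d' l := by
  apply nuB_congr
  intro m
  unfold Bad
  apply exists_congr
  intro k
  rcases k with k | k <;> simp [act, actB, h1, h2]

lemma act_left (z1 z2 l : ℕ) (h1 : l ≤ z1) (h2 : z2 < l) :
    nuB (Bad (act (f := f) z1 z2) (al d d') (be2 u u')) l = NL u u' d d' l := by
  apply nuB_congr
  intro m
  unfold Bad
  apply exists_congr
  intro k
  rcases k with k | k <;> simp [act, actL, h1, h2]

lemma act_right (z1 z2 l : ℕ) (h1 : z1 < l) (h2 : l ≤ z2) :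
    nuB (Bad (act (f := f) z1 z2) (al d d') (be2 u u')) l = NR u u' d d' l := by
  apply nuB_congr
  intro m
  unfold Bad
  apply exists_congr
  intro k
  rcases k with k | k <;> simp [act, actR, h1, h2]

lemma act_none (z1 z2 l : ℕ) (h1 : z1 < l) (h2 : z2 < l) :
    nuB (Bad (act (f := f) z1 z2) (al d d') (be2 u u')) l = 0 := by
  classical
  unfold nuB
  rw [card_eq_zero, filter_eq_empty_iff]
  rintro m _ ⟨k, hk, _⟩
  rcases k with k | k
  · exact absurd hk (by simp [act, h1])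
  · exact absurd hk (by simp [act, h2])

/-- the sum of the product of the weights -/
noncomputable def SS (X z1 z2 : ℕ) : ℝ := ∑ m ∈ Icc 1 X, nu u z1 (d * m) * nu u' z2 (d' * m)

open Classical in
/-- the count -/
noncomputable def CC (X z z1 z2 : ℕ) : ℝ :=
  ((((Icc 1 X).filter (fun m : ℕ => ∀ l ∈ pz z, ¬ Bad (act (f := f) z1 z2) (al d d') (be2 u u') l m)).card : ℕ) : ℝ)

lemma SS_eq (X z z1 z2 : ℕ) (h1 : z1 ≤ z) (h2 : z2 ≤ z) :
    SS u u' d d' X z1 z2 = ((Vz z1) ^ f)⁻¹ * ((Vz z2) ^ f)⁻¹ * CC u u' d d' X z z1 z2 := by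
  classical
  unfold SS CC
  rw [mul_comm, ← nsmul_eq_mul, ← sum_const, sum_filter]
  apply sum_congr rfl
  intro m _
  have h := rough_iff u u' d d' z z1 z2 h1 h2 m
  unfold nu
  by_cases q : ∀ l ∈ pz z, ¬ Bad (act (f := f) z1 z2) (al d d') (be2 u u') l m
  · obtain ⟨q1, q2⟩ := h.2 q
    rw [if_pos q1, if_pos q2, if_pos q]
  · rw [if_neg q]
    by_cases q1 : Rough u z1 (d * m)
    · have q2 : ¬ Rough u' z2 (d' * m) := fun q2 => q (h.1 ⟨q1, q2⟩)
      rw [if_neg q2, mul_zero]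
    · rw [if_neg q1, zero_mul]

/-- the main factor of the small primes -/
noncomputable def GG (w : ℕ) : ℝ := ((Vz w) ^ (2 * f))⁻¹ * ∏ l ∈ pz w, (1 - (NB u u' d d' l : ℝ) / l)

lemma GG_nonneg (w : ℕ) : 0 ≤ GG u u' d d' w := by
  unfold GG
  apply mul_nonneg (inv_nonneg.2 (pow_nonneg (Vz_pos w).le _))
  apply prod_nonneg
  intro l hl
  exact fac_nonneg _ (mem_pz.1 hl).2

lemma GG_le (w : ℕ) : GG u u' d d' w ≤ ((Vz w) ^ (2 * f))⁻¹ := by
  unfold GG
  apply mul_le_of_le_one_right (inv_nonneg.2 (pow_nonneg (Vz_pos w).le _))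
  apply prod_le_one
  · intro l hl
    exact fac_nonneg _ (mem_pz.1 hl).2
  · intro l _
    have : (0 : ℝ) ≤ (NB u u' d d' l : ℝ) / l := by positivity
    linarith

/-- the product of the densities of the system with the thresholds `z1`, `z2` -/
noncomputable def PP (z z1 z2 : ℕ) : ℝ :=
  ∏ l ∈ pz z, (1 - (nuB (Bad (act (f := f) z1 z2) (al d d') (be2 u u')) l : ℝ) / l)

lemma PP_nonneg (z z1 z2 : ℕ) : 0 ≤ PP u u' d d' z z1 z2 :=
  prod_nonneg fun _ hl => fac_nonneg _ (mem_pz.1 hl).2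

lemma main_zz (w z : ℕ) (h : w ≤ z) :
    ((Vz z) ^ f)⁻¹ * ((Vz z) ^ f)⁻¹ * PP u u' d d' z z z = GG u u' d d' w * TT (mid w z) (2 * f) (NB u u' d d') := by
  unfold PP GG
  rw [pz_split w z h, prod_union (pz_disj w z), Vz_split w z h, ← TT_eq]
  have e1 : ∏ l ∈ pz w, (1 - (nuB (Bad (act (f := f) z z) (al d d') (be2 u u')) l : ℝ) / l) =
      ∏ l ∈ pz w, (1 - (NB u u' d d' l : ℝ) / l) := by
    apply prod_congr rfl
    intro l hl
    rw [mem_pz] at hl
    rw [act_both u u' d d' z z l (hl.1.trans h) (hl.1.trans h)]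
  have e2 : ∏ l ∈ mid w z, (1 - (nuB (Bad (act (f := f) z z) (al d d') (be2 u u')) l : ℝ) / l) =
      ∏ l ∈ mid w z, (1 - (NB u u' d d' l : ℝ) / l) := by
    apply prod_congr rfl
    intro l hl
    rw [mem_mid] at hl
    rw [act_both u u' d d' z z l hl.2.1 hl.2.1]
  rw [e1, e2, two_mul, pow_add, pow_add, mul_pow]
  simp only [mul_inv]
  ring

lemma main_zw (w z : ℕ) (h : w ≤ z) :
    ((Vz z) ^ f)⁻¹ * ((Vz w) ^ f)⁻¹ * PP u u' d d' z z w = GG u u' d d' w * TT (mid w z) f (NL u u' d d') := by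
  unfold PP GG
  rw [pz_split w z h, prod_union (pz_disj w z), Vz_split w z h, ← TT_eq]
  have e1 : ∏ l ∈ pz w, (1 - (nuB (Bad (act (f := f) z w) (al d d') (be2 u u')) l : ℝ) / l) =
      ∏ l ∈ pz w, (1 - (NB u u' d d' l : ℝ) / l) := by
    apply prod_congr rfl
    intro l hl
    rw [mem_pz] at hl
    rw [act_both u u' d d' z w l (hl.1.trans h) hl.1]
  have e2 : ∏ l ∈ mid w z, (1 - (nuB (Bad (act (f := f) z w) (al d d') (be2 u u')) l : ℝ) / l) =
      ∏ l ∈ mid w z, (1 - (NL u u' d d' l : ℝ) / l) := by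
    apply prod_congr rfl
    intro l hl
    rw [mem_mid] at hl
    rw [act_left u u' d d' z w l hl.2.1 hl.1]
  rw [e1, e2, two_mul, pow_add, mul_pow]
  simp only [mul_inv]
  ring

lemma main_wz (w z : ℕ) (h : w ≤ z) :
    ((Vz w) ^ f)⁻¹ * ((Vz z) ^ f)⁻¹ * PP u u' d d' z w z = GG u u' d d' w * TT (mid w z) f (NR u u' d d') := by
  unfold PP GG
  rw [pz_split w z h, prod_union (pz_disj w z), Vz_split w z h, ← TT_eq]
  have e1 : ∏ l ∈ pz w, (1 - (nuB (Bad (act (f := f) w z) (al d d') (be2 u u')) l : ℝ) / l) =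
      ∏ l ∈ pz w, (1 - (NB u u' d d' l : ℝ) / l) := by
    apply prod_congr rfl
    intro l hl
    rw [mem_pz] at hl
    rw [act_both u u' d d' w z l hl.1 (hl.1.trans h)]
  have e2 : ∏ l ∈ mid w z, (1 - (nuB (Bad (act (f := f) w z) (al d d') (be2 u u')) l : ℝ) / l) =
      ∏ l ∈ mid w z, (1 - (NR u u' d d' l : ℝ) / l) := by
    apply prod_congr rfl
    intro l hl
    rw [mem_mid] at hl
    rw [act_right u u' d d' w z l hl.1 hl.2.1]
  rw [e1, e2, two_mul, pow_add, mul_pow]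
  simp only [mul_inv]
  ring

lemma main_ww (w z : ℕ) (h : w ≤ z) :
    ((Vz w) ^ f)⁻¹ * ((Vz w) ^ f)⁻¹ * PP u u' d d' z w w = GG u u' d d' w := by
  unfold PP GG
  rw [pz_split w z h, prod_union (pz_disj w z)]
  have e1 : ∏ l ∈ pz w, (1 - (nuB (Bad (act (f := f) w w) (al d d') (be2 u u')) l : ℝ) / l) =
      ∏ l ∈ pz w, (1 - (NB u u' d d' l : ℝ) / l) := by
    apply prod_congr rfl
    intro l hl
    rw [mem_pz] at hl
    rw [act_both u u' d d' w w l hl.1 hl.1]
  have e2 : ∏ l ∈ mid w z, (1 - (nuB (Bad (act (f := f) w w) (al d d') (be2 u u')) l : ℝ) / l) = 1 := by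
    apply prod_eq_one
    intro l hl
    rw [mem_mid] at hl
    rw [act_none u u' d d' w w l hl.1 hl.1]
    simp
  rw [e1, e2, two_mul, pow_add]
  simp only [mul_inv]
  ring

end pair

end Pool.Agent.H526.FC
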