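import Mathlib
import Pool.Agent.H526.FC.P1

set_option autoImplicit false

/-! The covariance of the sieve weights along two families of linear forms. -/

namespace Pool.Agent.H526.FC
open Finset
open Pool.Agent.H373R2.T7
open Pool.Agent.E8helper16.SL (Rough nu nu_nonneg nu_le al act actL actR actB Bad nuB_congr bad_PerB mid mem_mid pz_split
  pz_disj Vz_split TT_eq TT fac_nonneg FL Vz_anti Aset nuB_le_A nuB_le_card nuB_eq_A TT_low TT_up)

section cov
variable {f : ℕ} (u u' : Fin f → ℤ) (d d' : ℕ)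

lemma SS_approx {b x z : ℕ} (hFL : FL f b x z) (h : Nz u d) (h' : Nz u' d') (X z1 z2 : ℕ) (h1 : z1 ≤ z) (h2 : z2 ≤ z) :
    |SS u u' d d' X z1 z2 - X * (((Vz z1) ^ f)⁻¹ * ((Vz z2) ^ f)⁻¹ * PP u u' d d' z z1 z2)| ≤
      (1 / 2 : ℝ) ^ b * (X * (((Vz z1) ^ f)⁻¹ * ((Vz z2) ^ f)⁻¹ * PP u u' d d' z z1 z2)) +
        ((Vz z) ^ (2 * f))⁻¹ * √(x : ℝ) := by
  classical
  have key := hFL (Bad (act (f := f) z1 z2) (al d d') (be2 u u')) (pair_PerB u u' d d' h h' _) X
  rw [SS_eq u u' d d' X z z1 z2 h1 h2]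
  obtain ⟨v, hv⟩ : ∃ v, v = ((Vz z1) ^ f)⁻¹ * ((Vz z2) ^ f)⁻¹ := ⟨_, rfl⟩
  rw [← hv]
  have hv0 : 0 ≤ v := by
    rw [hv]
    exact mul_nonneg (inv_nonneg.2 (pow_nonneg (Vz_pos _).le _)) (inv_nonneg.2 (pow_nonneg (Vz_pos _).le _))
  have hvz : v ≤ ((Vz z) ^ (2 * f))⁻¹ := by
    rw [hv, two_mul, pow_add, mul_inv]
    apply mul_le_mul
    · exact inv_anti₀ (pow_pos (Vz_pos _) _) (pow_le_pow_left₀ (Vz_pos _).le (Vz_anti h1) _)
    · exact inv_anti₀ (pow_pos (Vz_pos _) _) (pow_le_pow_left₀ (Vz_pos _).le (Vz_anti h2) _)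
    · exact inv_nonneg.2 (pow_nonneg (Vz_pos _).le _)
    · exact inv_nonneg.2 (pow_nonneg (Vz_pos _).le _)
  have e1 : v * CC u u' d d' X z z1 z2 - X * (v * PP u u' d d' z z1 z2) =
      v * (CC u u' d d' X z z1 z2 - X * PP u u' d d' z z1 z2) := by ring
  rw [e1, abs_mul, abs_of_nonneg hv0]
  have e2 : |CC u u' d d' X z z1 z2 - X * PP u u' d d' z z1 z2| ≤
      (1 / 2 : ℝ) ^ b * (X * PP u u' d d' z z1 z2) + √(x : ℝ) := by
    unfold CC PP
    convert key
  calc v * |CC u u' d d' X z z1 z2 - X * PP u u' d d' z z1 z2| ≤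
        v * ((1 / 2 : ℝ) ^ b * (X * PP u u' d d' z z1 z2) + √(x : ℝ)) := mul_le_mul_of_nonneg_left e2 hv0
    _ = (1 / 2 : ℝ) ^ b * (X * (v * PP u u' d d' z z1 z2)) + v * √(x : ℝ) := by ring
    _ ≤ _ := by
        have := mul_le_mul_of_nonneg_right hvz (Real.sqrt_nonneg (x : ℝ))
        linarith

/-- the covariance -/
noncomputable def Cov (X w z : ℕ) : ℝ :=
  ∑ m ∈ Icc 1 X, (nu u z (d * m) - nu u w (d * m)) * (nu u' z (d' * m) - nu u' w (d' * m))

lemma Cov_eq (X w z : ℕ) : Cov u u' d d' X w z =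
    SS u u' d d' X z z - SS u u' d d' X z w - SS u u' d d' X w z + SS u u' d d' X w w := by
  unfold Cov SS
  rw [← sum_sub_distrib, ← sum_sub_distrib, ← sum_add_distrib]
  apply sum_congr rfl
  intro m _
  ring

lemma cov_le {b x w z : ℕ} (hFL : FL f b x z) (hwz : w ≤ z) (h : Nz u d) (h' : Nz u' d') (X : ℕ) (T11 T10 T01 : ℝ)
    (e11 : T11 = TT (mid w z) (2 * f) (NB u u' d d')) (e10 : T10 = TT (mid w z) f (NL u u' d d'))
    (e01 : T01 = TT (mid w z) f (NR u u' d d')) :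
    |Cov u u' d d' X w z| ≤ X * GG u u' d d' w * (|T11 - 1| + |T10 - 1| + |T01 - 1|) +
      (1 / 2 : ℝ) ^ b * (X * GG u u' d d' w * (T11 + T10 + T01 + 1)) + 4 * (((Vz z) ^ (2 * f))⁻¹ * √(x : ℝ)) := by
  have a1 := SS_approx u u' d d' hFL h h' X z z le_rfl le_rfl
  have a2 := SS_approx u u' d d' hFL h h' X z w le_rfl hwz
  have a3 := SS_approx u u' d d' hFL h h' X w z hwz le_rfl
  have a4 := SS_approx u u' d d' hFL h h' X w w hwz hwz
  rw [main_zz u u' d d' w z hwz, ← e11] at a1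
  rw [main_zw u u' d d' w z hwz, ← e10] at a2
  rw [main_wz u u' d d' w z hwz, ← e01] at a3
  rw [main_ww u u' d d' w z hwz] at a4
  rw [Cov_eq]
  have hG := GG_nonneg u u' d d' w
  have hX : (0 : ℝ) ≤ X := Nat.cast_nonneg _
  have hXG : 0 ≤ X * GG u u' d d' w := mul_nonneg hX hG
  have t1 := mul_le_mul_of_nonneg_left (le_abs_self (T11 - 1)) hXG
  have t1' := mul_le_mul_of_nonneg_left (neg_abs_le (T11 - 1)) hXG
  have t2 := mul_le_mul_of_nonneg_left (le_abs_self (T10 - 1)) hXG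
  have t2' := mul_le_mul_of_nonneg_left (neg_abs_le (T10 - 1)) hXG
  have t3 := mul_le_mul_of_nonneg_left (le_abs_self (T01 - 1)) hXG
  have t3' := mul_le_mul_of_nonneg_left (neg_abs_le (T01 - 1)) hXG
  rw [abs_le] at a1 a2 a3 a4
  rw [abs_le]
  constructor
  · nlinarith
  · nlinarith

/-- the first family has at most `f` classes -/
lemma NL_le (h : Nz u d) (h' : Nz u' d') {l : ℕ} (hl : l.Prime) : NL u u' d d' l ≤ f := by
  classical
  unfold NL
  refine (nuB_le_A _ _ _ l hl (nd_pair u u' d d' h h' _ l hl)).trans ?_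
  have : Aset (actL (f := f)) (al d d') l ⊆ univ.image Sum.inl := by
    intro k hk
    unfold Aset at hk
    rw [mem_filter] at hk
    rcases k with k | k
    · exact mem_image_of_mem _ (mem_univ _)
    · exact absurd hk.2.1 (by simp [actL])
  refine (card_le_card this).trans (card_image_le.trans ?_)
  rw [card_univ, Fintype.card_fin]

lemma NR_le (h : Nz u d) (h' : Nz u' d') {l : ℕ} (hl : l.Prime) : NR u u' d d' l ≤ f := by
  classical
  unfold NR
  refine (nuB_le_A _ _ _ l hl (nd_pair u u' d d' h h' _ l hl)).trans ?_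
  have : Aset (actR (f := f)) (al d d') l ⊆ univ.image Sum.inr := by
    intro k hk
    unfold Aset at hk
    rw [mem_filter] at hk
    rcases k with k | k
    · exact absurd hk.2.1 (by simp [actR])
    · exact mem_image_of_mem _ (mem_univ _)
  refine (card_le_card this).trans (card_image_le.trans ?_)
  rw [card_univ, Fintype.card_fin]

lemma NB_le (h : Nz u d) (h' : Nz u' d') {l : ℕ} (hl : l.Prime) : NB u u' d d' l ≤ 2 * f := by
  unfold NB
  refine (nuB_le_card _ _ _ l hl (nd_pair u u' d d' h h' _ l hl)).trans ?_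
  rw [Fintype.card_sum, Fintype.card_fin]
  omega

lemma NL_leP (l : ℕ) : NL u u' d d' l ≤ l := nuB_le _ _
lemma NR_leP (l : ℕ) : NR u u' d d' l ≤ l := nuB_le _ _
lemma NB_leP (l : ℕ) : NB u u' d d' l ≤ l := nuB_le _ _


/-- the constant terms differ modulo `l` -/
def Sp {f : ℕ} (u : Fin f → ℤ) (l : ℕ) : Prop := ∀ i j, i ≠ j → ¬ (l : ℤ) ∣ u i - u j

lemma sp_dvd {f : ℕ} {u : Fin f → ℤ} {l : ℕ} (hs : Sp u l) (hl : l.Prime) {i j : Fin f} (hij : i ≠ j) {e : ℕ}
    (he : ¬ l ∣ e) : ¬ (l : ℤ) ∣ (e : ℤ) * u j - e * u i := by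
  intro h
  have e1 : (e : ℤ) * u j - e * u i = e * (u j - u i) := by ring
  rw [e1] at h
  rcases (Nat.prime_iff_prime_int.1 hl).dvd_or_dvd h with h1 | h1
  · exact he (Int.natCast_dvd_natCast.1 h1)
  · exact hs j i (Ne.symm hij) h1

lemma NL_eq (h : Nz u d) (h' : Nz u' d') {l : ℕ} (hl : l.Prime) (hs : Sp u l) (hd : ¬ l ∣ d) :
    NL u u' d d' l = f := by
  classical
  unfold NL
  have hA : Aset (actL (f := f)) (al d d') l = univ.image Sum.inl := by
    ext k
    unfold Aset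
    rw [mem_filter]
    rcases k with k | k
    · simp only [mem_univ, actL, al, Sum.elim_inl, true_and, mem_image, Sum.inl.injEq, exists_eq, iff_true]
      intro h1
      exact hd (Int.natCast_dvd_natCast.1 h1)
    · simp [actL]
  rw [nuB_eq_A _ _ _ l hl (nd_pair u u' d d' h h' _ l hl)]
  · rw [hA, card_image_of_injective _ Sum.inl_injective, card_univ, Fintype.card_fin]
  · rw [hA]
    intro k hk k' hk' hne
    rw [mem_image] at hk hk'
    obtain ⟨i, _, rfl⟩ := hk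
    obtain ⟨j, _, rfl⟩ := hk'
    simp only [al, be2, Sum.elim_inl]
    exact sp_dvd hs hl (fun h => hne (by rw [h])) hd

lemma NR_eq (h : Nz u d) (h' : Nz u' d') {l : ℕ} (hl : l.Prime) (hs : Sp u' l) (hd : ¬ l ∣ d') :
    NR u u' d d' l = f := by
  classical
  unfold NR
  have hA : Aset (actR (f := f)) (al d d') l = univ.image Sum.inr := by
    ext k
    unfold Aset
    rw [mem_filter]
    rcases k with k | k
    · simp [actR]
    · simp only [mem_univ, actR, al, Sum.elim_inr, true_and, mem_image, Sum.inr.injEq, exists_eq, iff_true]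
      intro h1
      exact hd (Int.natCast_dvd_natCast.1 h1)
  rw [nuB_eq_A _ _ _ l hl (nd_pair u u' d d' h h' _ l hl)]
  · rw [hA, card_image_of_injective _ Sum.inr_injective, card_univ, Fintype.card_fin]
  · rw [hA]
    intro k hk k' hk' hne
    rw [mem_image] at hk hk'
    obtain ⟨i, _, rfl⟩ := hk
    obtain ⟨j, _, rfl⟩ := hk'
    simp only [al, be2, Sum.elim_inr]
    exact sp_dvd hs hl (fun h => hne (by rw [h])) hd

/-- the determinant of the forms `i`, `j` -/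
def Dt (i j : Fin f) : ℤ := d * u' j - d' * u i

lemma NB_eq (h : Nz u d) (h' : Nz u' d') {l : ℕ} (hl : l.Prime) (hs : Sp u l) (hs' : Sp u' l) (hd : ¬ l ∣ d)
    (hd' : ¬ l ∣ d') (hΔ : ∀ i j, ¬ (l : ℤ) ∣ Dt u u' d d' i j) :
    NB u u' d d' l = 2 * f := by
  classical
  unfold NB
  have hA : Aset (actB (f := f)) (al d d') l = univ := by
    ext k
    unfold Aset
    rw [mem_filter]
    rcases k with k | k
    · simp only [mem_univ, actB, al, Sum.elim_inl, true_and, iff_true]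
      intro h1
      exact hd (Int.natCast_dvd_natCast.1 h1)
    · simp only [mem_univ, actB, al, Sum.elim_inr, true_and, iff_true]
      intro h1
      exact hd' (Int.natCast_dvd_natCast.1 h1)
  rw [nuB_eq_A _ _ _ l hl (nd_pair u u' d d' h h' _ l hl)]
  · rw [hA, card_univ, Fintype.card_sum, Fintype.card_fin]
    omega
  · intro k _ k' _ hne
    rcases k with i | i <;> rcases k' with j | j
    · simp only [al, be2, Sum.elim_inl]
      exact sp_dvd hs hl (fun h => hne (by rw [h])) hd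
    · simp only [al, be2, Sum.elim_inl, Sum.elim_inr]
      exact hΔ i j
    · simp only [al, be2, Sum.elim_inl, Sum.elim_inr]
      intro h1
      apply hΔ j i
      unfold Dt
      rw [← dvd_neg]
      have e : -((d : ℤ) * u' i - d' * u j) = d' * u j - d * u' i := by ring
      rw [e]
      exact h1
    · simp only [al, be2, Sum.elim_inr]
      exact sp_dvd hs' hl (fun h => hne (by rw [h])) hd'

/-- the bad primes -/
def BadP (l : ℕ) : Prop := l ∣ d ∨ l ∣ d' ∨ (∃ i j, (l : ℤ) ∣ Dt u u' d d' i j) ∨ (∃ i j, i ≠ j ∧ (l : ℤ) ∣ u i - u j) ∨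
  (∃ i j, i ≠ j ∧ (l : ℤ) ∣ u' i - u' j)

open Classical in
/-- the product over the bad primes -/
noncomputable def UU (w z : ℕ) : ℝ := ∏ l ∈ (mid w z).filter (BadP u u' d d'), (1 + 4 * (f : ℝ) / l)

lemma one_le_UU (w z : ℕ) : 1 ≤ UU u u' d d' w z := by
  unfold UU
  apply Pool.Agent.TH891.SG.one_le_prodR
  intro l _
  have : (0 : ℝ) ≤ 4 * (f : ℝ) / l := by positivity
  linarith

open Classical in
lemma half_le_UU (w z : ℕ) : ∏ l ∈ (mid w z).filter (BadP u u' d d'), (1 + 2 * (f : ℝ) / l) ≤ UU u u' d d' w z := by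
  unfold UU
  · apply prod_le_prod
    · intro l _
      positivity
    · intro l _
      have : 2 * (f : ℝ) / l ≤ 4 * (f : ℝ) / l := by
        apply div_le_div_of_nonneg_right _ (Nat.cast_nonneg l)
        have : (0 : ℝ) ≤ f := Nat.cast_nonneg _
        linarith
      linarith

lemma T10_bound {w z : ℕ} (hf : 1 ≤ f) (hfw : 16 * f ^ 2 ≤ w) (h : Nz u d) (h' : Nz u' d') :
    |TT (mid w z) f (NL u u' d d') - 1| ≤ (UU u u' d d' w z - 1) + 4 * (f : ℝ) ^ 2 / w ∧
      TT (mid w z) f (NL u u' d d') ≤ UU u u' d d' w z := by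
  classical
  have hf2 : f ≤ f ^ 2 := Nat.le_self_pow (by norm_num) f
  have hw1 : 1 ≤ w := by nlinarith
  have hw0 : (0 : ℝ) < w := by exact_mod_cast hw1
  have h1 := TT_low (mid := mid w z) (k := f) (w := w) (N := NL u u' d d') hw1 (by nlinarith)
    (fun l hl => (mem_mid.1 hl).1) (fun l hl => NL_le u u' d d' h h' (mem_mid.1 hl).2.2)
  have h2 := TT_up (mid := mid w z) (k := f) (w := w) (N := NL u u' d d') hw1 (by nlinarith)
    (fun l hl => (mem_mid.1 hl).1) (fun l _ => NL_leP u u' d d' l) (BadP u u' d d')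
    (fun l hl hP => by
      unfold BadP at hP
      push Not at hP
      exact NL_eq u u' d d' h h' (mem_mid.1 hl).2.2 (fun i j hij => hP.2.2.2.1 i j hij) hP.1)
  have h4 : TT (mid w z) f (NL u u' d d') ≤ UU u u' d d' w z := by
    refine h2.trans (le_trans (le_of_eq ?_) (half_le_UU u u' d d' w z))
    congr!
  have h5 := one_le_UU u u' d d' w z
  have h6 : (f : ℝ) ^ 2 / w ≤ 4 * (f : ℝ) ^ 2 / w := by
    apply div_le_div_of_nonneg_right _ hw0.le
    nlinarith [sq_nonneg (f : ℝ)]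
  have h7 : 0 ≤ 4 * (f : ℝ) ^ 2 / w := by positivity
  refine ⟨?_, h4⟩
  rw [abs_le]
  constructor <;> linarith

lemma T01_bound {w z : ℕ} (hf : 1 ≤ f) (hfw : 16 * f ^ 2 ≤ w) (h : Nz u d) (h' : Nz u' d') :
    |TT (mid w z) f (NR u u' d d') - 1| ≤ (UU u u' d d' w z - 1) + 4 * (f : ℝ) ^ 2 / w ∧
      TT (mid w z) f (NR u u' d d') ≤ UU u u' d d' w z := by
  classical
  have hf2 : f ≤ f ^ 2 := Nat.le_self_pow (by norm_num) f
  have hw1 : 1 ≤ w := by nlinarith
  have hw0 : (0 : ℝ) < w := by exact_mod_cast hw1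
  have h1 := TT_low (mid := mid w z) (k := f) (w := w) (N := NR u u' d d') hw1 (by nlinarith)
    (fun l hl => (mem_mid.1 hl).1) (fun l hl => NR_le u u' d d' h h' (mem_mid.1 hl).2.2)
  have h2 := TT_up (mid := mid w z) (k := f) (w := w) (N := NR u u' d d') hw1 (by nlinarith)
    (fun l hl => (mem_mid.1 hl).1) (fun l _ => NR_leP u u' d d' l) (BadP u u' d d')
    (fun l hl hP => by
      unfold BadP at hP
      push Not at hP
      exact NR_eq u u' d d' h h' (mem_mid.1 hl).2.2 (fun i j hij => hP.2.2.2.2 i j hij) hP.2.1)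
  have h4 : TT (mid w z) f (NR u u' d d') ≤ UU u u' d d' w z := by
    refine h2.trans (le_trans (le_of_eq ?_) (half_le_UU u u' d d' w z))
    congr!
  have h5 := one_le_UU u u' d d' w z
  have h6 : (f : ℝ) ^ 2 / w ≤ 4 * (f : ℝ) ^ 2 / w := by
    apply div_le_div_of_nonneg_right _ hw0.le
    nlinarith [sq_nonneg (f : ℝ)]
  have h7 : 0 ≤ 4 * (f : ℝ) ^ 2 / w := by positivity
  refine ⟨?_, h4⟩
  rw [abs_le]
  constructor <;> linarith

lemma T11_bound {w z : ℕ} (hf : 1 ≤ f) (hfw : 16 * f ^ 2 ≤ w) (h : Nz u d) (h' : Nz u' d') :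
    |TT (mid w z) (2 * f) (NB u u' d d') - 1| ≤ (UU u u' d d' w z - 1) + 4 * (f : ℝ) ^ 2 / w ∧
      TT (mid w z) (2 * f) (NB u u' d d') ≤ UU u u' d d' w z := by
  classical
  have hf2 : f ≤ f ^ 2 := Nat.le_self_pow (by norm_num) f
  have hw1 : 1 ≤ w := by nlinarith
  have hw0 : (0 : ℝ) < w := by exact_mod_cast hw1
  have h1 := TT_low (mid := mid w z) (k := 2 * f) (w := w) (N := NB u u' d d') hw1 (by nlinarith)
    (fun l hl => (mem_mid.1 hl).1) (fun l hl => NB_le u u' d d' h h' (mem_mid.1 hl).2.2)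
  have h2 := TT_up (mid := mid w z) (k := 2 * f) (w := w) (N := NB u u' d d') hw1 (by nlinarith)
    (fun l hl => (mem_mid.1 hl).1) (fun l _ => NB_leP u u' d d' l) (BadP u u' d d')
    (fun l hl hP => by
      unfold BadP at hP
      push Not at hP
      exact NB_eq u u' d d' h h' (mem_mid.1 hl).2.2 (fun i j hij => hP.2.2.2.1 i j hij)
        (fun i j hij => hP.2.2.2.2 i j hij) hP.1 hP.2.1 hP.2.2.1)
  have h4 : TT (mid w z) (2 * f) (NB u u' d d') ≤ UU u u' d d' w z := by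
    refine h2.trans (le_of_eq ?_)
    unfold UU
    apply prod_congr (by congr!)
    intro l _
    push_cast
    ring
  have h5 := one_le_UU u u' d d' w z
  have h6 : ((2 * f : ℕ) : ℝ) ^ 2 / w = 4 * (f : ℝ) ^ 2 / w := by push_cast; ring
  rw [h6] at h1
  have h7 : 0 ≤ 4 * (f : ℝ) ^ 2 / w := by positivity
  refine ⟨?_, h4⟩
  rw [abs_le]
  constructor <;> linarith

/-- the bound for the covariance -/
lemma cov_final {b x w z : ℕ} (hf : 1 ≤ f) (hfw : 16 * f ^ 2 ≤ w) (hFL : FL f b x z)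
    (hwz : w ≤ z) (h : Nz u d) (h' : Nz u' d') (X : ℕ) :
    |Cov u u' d d' X w z| ≤ X * ((Vz w) ^ (2 * f))⁻¹ *
      (6 * (UU u u' d d' w z - 1) + 12 * (f : ℝ) ^ 2 / w + 4 * (1 / 2 : ℝ) ^ b) +
        4 * (((Vz z) ^ (2 * f))⁻¹ * √(x : ℝ)) := by
  obtain ⟨a1, a2⟩ := T10_bound u u' d d' (z := z) hf hfw h h'
  obtain ⟨b1, b2⟩ := T01_bound u u' d d' (z := z) hf hfw h h'
  obtain ⟨c1, c2⟩ := T11_bound u u' d d' (z := z) hf hfw h h'
  have key := cov_le u u' d d' hFL hwz h h' X _ _ _ rfl rfl rfl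
  have hG := GG_nonneg u u' d d' w
  have hG' := GG_le u u' d d' w
  have hX : (0 : ℝ) ≤ X := Nat.cast_nonneg _
  have hU := one_le_UU u u' d d' w z
  have hb0 : (0 : ℝ) ≤ (1 / 2 : ℝ) ^ b := by positivity
  have hb1 : (1 / 2 : ℝ) ^ b ≤ 1 := pow_le_one₀ (by norm_num) (by norm_num)
  refine key.trans ?_
  apply add_le_add _ le_rfl
  obtain ⟨T11, e1⟩ : ∃ t, t = TT (mid w z) (2 * f) (NB u u' d d') := ⟨_, rfl⟩
  obtain ⟨T10, e2⟩ : ∃ t, t = TT (mid w z) f (NL u u' d d') := ⟨_, rfl⟩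
  obtain ⟨T01, e3⟩ : ∃ t, t = TT (mid w z) f (NR u u' d d') := ⟨_, rfl⟩
  rw [← e1] at c1 c2 ⊢
  rw [← e2] at a1 a2 ⊢
  rw [← e3] at b1 b2 ⊢
  obtain ⟨U, eU⟩ : ∃ t, t = UU u u' d d' w z := ⟨_, rfl⟩
  rw [← eU] at a1 a2 b1 b2 c1 c2 hU ⊢
  obtain ⟨r, hr⟩ : ∃ r, r = (f : ℝ) ^ 2 / w := ⟨_, rfl⟩
  have q2 : 4 * (f : ℝ) ^ 2 / w = 4 * r := by rw [hr]; ring
  have q3 : 12 * (f : ℝ) ^ 2 / w = 12 * r := by rw [hr]; ring
  rw [q2] at a1 b1 c1
  rw [q3]
  have hXG : 0 ≤ X * GG u u' d d' w := mul_nonneg hX hG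
  have hXGle : X * GG u u' d d' w ≤ X * ((Vz w) ^ (2 * f))⁻¹ := mul_le_mul_of_nonneg_left hG' hX
  have s1 : |T11 - 1| + |T10 - 1| + |T01 - 1| ≤ 3 * (U - 1) + 12 * r := by linarith
  have s2 : T11 + T10 + T01 + 1 ≤ 3 * (U - 1) + 4 := by linarith
  have s3 : (1 / 2 : ℝ) ^ b * (U - 1) ≤ 1 * (U - 1) := mul_le_mul_of_nonneg_right hb1 (by linarith)
  have hr0 : 0 ≤ r := by rw [hr]; positivity
  calc X * GG u u' d d' w * (|T11 - 1| + |T10 - 1| + |T01 - 1|) +
        (1 / 2 : ℝ) ^ b * (X * GG u u' d d' w * (T11 + T10 + T01 + 1))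
      = X * GG u u' d d' w * ((|T11 - 1| + |T10 - 1| + |T01 - 1|) + (1 / 2 : ℝ) ^ b * (T11 + T10 + T01 + 1)) := by ring
    _ ≤ X * GG u u' d d' w * ((3 * (U - 1) + 12 * r) + (1 / 2 : ℝ) ^ b * (3 * (U - 1) + 4)) := by
        apply mul_le_mul_of_nonneg_left _ hXG
        apply add_le_add s1
        exact mul_le_mul_of_nonneg_left s2 hb0
    _ ≤ X * GG u u' d d' w * (6 * (U - 1) + 12 * r + 4 * (1 / 2 : ℝ) ^ b) := by
        apply mul_le_mul_of_nonneg_left _ hXG
        linarith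
    _ ≤ X * ((Vz w) ^ (2 * f))⁻¹ * (6 * (U - 1) + 12 * r + 4 * (1 / 2 : ℝ) ^ b) := by
        apply mul_le_mul_of_nonneg_right hXGle
        have : 0 ≤ U - 1 := by linarith
        positivity

end cov

end Pool.Agent.H526.FC
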