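import Mathlib
import Pool.Agent.H526.FC.P2
import Pool.Graph.R_pool_sql_team_seeded_b677cdb8.E8helper16.SL.E4

set_option autoImplicit false

/-! The product over the bad primes: splitting according to the determinants and the differences. -/

namespace Pool.Agent.H526.FC
open Finset
open Pool.Agent.H373R2.T7
open Pool.Agent.TH891.SG (one_le_prodR prod_union_le prod_biUnion_le' pow_convex)
open Pool.Agent.E8helper16.SL (mid mem_mid prod_sub_one_le large_part prod_mono_one' filt_prime prod_exp sum_inv_sq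
  exp_le_two ss1)

open Classical in
/-- the product over the prime divisors in `(w, y]` -/
noncomputable def AA (w y : ℕ) (C : ℝ) (Δ : ℤ) : ℝ := ∏ l ∈ (mid w y).filter (fun l : ℕ => (l : ℤ) ∣ Δ), (1 + C / (l : ℝ))

/-- the product over all primes up to `y` -/
noncomputable def WW (C : ℝ) (y : ℕ) : ℝ := ∏ l ∈ pz y, (1 + C / (l : ℝ))

lemma one_le_fac {C : ℝ} (hC : 0 ≤ C) (l : ℕ) : 1 ≤ 1 + C / (l : ℝ) := by
  have : 0 ≤ C / (l : ℝ) := by positivity
  linarith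

lemma one_le_AA (w y : ℕ) {C : ℝ} (hC : 0 ≤ C) (Δ : ℤ) : 1 ≤ AA w y C Δ := by
  unfold AA
  exact one_le_prodR _ _ fun l _ => one_le_fac hC l

lemma one_le_WW (y : ℕ) {C : ℝ} (hC : 0 ≤ C) : 1 ≤ WW C y := by
  unfold WW
  exact one_le_prodR _ _ fun l _ => one_le_fac hC l

lemma AA_le_WW (w y : ℕ) {C : ℝ} (hC : 0 ≤ C) (Δ : ℤ) : AA w y C Δ ≤ WW C y := by
  unfold AA WW
  apply prod_mono_one' _ (fun l => one_le_fac hC l)
  intro l hl
  rw [mem_filter, mem_mid] at hl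
  exact mem_pz.2 hl.1.2

lemma AA_pow (w y : ℕ) {C : ℝ} (hC : 0 ≤ C) (Δ : ℤ) (r : ℕ) : AA w y C Δ ^ r ≤ AA w y ((1 + C) ^ r) Δ := by
  unfold AA
  rw [← prod_pow]
  apply prod_le_prod
  · intro l _
    positivity
  · intro l hl
    rw [mem_filter, mem_mid] at hl
    have h2 : (1 : ℝ) ≤ l := by exact_mod_cast hl.1.2.2.one_le
    have h3 := pow_convex r (C := C) (u := 1 / (l : ℝ)) hC (by positivity)
      (by rw [div_le_one (by linarith)]; exact h2)
    have e1 : 1 + C / (l : ℝ) = 1 + C * (1 / l) := by ring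
    have e2 : 1 + (1 + C) ^ r / (l : ℝ) = 1 + (1 + C) ^ r * (1 / l) := by ring
    rw [e1, e2]
    exact h3

section gen
variable {Q : Type} [Fintype Q] (Δ : Q → ℤ)

open Classical in
/-- the product over the prime divisors of `d`, `d'` and of the integers of the family `Δ` -/
noncomputable def GU (C : ℝ) (w z d d' : ℕ) : ℝ :=
  ∏ l ∈ (mid w z).filter (fun l : ℕ => l ∣ d ∨ l ∣ d' ∨ ∃ q, (l : ℤ) ∣ Δ q), (1 + C / (l : ℝ))

lemma one_le_GU {C : ℝ} (hC : 0 ≤ C) (w z d d' : ℕ) : 1 ≤ GU Δ C w z d d' := by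
  unfold GU
  exact one_le_prodR _ _ fun l _ => one_le_fac hC l

lemma GU_le {C : ℝ} (hC : 0 ≤ C) {w z y K d d' : ℕ} (hw : 1 ≤ w) (hy : 1 ≤ y) (hd : d = 1 ∨ d.Prime) (hd' : d' = 1 ∨ d'.Prime)
    (hΔ : ∀ q, Δ q ≠ 0 ∧ (Δ q).natAbs ≤ 2 ^ K) :
    GU Δ C w z d d' ≤ (1 + C / w) ^ 2 * (∏ q : Q, AA w y C (Δ q)) * Real.exp (C * K / y) ^ (Fintype.card Q) := by
  classical
  have h1F : ∀ l : ℕ, (1 : ℝ) ≤ 1 + C / l := fun l => one_le_fac hC l
  unfold GU
  obtain ⟨B1, hB1⟩ : ∃ B, B = (mid w z).filter (fun l => l ∣ d) := ⟨_, rfl⟩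
  obtain ⟨B2, hB2⟩ : ∃ B, B = (mid w z).filter (fun l => l ∣ d') := ⟨_, rfl⟩
  obtain ⟨g, hg⟩ : ∃ g : Q → Finset ℕ, g = fun q => (mid w y).filter (fun l : ℕ => (l : ℤ) ∣ Δ q) := ⟨_, rfl⟩
  obtain ⟨g', hg'⟩ : ∃ g : Q → Finset ℕ, g = fun q => (mid w z).filter (fun l : ℕ => y < l ∧ (l : ℤ) ∣ Δ q) := ⟨_, rfl⟩
  have hsub : (mid w z).filter (fun l : ℕ => l ∣ d ∨ l ∣ d' ∨ ∃ q, (l : ℤ) ∣ Δ q) ⊆
      (B1 ∪ B2) ∪ (univ.biUnion g ∪ univ.biUnion g') := by
    intro l hl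
    rw [mem_filter] at hl
    obtain ⟨hm, hb⟩ := hl
    have hmm := mem_mid.1 hm
    rcases hb with hb | hb | ⟨q, hq⟩
    · exact mem_union_left _ (mem_union_left _ (by rw [hB1, mem_filter]; exact ⟨hm, hb⟩))
    · exact mem_union_left _ (mem_union_right _ (by rw [hB2, mem_filter]; exact ⟨hm, hb⟩))
    · apply mem_union_right
      rcases Nat.lt_or_ge y l with hyl | hyl
      · apply mem_union_right
        rw [mem_biUnion]
        refine ⟨q, mem_univ _, ?_⟩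
        rw [hg', mem_filter]
        exact ⟨hm, hyl, hq⟩
      · apply mem_union_left
        rw [mem_biUnion]
        refine ⟨q, mem_univ _, ?_⟩
        rw [hg, mem_filter, mem_mid]
        exact ⟨⟨hmm.1, hyl, hmm.2.2⟩, hq⟩
  have c1 := prod_mono_one' hsub (f := fun l : ℕ => 1 + C / l) h1F
  have c2 := prod_union_le (f := fun l : ℕ => 1 + C / l) (B1 ∪ B2) (univ.biUnion g ∪ univ.biUnion g') (fun x _ => h1F x)
  have c3 := prod_union_le (f := fun l : ℕ => 1 + C / l) B1 B2 (fun x _ => h1F x)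
  have c4 := prod_union_le (f := fun l : ℕ => 1 + C / l) (univ.biUnion g) (univ.biUnion g') (fun x _ => h1F x)
  have c5 := prod_biUnion_le' (univ : Finset Q) g (fun l : ℕ => 1 + C / l) (fun _ _ x _ => h1F x)
  have c6 := prod_biUnion_le' (univ : Finset Q) g' (fun l : ℕ => 1 + C / l) (fun _ _ x _ => h1F x)
  have hpos : ∀ S : Finset ℕ, 0 ≤ ∏ l ∈ S, (1 + C / (l : ℝ)) := fun S => prod_nonneg fun l _ => by linarith [h1F l]
  have d1 : ∏ l ∈ B1, (1 + C / (l : ℝ)) ≤ 1 + C / w := by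
    rw [hB1]
    exact filt_prime w z d C hC hd hw
  have d2 : ∏ l ∈ B2, (1 + C / (l : ℝ)) ≤ 1 + C / w := by
    rw [hB2]
    exact filt_prime w z d' C hC hd' hw
  have d3 : ∏ q : Q, ∏ l ∈ g' q, (1 + C / (l : ℝ)) ≤ Real.exp (C * K / y) ^ (Fintype.card Q) := by
    calc _ ≤ ∏ _q : Q, Real.exp (C * K / y) := by
          apply prod_le_prod (fun q _ => hpos _)
          intro q _
          rw [hg']
          apply large_part _ (hΔ q).1 K (hΔ q).2 y hy C hC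
          intro l hl
          simp only [mem_filter, mem_mid] at hl
          exact ⟨hl.1.2.2, hl.2⟩
      _ = _ := by
          rw [prod_const, card_univ]
  have d4 : ∏ q : Q, ∏ l ∈ g q, (1 + C / (l : ℝ)) = ∏ q : Q, AA w y C (Δ q) := by
    apply prod_congr rfl
    intro q _
    rw [hg]
    unfold AA
    rfl
  have hA0 : 0 ≤ ∏ q : Q, AA w y C (Δ q) :=
    prod_nonneg fun q _ => by linarith [one_le_AA w y hC (Δ q)]
  have hw4 : 0 ≤ 1 + C / w := by positivity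
  calc ∏ l ∈ (mid w z).filter (fun l : ℕ => l ∣ d ∨ l ∣ d' ∨ ∃ q, (l : ℤ) ∣ Δ q), (1 + C / (l : ℝ)) ≤
        ∏ l ∈ (B1 ∪ B2) ∪ (univ.biUnion g ∪ univ.biUnion g'), (1 + C / (l : ℝ)) := c1
    _ ≤ (∏ l ∈ B1 ∪ B2, (1 + C / (l : ℝ))) * ∏ l ∈ univ.biUnion g ∪ univ.biUnion g', (1 + C / (l : ℝ)) := c2
    _ ≤ ((1 + C / w) * (1 + C / w)) *
        ((∏ q : Q, AA w y C (Δ q)) * Real.exp (C * K / y) ^ (Fintype.card Q)) := by
        apply mul_le_mul
        · exact c3.trans (mul_le_mul d1 d2 (hpos _) hw4)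
        · refine c4.trans (mul_le_mul (c5.trans (le_of_eq d4)) (c6.trans d3) (hpos _) hA0)
        · exact hpos _
        · positivity
    _ = _ := by ring

/-- the sum of the excesses -/
noncomputable def EX (C : ℝ) (w y : ℕ) : ℝ := ∑ q : Q, (AA w y C (Δ q) - 1)

lemma EX_nonneg {C : ℝ} (hC : 0 ≤ C) (w y : ℕ) : 0 ≤ EX Δ C w y := by
  unfold EX
  apply sum_nonneg
  intro q _
  have := one_le_AA w y hC (Δ q)
  linarith

lemma EX_le {C : ℝ} (hC : 0 ≤ C) (w y : ℕ) : EX Δ C w y ≤ Fintype.card Q * WW C y := by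
  unfold EX
  calc _ ≤ ∑ _q : Q, WW C y := by
        apply sum_le_sum
        intro q _
        have := AA_le_WW w y hC (Δ q)
        linarith
    _ = _ := by
        rw [sum_const, card_univ, nsmul_eq_mul]

lemma GU_sub {C : ℝ} (hC : 0 ≤ C) {w z y K d d' : ℕ} (hw : 1 ≤ w) (hy : 1 ≤ y) (hCw : 2 * C + 1 ≤ w)
    (hKy : C * K * Fintype.card Q * w ≤ y) (hd : d = 1 ∨ d.Prime) (hd' : d' = 1 ∨ d'.Prime)
    (hΔ : ∀ q, Δ q ≠ 0 ∧ (Δ q).natAbs ≤ 2 ^ K) :
    GU Δ C w z d d' - 1 ≤ 2 * ((2 * C + 1) / w) + 3 * EX Δ ((1 + C) ^ (Fintype.card Q)) w y := by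
  classical
  have hw0 : (0 : ℝ) < w := by exact_mod_cast hw
  have hy0 : (0 : ℝ) < y := by exact_mod_cast hy
  obtain ⟨F0, hF0⟩ : ∃ F0, F0 = (1 + C / w) ^ 2 * Real.exp (C * K / y) ^ (Fintype.card Q) := ⟨_, rfl⟩
  have hx1 : (2 * C + 1) / w ≤ 1 := by
    rw [div_le_one hw0]
    exact hCw
  have hF0e : F0 ≤ Real.exp ((2 * C + 1) / w) := by
    have g1 : 1 + C / w ≤ Real.exp (C / w) := by
      have := Real.add_one_le_exp (C / w)
      linarith
    have g2 : Real.exp (C * K / y) ^ (Fintype.card Q) ≤ Real.exp (1 / w) := by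
      rw [← Real.exp_nat_mul]
      apply Real.exp_le_exp.2
      rw [mul_div_assoc', div_le_div_iff₀ hy0 hw0]
      linarith
    calc F0 ≤ Real.exp (C / w) ^ 2 * Real.exp (1 / w) := by
          rw [hF0]
          apply mul_le_mul (pow_le_pow_left₀ (by positivity) g1 2) g2 (by positivity) (by positivity)
      _ = Real.exp ((2 * C + 1) / w) := by
          rw [← Real.exp_nat_mul, ← Real.exp_add]
          congr 1
          push_cast
          field_simp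
  have hF1 : F0 ≤ 1 + 2 * ((2 * C + 1) / w) := hF0e.trans (exp_le_two (by positivity) hx1)
  have hF3 : F0 ≤ 3 := by linarith
  have hF00 : 0 ≤ F0 := by rw [hF0]; positivity
  have g1 := GU_le Δ hC (K := K) (z := z) hw hy hd hd' hΔ
  have g2 := prod_sub_one_le (univ : Finset Q) (fun q => AA w y C (Δ q)) (fun q _ => one_le_AA w y hC _)
  have g3 : ∑ q : Q, (AA w y C (Δ q) ^ (univ : Finset Q).card - 1) ≤ EX Δ ((1 + C) ^ (Fintype.card Q)) w y := by
    unfold EX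
    apply sum_le_sum
    intro q _
    rw [card_univ]
    have := AA_pow w y hC (Δ q) (Fintype.card Q)
    linarith
  have hE0 := EX_nonneg Δ (C := (1 + C) ^ (Fintype.card Q)) (by positivity) w y
  obtain ⟨Sg, hSg⟩ : ∃ t, t = EX Δ ((1 + C) ^ (Fintype.card Q)) w y := ⟨_, rfl⟩
  rw [← hSg] at g3 hE0 ⊢
  have g4 : GU Δ C w z d d' ≤ F0 * (1 + Sg) := by
    refine g1.trans ?_
    rw [hF0]
    calc _ = (1 + C / w) ^ 2 * Real.exp (C * K / y) ^ (Fintype.card Q) *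
          ∏ q : Q, AA w y C (Δ q) := by ring
      _ ≤ _ := by
          apply mul_le_mul_of_nonneg_left _ (by positivity)
          linarith
  nlinarith

end gen

/-- the index set of the determinants and differences -/
abbrev QQ (f : ℕ) : Type := (Fin f × Fin f) ⊕ ((Fin f × Fin f) ⊕ (Fin f × Fin f))

lemma card_QQ (f : ℕ) : Fintype.card (QQ f) = 3 * f ^ 2 := by
  unfold QQ
  rw [Fintype.card_sum, Fintype.card_sum, Fintype.card_prod, Fintype.card_fin]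
  ring

/-- the difference of two entries, `1` on the diagonal -/
def df {f : ℕ} (u : Fin f → ℤ) (q : Fin f × Fin f) : ℤ := if q.1 = q.2 then 1 else u q.1 - u q.2

/-- the constant -/
noncomputable def C2 (f : ℕ) : ℝ := (1 + 4 * (f : ℝ)) ^ (3 * f ^ 2)

lemma C2_pos (f : ℕ) : 0 < C2 f := by unfold C2; positivity

lemma one_le_C2 (f : ℕ) : 1 ≤ C2 f := by
  unfold C2
  apply one_le_pow₀
  have : (0 : ℝ) ≤ 4 * f := by positivity
  linarith

section dec
variable {f : ℕ} (u u' : Fin f → ℤ) (d d' : ℕ)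

/-- the determinants and differences -/
def Dq : QQ f → ℤ := Sum.elim (fun q => Dt u u' d d' q.1 q.2) (Sum.elim (df u) (df u'))

lemma UU_le_GU (w z : ℕ) : UU u u' d d' w z ≤ GU (Dq u u' d d') (4 * f) w z d d' := by
  classical
  unfold UU GU
  apply prod_mono_one' _ (fun l => one_le_fac (by positivity) l)
  intro l hl
  rw [mem_filter] at hl ⊢
  refine ⟨hl.1, ?_⟩
  rcases hl.2 with hb | hb | ⟨i, j, hb⟩ | ⟨i, j, hij, hb⟩ | ⟨i, j, hij, hb⟩
  · exact Or.inl hb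
  · exact Or.inr (Or.inl hb)
  · exact Or.inr (Or.inr ⟨Sum.inl (i, j), hb⟩)
  · refine Or.inr (Or.inr ⟨Sum.inr (Sum.inl (i, j)), ?_⟩)
    simp only [Dq, Sum.elim_inr, Sum.elim_inl, df, if_neg hij]
    exact hb
  · refine Or.inr (Or.inr ⟨Sum.inr (Sum.inr (i, j)), ?_⟩)
    simp only [Dq, Sum.elim_inr, df, if_neg hij]
    exact hb

lemma UU_sub {w z y K : ℕ} (hw : 1 ≤ w) (hy : 1 ≤ y) (hfw : 8 * f + 1 ≤ w)
    (hKy : 4 * f * K * (3 * f ^ 2) * w ≤ y) (hd : d = 1 ∨ d.Prime) (hd' : d' = 1 ∨ d'.Prime)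
    (hΔ : ∀ q, Dq u u' d d' q ≠ 0 ∧ (Dq u u' d d' q).natAbs ≤ 2 ^ K) :
    UU u u' d d' w z - 1 ≤ 2 * ((8 * f + 1) / w) + 3 * EX (Dq u u' d d') (C2 f) w y := by
  have h1 := UU_le_GU u u' d d' w z
  have h2 := GU_sub (Dq u u' d d') (C := 4 * (f : ℝ)) (z := z) (by positivity) hw hy (by
    have : ((8 * f + 1 : ℕ) : ℝ) ≤ w := by exact_mod_cast hfw
    push_cast at this
    linarith) (by
    rw [card_QQ]
    have : ((4 * f * K * (3 * f ^ 2) * w : ℕ) : ℝ) ≤ y := by exact_mod_cast hKy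
    push_cast at this ⊢
    linarith) hd hd' hΔ
  rw [card_QQ] at h2
  have e : 2 * (4 * (f : ℝ)) + 1 = 8 * f + 1 := by ring
  rw [e] at h2
  unfold C2
  linarith

end dec

/-- the average of the excess over the values of a linear form -/
lemma avg_form {w H : ℕ} (hw : 1 ≤ w) {C : ℝ} (hC : 0 ≤ C) (hCw : C ≤ w) (S : Finset ℕ) (hS : ∀ l ∈ S, l.Prime ∧ w < l)
    (α β : ℤ) (hα : ∀ l ∈ S, ¬ (l : ℤ) ∣ α) :
    ∑ a ∈ Icc 1 H, (∏ l ∈ S.filter (fun l : ℕ => (l : ℤ) ∣ α * (a : ℤ) + β), (1 + C / (l : ℝ)) - 1) ≤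
      H * (2 * C / w) + ∏ l ∈ S, (1 + C / (l : ℝ)) := by
  classical
  have hw0 : (0 : ℝ) < w := by exact_mod_cast hw
  have h1 := ss1 S (fun l hl => (hS l hl).1) α β hα C hC H
  have h3 : ∏ l ∈ S, (1 + C / (l : ℝ) ^ 2) ≤ 1 + 2 * C / w := by
    have e1 : ∏ l ∈ S, (1 + C / (l : ℝ) ^ 2) = ∏ l ∈ S, (1 + C * (1 / (l : ℝ) ^ 2)) := by
      apply prod_congr rfl
      intro l _
      ring
    rw [e1]
    refine (prod_exp _ _ hC _ (fun _ _ => by positivity)).trans ?_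
    have h4 := sum_inv_sq (s := S) hw (fun l hl => (hS l hl).2)
    have h5 : C * ∑ l ∈ S, 1 / (l : ℝ) ^ 2 ≤ C / w := by
      have := mul_le_mul_of_nonneg_left h4 hC
      rw [mul_one_div] at this
      exact this
    have h6 : C / w ≤ 1 := by rw [div_le_one hw0]; exact hCw
    have h7 : 0 ≤ C / w := by positivity
    calc Real.exp (C * ∑ l ∈ S, 1 / (l : ℝ) ^ 2) ≤ Real.exp (C / w) := Real.exp_le_exp.2 h5
      _ ≤ 1 + 2 * (C / w) := exp_le_two h7 h6
      _ = _ := by ring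
  rw [sum_sub_distrib, sum_const, Nat.card_Icc, nsmul_eq_mul, mul_one, Nat.add_sub_cancel]
  have h10 : (H : ℝ) * ∏ l ∈ S, (1 + C / (l : ℝ) ^ 2) ≤ H * (1 + 2 * C / w) :=
    mul_le_mul_of_nonneg_left h3 (Nat.cast_nonneg _)
  linarith

/-- the average of the excess over the differences from a fixed integer -/
lemma avg_diff {w y H : ℕ} (hw : 1 ≤ w) {C : ℝ} (hC : 0 ≤ C) (hCw : C ≤ w) (β : ℤ) :
    ∑ a ∈ Icc 1 H, (AA w y C ((a : ℤ) - β) - 1) ≤ H * (2 * C / w) + WW C y := by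
  classical
  have h := avg_form (H := H) hw hC hCw (mid w y) (fun l hl => ⟨(mem_mid.1 hl).2.2, (mem_mid.1 hl).1⟩) 1 (-β)
    (fun l hl h => by
      have := (mem_mid.1 hl).2.2
      have h2 : (l : ℤ) ∣ ((1 : ℕ) : ℤ) := by exact_mod_cast h
      exact this.one_lt.ne' (Nat.dvd_one.1 (Int.natCast_dvd_natCast.1 h2)))
  have e : ∀ a ∈ Icc 1 H, (AA w y C ((a : ℤ) - β) - 1) =
      (∏ l ∈ (mid w y).filter (fun l : ℕ => (l : ℤ) ∣ 1 * (a : ℤ) + -β), (1 + C / (l : ℝ)) - 1) := by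
    intro a _
    unfold AA
    have e2 : (1 : ℤ) * (a : ℤ) + -β = a - β := by ring
    rw [e2]
  rw [sum_congr rfl e]
  refine h.trans (add_le_add le_rfl ?_)
  unfold WW
  apply prod_mono_one' _ (fun l => one_le_fac hC l)
  intro l hl
  exact mem_pz.2 (mem_mid.1 hl).2

/-- the average of the excess over the determinants -/
lemma avg_det {w y H d d' : ℕ} (hw : 1 ≤ w) {C : ℝ} (hC : 0 ≤ C) (hCw : C ≤ w) (hd : d.Prime) (hd' : d'.Prime)
    (hdd : d ≠ d') (v v' : ℤ) (hv : ¬ (d : ℤ) ∣ v) :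
    ∑ a ∈ Icc 1 H, (AA w y C ((d : ℤ) * (v' - (a : ℤ)) - d' * v) - 1) ≤ H * (2 * C / w) + WW C y := by
  classical
  have h := avg_form (H := H) hw hC hCw ((mid w y).filter (fun l => ¬ l ∣ d)) (fun l hl => by
      rw [mem_filter, mem_mid] at hl
      exact ⟨hl.1.2.2, hl.1.1⟩) (-(d : ℤ)) (d * v' - d' * v)
    (fun l hl h => by
      rw [mem_filter] at hl
      exact hl.2 (Int.natCast_dvd_natCast.1 ((dvd_neg).1 h)))
  have e : ∀ a ∈ Icc 1 H, (AA w y C ((d : ℤ) * (v' - (a : ℤ)) - d' * v) - 1) =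
      (∏ l ∈ ((mid w y).filter (fun l => ¬ l ∣ d)).filter (fun l : ℕ => (l : ℤ) ∣ -(d : ℤ) * (a : ℤ) + (d * v' - d' * v)), (1 + C / (l : ℝ)) - 1) := by
    intro a _
    unfold AA
    have e2 : -(d : ℤ) * (a : ℤ) + (d * v' - d' * v) = (d : ℤ) * (v' - (a : ℤ)) - d' * v := by ring
    rw [e2]
    congr 1
    apply prod_congr _ (fun _ _ => rfl)
    ext l
    simp only [mem_filter]
    constructor
    · rintro ⟨h1, h2⟩
      refine ⟨⟨h1, fun h3 => ?_⟩, h2⟩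
      have hl := (mem_mid.1 h1).2.2
      have h4 : l = d := (Nat.prime_dvd_prime_iff_eq hl hd).1 h3
      rw [h4] at h2
      have h5 : (d : ℤ) ∣ d' * v := by
        have := (dvd_sub_right (Dvd.intro (v' - (a : ℤ)) rfl : (d : ℤ) ∣ (d : ℤ) * (v' - (a : ℤ)))).1 h2
        exact this
      rcases (Nat.prime_iff_prime_int.1 hd).dvd_or_dvd h5 with h6 | h6
      · exact hdd ((Nat.prime_dvd_prime_iff_eq hd hd').1 (Int.natCast_dvd_natCast.1 h6))
      · exact hv h6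
    · rintro ⟨⟨h1, _⟩, h2⟩
      exact ⟨h1, h2⟩
  rw [sum_congr rfl e]
  refine h.trans (add_le_add le_rfl ?_)
  unfold WW
  apply prod_mono_one' _ (fun l => one_le_fac hC l)
  intro l hl
  rw [mem_filter] at hl
  exact mem_pz.2 (mem_mid.1 hl.1).2

end Pool.Agent.H526.FC
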