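import Mathlib
import Pool.Agent.H526.FC.P3
import Pool.Graph.R_pool_sql_team_seeded_b677cdb8.E8helper16.SL.E5

set_option autoImplicit false

/-! One family; the tuples of distinct elements of a window. -/

namespace Pool.Agent.H526.FC
open Finset
open Pool.Agent.H373R2.T7
open Pool.Agent.E8helper16.SL (Rough nu nu_nonneg nu_le al act actL actR actB Bad mid mem_mid pz_split
  pz_disj Vz_split TT_eq TT fac_nonneg FL Vz_anti TT_up TT_nonneg nu_zero Vz_zero)

section single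
variable {f : ℕ} (u : Fin f → ℤ) (d : ℕ)

lemma T10s {w z : ℕ} (hf : 1 ≤ f) (hfw : 16 * f ^ 2 ≤ w) (h : Nz u d) :
    TT (mid w z) f (NL u 0 d 1) ≤ GU (df u) (4 * f) w z d 1 := by
  classical
  have hf2 : f ≤ f ^ 2 := Nat.le_self_pow (by norm_num) f
  have hw1 : 1 ≤ w := by nlinarith
  have hw0 : (0 : ℝ) < w := by exact_mod_cast hw1
  have h' : Nz (0 : Fin f → ℤ) 1 := nz_one _
  have h2 := TT_up (mid := mid w z) (k := f) (w := w) (N := NL u 0 d 1) hw1 (by nlinarith)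
    (fun l hl => (mem_mid.1 hl).1) (fun l _ => NL_leP u 0 d 1 l) (fun l : ℕ => l ∣ d ∨ l ∣ 1 ∨ ∃ q, (l : ℤ) ∣ df u q)
    (fun l hl hP => by
      push Not at hP
      refine NL_eq u 0 d 1 h h' (mem_mid.1 hl).2.2 (fun i j hij => ?_) hP.1
      have := hP.2.2 (i, j)
      simp only [df, if_neg hij] at this
      exact this)
  refine h2.trans ?_
  unfold GU
  have e : ∏ l ∈ (mid w z).filter (fun l : ℕ => l ∣ d ∨ l ∣ 1 ∨ ∃ q, (l : ℤ) ∣ df u q), (1 + 2 * (f : ℝ) / (l : ℝ)) ≤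
      ∏ l ∈ (mid w z).filter (fun l : ℕ => l ∣ d ∨ l ∣ 1 ∨ ∃ q, (l : ℤ) ∣ df u q), (1 + 4 * (f : ℝ) / (l : ℝ)) := by
    apply prod_le_prod
    · intro l _
      positivity
    · intro l _
      have : 2 * (f : ℝ) / l ≤ 4 * (f : ℝ) / l := by
        apply div_le_div_of_nonneg_right _ (Nat.cast_nonneg l)
        have : (0 : ℝ) ≤ f := Nat.cast_nonneg _
        linarith
      linarith
  refine le_trans (le_of_eq ?_) (e.trans (le_of_eq ?_))
  · congr!
  · congr!

/-- the sum of the weights along a form -/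
lemma single_le {b x w z : ℕ} (hf : 1 ≤ f) (hfw : 16 * f ^ 2 ≤ w) (hFL : FL f b x z)
    (hwz : w ≤ z) (h : Nz u d) (X : ℕ) :
    ∑ m ∈ Icc 1 X, nu u z (d * m) ≤ 2 * X * (((Vz w) ^ f)⁻¹ * GU (df u) (4 * f) w z d 1) +
      ((Vz z) ^ (2 * f))⁻¹ * √(x : ℝ) := by
  have h' : Nz (0 : Fin f → ℤ) 1 := nz_one _
  have e1 : ∑ m ∈ Icc 1 X, nu u z (d * m) = SS u 0 d 1 X z 0 := by
    unfold SS
    apply sum_congr rfl
    intro m _
    rw [nu_zero, mul_one]
  have key := SS_approx u 0 d 1 hFL h h' X z 0 le_rfl (Nat.zero_le _)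
  rw [← e1] at key
  have hV0 : (((Vz 0) ^ f)⁻¹ : ℝ) = 1 := by rw [Vz_zero]; simp
  rw [hV0, mul_one] at key
  have e2 : ((Vz z) ^ f)⁻¹ * PP u 0 d 1 z z 0 ≤ ((Vz w) ^ f)⁻¹ * GU (df u) (4 * f) w z d 1 := by
    unfold PP
    have e3 : ∏ l ∈ pz z, (1 - (nuB (Bad (act (f := f) z 0) (al d 1) (be2 u 0)) l : ℝ) / l) =
        (∏ l ∈ pz w, (1 - (NL u 0 d 1 l : ℝ) / l)) * ∏ l ∈ mid w z, (1 - (NL u 0 d 1 l : ℝ) / l) := by
      rw [pz_split w z hwz, prod_union (pz_disj w z)]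
      congr 1
      · apply prod_congr rfl
        intro l hl
        rw [mem_pz] at hl
        rw [act_left u 0 d 1 z 0 l (hl.1.trans hwz) hl.2.pos]
      · apply prod_congr rfl
        intro l hl
        rw [mem_mid] at hl
        rw [act_left u 0 d 1 z 0 l hl.2.1 hl.2.2.pos]
    rw [e3, Vz_split w z hwz, mul_pow, mul_inv]
    have e4 : ((Vz w) ^ f)⁻¹ * ((∏ l ∈ mid w z, (1 - 1 / (l : ℝ))) ^ f)⁻¹ *
        ((∏ l ∈ pz w, (1 - (NL u 0 d 1 l : ℝ) / l)) * ∏ l ∈ mid w z, (1 - (NL u 0 d 1 l : ℝ) / l)) =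
        ((Vz w) ^ f)⁻¹ * ((∏ l ∈ pz w, (1 - (NL u 0 d 1 l : ℝ) / l)) * TT (mid w z) f (NL u 0 d 1)) := by
      rw [← TT_eq]
      ring
    rw [e4]
    apply mul_le_mul_of_nonneg_left _ (inv_nonneg.2 (pow_nonneg (Vz_pos _).le _))
    have t2 := T10s u d (z := z) hf hfw h
    have t0 : 0 ≤ TT (mid w z) f (NL u 0 d 1) := TT_nonneg (fun l hl => (mem_mid.1 hl).2.2.two_le)
      (fun l _ => NL_leP u 0 d 1 l)
    have t1 : ∏ l ∈ pz w, (1 - (NL u 0 d 1 l : ℝ) / l) ≤ 1 := by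
      apply prod_le_one
      · intro l hl
        exact fac_nonneg _ (mem_pz.1 hl).2
      · intro l _
        have : (0 : ℝ) ≤ (NL u 0 d 1 l : ℝ) / l := by positivity
        linarith
    calc _ ≤ 1 * TT (mid w z) f (NL u 0 d 1) := mul_le_mul_of_nonneg_right t1 t0
      _ ≤ _ := by linarith
  obtain ⟨P, hP⟩ : ∃ P, P = ((Vz z) ^ f)⁻¹ * PP u 0 d 1 z z 0 := ⟨_, rfl⟩
  rw [← hP] at key e2
  have hP0 : 0 ≤ P := by
    rw [hP]
    exact mul_nonneg (inv_nonneg.2 (pow_nonneg (Vz_pos _).le _)) (PP_nonneg _ _ _ _ _ _ _)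
  have hX : (0 : ℝ) ≤ X := Nat.cast_nonneg _
  have hb1 : (1 / 2 : ℝ) ^ b ≤ 1 := pow_le_one₀ (by norm_num) (by norm_num)
  have k1 := (abs_le.1 key).2
  have k2 : (1 / 2 : ℝ) ^ b * (X * P) ≤ 1 * (X * P) := mul_le_mul_of_nonneg_right hb1 (by positivity)
  have k3 := mul_le_mul_of_nonneg_left e2 hX
  linarith

end single

open Classical in
/-- the tuples of distinct elements of `[1, H]` -/
noncomputable def Tf (f H : ℕ) : Finset (Fin f → ℕ) :=
  (Fintype.piFinset fun _ : Fin f => Icc 1 H).filter (fun s => Function.Injective s)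

lemma mem_Tf {f H : ℕ} {s : Fin f → ℕ} : s ∈ Tf f H ↔ (∀ k, 1 ≤ s k ∧ s k ≤ H) ∧ Function.Injective s := by
  classical
  unfold Tf
  rw [mem_filter, Fintype.mem_piFinset]
  simp only [mem_Icc]

lemma card_Tf (f H : ℕ) : ((Tf f H).card : ℝ) ≤ (H : ℝ) ^ f := by
  classical
  have h : (Tf f H).card ≤ H ^ f := by
    unfold Tf
    refine (card_filter_le _ _).trans ?_
    rw [Fintype.card_piFinset, prod_const, card_univ, Fintype.card_fin, Nat.card_Icc, Nat.add_sub_cancel]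
  exact_mod_cast h

/-- the sum over the tuples of a function of two entries -/
lemma two_coord {f H : ℕ} {i j : Fin f} (hij : i ≠ j) (g : ℕ → ℕ → ℝ) (hg : ∀ a b, 0 ≤ g a b) :
    (∑ s ∈ Tf f H, g (s i) (s j)) * (H : ℝ) ^ 2 ≤ (H : ℝ) ^ f * ∑ a ∈ Icc 1 H, ∑ b ∈ Icc 1 H, g a b := by
  classical
  have h1 : ∑ s ∈ Tf f H, g (s i) (s j) ≤ ∑ s ∈ Fintype.piFinset (fun _ : Fin f => Icc 1 H), g (s i) (s j) := by
    apply sum_le_sum_of_subset_of_nonneg
    · unfold Tf
      exact filter_subset _ _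
    · intro s _ _
      exact hg _ _
  have hmaps : ∀ s ∈ Fintype.piFinset (fun _ : Fin f => Icc 1 H), (s i, s j) ∈ Icc 1 H ×ˢ Icc 1 H := by
    intro s hs
    rw [Fintype.mem_piFinset] at hs
    exact mem_product.2 ⟨hs i, hs j⟩
  rw [← sum_fiberwise_of_maps_to hmaps] at h1
  have h2 : ∀ q ∈ Icc 1 H ×ˢ Icc 1 H, (∑ s ∈ (Fintype.piFinset (fun _ : Fin f => Icc 1 H)) with (s i, s j) = q, g (s i) (s j)) * (H : ℝ) ^ 2 ≤
      (H : ℝ) ^ f * g q.1 q.2 := by
    rintro ⟨a, b⟩ _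
    have h3 : ∑ s ∈ (Fintype.piFinset (fun _ : Fin f => Icc 1 H)) with (s i, s j) = (a, b), g (s i) (s j) =
        (((Fintype.piFinset (fun _ : Fin f => Icc 1 H)).filter (fun s => (s i, s j) = (a, b))).card : ℝ) * g a b := by
      rw [← nsmul_eq_mul, ← sum_const]
      apply sum_congr rfl
      intro s hs
      rw [mem_filter] at hs
      have := hs.2
      rw [Prod.mk.injEq] at this
      rw [this.1, this.2]
    rw [h3]
    have h4 : ((Fintype.piFinset (fun _ : Fin f => Icc 1 H)).filter (fun s => (s i, s j) = (a, b))).card * H ^ 2 ≤ H ^ f := by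
      have h5 : (Fintype.piFinset (fun _ : Fin f => Icc 1 H)).filter (fun s => (s i, s j) = (a, b)) ⊆
          Fintype.piFinset (fun k : Fin f => if k = i then {a} else if k = j then {b} else Icc 1 H) := by
        intro s hs
        rw [mem_filter, Fintype.mem_piFinset] at hs
        rw [Fintype.mem_piFinset]
        intro k
        have h6 := hs.2
        rw [Prod.mk.injEq] at h6
        by_cases q1 : k = i
        · rw [if_pos q1, mem_singleton, q1]; exact h6.1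
        · rw [if_neg q1]
          by_cases q2 : k = j
          · rw [if_pos q2, mem_singleton, q2]; exact h6.2
          · rw [if_neg q2]; exact hs.1 k
      have h6 := card_le_card h5
      rw [Fintype.card_piFinset] at h6
      have h7 : (∏ k : Fin f, ((if k = i then ({a} : Finset ℕ) else if k = j then {b} else Icc 1 H)).card) * H ^ 2 = H ^ f := by
        have e1 : H ^ 2 = (∏ k : Fin f, (if k = i then H else 1)) * ∏ k : Fin f, (if k = j then H else 1) := by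
          rw [prod_ite_eq' univ i (fun _ => H), prod_ite_eq' univ j (fun _ => H), if_pos (mem_univ _), if_pos (mem_univ _), pow_two]
        rw [e1, ← prod_mul_distrib, ← prod_mul_distrib]
        have e2 : H ^ f = ∏ _k : Fin f, H := by rw [prod_const, card_univ, Fintype.card_fin]
        rw [e2]
        apply prod_congr rfl
        intro k _
        by_cases q1 : k = i
        · have q2 : k ≠ j := fun h => hij (q1.symm.trans h)
          simp [q1, hij]
        · by_cases q2 : k = j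
          · simp [q2, Ne.symm hij]
          · simp [q1, q2]
      calc _ ≤ (∏ k : Fin f, ((if k = i then ({a} : Finset ℕ) else if k = j then {b} else Icc 1 H)).card) * H ^ 2 :=
            Nat.mul_le_mul_right _ h6
        _ = H ^ f := h7
    have h8 : ((((Fintype.piFinset (fun _ : Fin f => Icc 1 H)).filter (fun s => (s i, s j) = (a, b))).card : ℕ) : ℝ) * (H : ℝ) ^ 2 ≤ (H : ℝ) ^ f := by
      exact_mod_cast h4
    calc _ = ((((Fintype.piFinset (fun _ : Fin f => Icc 1 H)).filter (fun s => (s i, s j) = (a, b))).card : ℕ) : ℝ) * (H : ℝ) ^ 2 * g a b := by ring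
      _ ≤ _ := mul_le_mul_of_nonneg_right h8 (hg a b)
  calc (∑ s ∈ Tf f H, g (s i) (s j)) * (H : ℝ) ^ 2 ≤
        (∑ q ∈ Icc 1 H ×ˢ Icc 1 H, ∑ s ∈ (Fintype.piFinset (fun _ : Fin f => Icc 1 H)) with (s i, s j) = q, g (s i) (s j)) * (H : ℝ) ^ 2 :=
        mul_le_mul_of_nonneg_right h1 (by positivity)
    _ = ∑ q ∈ Icc 1 H ×ˢ Icc 1 H, (∑ s ∈ (Fintype.piFinset (fun _ : Fin f => Icc 1 H)) with (s i, s j) = q, g (s i) (s j)) * (H : ℝ) ^ 2 := by
        rw [sum_mul]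
    _ ≤ ∑ q ∈ Icc 1 H ×ˢ Icc 1 H, (H : ℝ) ^ f * g q.1 q.2 := sum_le_sum h2
    _ = _ := by rw [← mul_sum, sum_product]

/-- the tuple as a family of shifts -/
def cz {f : ℕ} (s : Fin f → ℕ) (h : ℤ) : Fin f → ℤ := fun k => (s k : ℤ) - h

lemma df_cz {f : ℕ} (s : Fin f → ℕ) (h : ℤ) (q : Fin f × Fin f) :
    df (cz s h) q = if q.1 = q.2 then 1 else (s q.1 : ℤ) - s q.2 := by
  unfold df cz
  split_ifs
  · rfl
  · ring

lemma AA_one (w y : ℕ) (C : ℝ) : AA w y C 1 = 1 := by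
  classical
  unfold AA
  apply prod_eq_one
  intro l hl
  rw [mem_filter, mem_mid] at hl
  exfalso
  have h2 : (l : ℤ) ∣ ((1 : ℕ) : ℤ) := by exact_mod_cast hl.2
  exact hl.1.2.2.one_lt.ne' (Nat.dvd_one.1 (Int.natCast_dvd_natCast.1 h2))

/-- the average over the tuples of the excess of a difference -/
lemma avg_intra {f w y H : ℕ} (hw : 1 ≤ w) (hH : 1 ≤ H) {C : ℝ} (hC : 0 ≤ C) (hCw : C ≤ w) (q : Fin f × Fin f) (h : (Fin f → ℕ) → ℤ) :
    ∑ s ∈ Tf f H, (AA w y C (df (cz s (h s)) q) - 1) ≤ (H : ℝ) ^ f * (2 * C / w + WW C y / H) := by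
  classical
  have hH0 : (0 : ℝ) < H := by exact_mod_cast hH
  have hW := one_le_WW y hC
  have hrhs : 0 ≤ (H : ℝ) ^ f * (2 * C / w + WW C y / H) := by positivity
  by_cases hq : q.1 = q.2
  · have : ∀ s ∈ Tf f H, (AA w y C (df (cz s (h s)) q) - 1) = 0 := by
      intro s _
      rw [df_cz, if_pos hq, AA_one]
      ring
    rw [sum_congr rfl this, sum_const_zero]
    exact hrhs
  · have e : ∀ s ∈ Tf f H, (AA w y C (df (cz s (h s)) q) - 1) = AA w y C (((s q.1 : ℕ) : ℤ) - (s q.2 : ℤ)) - 1 := by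
      intro s _
      rw [df_cz, if_neg hq]
    rw [sum_congr rfl e]
    have h1 := two_coord (H := H) hq (fun a b => AA w y C ((a : ℤ) - (b : ℤ)) - 1) (fun a b => by
      have := one_le_AA w y hC ((a : ℤ) - (b : ℤ))
      linarith)
    have h2 : ∑ a ∈ Icc 1 H, ∑ b ∈ Icc 1 H, (AA w y C ((a : ℤ) - (b : ℤ)) - 1) ≤ H * (H * (2 * C / w) + WW C y) := by
      rw [sum_comm]
      have h3 : ∀ b ∈ Icc 1 H, ∑ a ∈ Icc 1 H, (AA w y C ((a : ℤ) - (b : ℤ)) - 1) ≤ H * (2 * C / w) + WW C y :=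
        fun b _ => avg_diff (H := H) (y := y) hw hC hCw (b : ℤ)
      refine (sum_le_sum h3).trans (le_of_eq ?_)
      rw [sum_const, Nat.card_Icc, Nat.add_sub_cancel, nsmul_eq_mul]
    have h3 := h1.trans (mul_le_mul_of_nonneg_left h2 (by positivity : (0 : ℝ) ≤ (H : ℝ) ^ f))
    have h4 : (H : ℝ) ^ f * (H * (H * (2 * C / w) + WW C y)) = ((H : ℝ) ^ f * (2 * C / w + WW C y / H)) * (H : ℝ) ^ 2 := by
      field_simp
    rw [h4] at h3
    exact le_of_mul_le_mul_right h3 (by positivity)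

end Pool.Agent.H526.FC
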