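import Mathlib
import Pool.Agent.H526.FC.P4

set_option autoImplicit false

/-! The sum of the covariances over the pairs with different primes. -/

namespace Pool.Agent.H526.FC
open Finset
open Pool.Agent.H373R2.T7
open Pool.Agent.E8helper16.SL (FL)

open Classical in
/-- the admitted triples: a tuple, a prime and a shift -/
noncomputable def KK (f : ℕ) (P : Finset ℕ) (H : ℕ) : Finset ((Fin f → ℕ) × (ℕ × ℕ)) :=
  (Tf f H ×ˢ (P ×ˢ Icc 1 H)).filter (fun κ => ∀ k, ¬ (κ.2.1 : ℤ) ∣ (κ.1 k : ℤ) - κ.2.2)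

lemma mem_KK {f : ℕ} {P : Finset ℕ} {H : ℕ} {κ : (Fin f → ℕ) × (ℕ × ℕ)} : κ ∈ KK f P H ↔
    (κ.1 ∈ Tf f H ∧ κ.2.1 ∈ P ∧ κ.2.2 ∈ Icc 1 H) ∧ ∀ k, ¬ (κ.2.1 : ℤ) ∣ (κ.1 k : ℤ) - κ.2.2 := by
  classical
  unfold KK
  rw [mem_filter, mem_product, mem_product]

lemma sum_KK_le {f : ℕ} (P : Finset ℕ) (H : ℕ) (g : (Fin f → ℕ) × (ℕ × ℕ) → ℝ) (hg : ∀ κ, 0 ≤ g κ) :
    ∑ κ ∈ KK f P H, g κ ≤ ∑ s ∈ Tf f H, ∑ p ∈ P, ∑ h ∈ Icc 1 H, g (s, (p, h)) := by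
  classical
  have h1 : ∑ κ ∈ KK f P H, g κ ≤ ∑ κ ∈ Tf f H ×ˢ (P ×ˢ Icc 1 H), g κ := by
    apply sum_le_sum_of_subset_of_nonneg
    · unfold KK
      exact filter_subset _ _
    · intro κ _ _
      exact hg κ
  refine h1.trans (le_of_eq ?_)
  rw [sum_product]
  apply sum_congr rfl
  intro s _
  rw [sum_product]

/-- the size of the index set -/
noncomputable def TK (f : ℕ) (P : Finset ℕ) (H : ℕ) : ℝ := P.card * H * (H : ℝ) ^ f

lemma TK_nonneg (f : ℕ) (P : Finset ℕ) (H : ℕ) : 0 ≤ TK f P H := by unfold TK; positivity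

lemma card_KK (f : ℕ) (P : Finset ℕ) (H : ℕ) : ((KK f P H).card : ℝ) ≤ TK f P H := by
  classical
  have h := sum_KK_le (f := f) P H (fun _ => 1) (fun _ => zero_le_one)
  rw [sum_const, nsmul_eq_mul, mul_one] at h
  refine h.trans ?_
  simp only [sum_const, Nat.card_Icc, Nat.add_sub_cancel, nsmul_eq_mul, mul_one]
  have h2 := card_Tf f H
  unfold TK
  calc ((Tf f H).card : ℝ) * (P.card * H) ≤ (H : ℝ) ^ f * (P.card * H) := mul_le_mul_of_nonneg_right h2 (by positivity)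
    _ = _ := by ring

/-- the covariance of two admitted triples -/
noncomputable def CV {f : ℕ} (κ κ' : (Fin f → ℕ) × (ℕ × ℕ)) (M w z : ℕ) : ℝ :=
  Cov (cz κ.1 κ.2.2) (cz κ'.1 κ'.2.2) κ.2.1 κ'.2.1 M w z

/-- the determinants and differences of two admitted triples -/
noncomputable def DD {f : ℕ} (κ κ' : (Fin f → ℕ) × (ℕ × ℕ)) : QQ f → ℤ :=
  Dq (cz κ.1 κ.2.2) (cz κ'.1 κ'.2.2) κ.2.1 κ'.2.1

open Classical in
/-- the sum of one excess over all pairs -/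
lemma sum_q {f w y H : ℕ} (hw : 1 ≤ w) (hH : 1 ≤ H) {C : ℝ} (hC : 0 ≤ C) (hCw : C ≤ w) (P : Finset ℕ) (hP : ∀ p ∈ P, p.Prime)
    (q : QQ f) :
    ∑ κ ∈ KK f P H, ∑ κ' ∈ (KK f P H).filter (fun κ' => κ'.2.1 ≠ κ.2.1), (AA w y C (DD κ κ' q) - 1) ≤
      TK f P H ^ 2 * (2 * C / w + WW C y / H) := by
  have hH0 : (0 : ℝ) < H := by exact_mod_cast hH
  have hW := one_le_WW y hC
  have hA := fun Δ => one_le_AA w y hC Δ
  have hT := TK_nonneg f P H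
  obtain ⟨B, hB⟩ : ∃ B, B = 2 * C / w + WW C y / H := ⟨_, rfl⟩
  have hB0 : 0 ≤ B := by rw [hB]; positivity
  rw [← hB]
  have hcard := card_KK f P H
  -- reduction to a bound for each row
  have row : (∀ κ ∈ KK f P H, ∑ κ' ∈ (KK f P H).filter (fun κ' => κ'.2.1 ≠ κ.2.1), (AA w y C (DD κ κ' q) - 1) ≤ TK f P H * B) →
      ∑ κ ∈ KK f P H, ∑ κ' ∈ (KK f P H).filter (fun κ' => κ'.2.1 ≠ κ.2.1), (AA w y C (DD κ κ' q) - 1) ≤ TK f P H ^ 2 * B := by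
    intro h
    refine (sum_le_sum h).trans ?_
    rw [sum_const, nsmul_eq_mul]
    calc _ ≤ TK f P H * (TK f P H * B) := mul_le_mul_of_nonneg_right hcard (by positivity)
      _ = _ := by ring
  rcases q with q | q | q
  · -- a determinant
    apply row
    intro κ hκ
    rw [mem_KK] at hκ
    have h1 : ∑ κ' ∈ (KK f P H).filter (fun κ' => κ'.2.1 ≠ κ.2.1), (AA w y C (DD κ κ' (Sum.inl q)) - 1) ≤
        ∑ κ' ∈ KK f P H, (if κ'.2.1 ≠ κ.2.1 then AA w y C (DD κ κ' (Sum.inl q)) - 1 else 0) := by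
      rw [sum_filter]
    refine h1.trans ((sum_KK_le P H _ (fun κ' => ?_)).trans ?_)
    · split_ifs
      · have := hA (DD κ κ' (Sum.inl q))
        linarith
      · exact le_rfl
    · have h2 : ∀ s' ∈ Tf f H, ∀ p' ∈ P, ∑ h' ∈ Icc 1 H, (if ((s', (p', h')) : (Fin f → ℕ) × (ℕ × ℕ)).2.1 ≠ κ.2.1 then
          AA w y C (DD κ (s', (p', h')) (Sum.inl q)) - 1 else 0) ≤ H * B := by
        intro s' _ p' hp'
        by_cases hpp : p' = κ.2.1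
        · simp only [hpp, ne_eq, not_true_eq_false, if_false, sum_const_zero]
          positivity
        · simp only [ne_eq, hpp, not_false_eq_true, if_true]
          have h3 := avg_det (w := w) (y := y) (H := H) hw hC hCw (hP _ hκ.1.2.1) (hP _ hp') (Ne.symm hpp)
            ((κ.1 q.1 : ℤ) - κ.2.2) (s' q.2 : ℤ) (hκ.2 q.1)
          have e : (H : ℝ) * B = H * (2 * C / w) + WW C y := by
            rw [hB]
            field_simp
          rw [e]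
          refine le_trans (le_of_eq ?_) h3
          apply sum_congr rfl
          intro h' _
          rfl
      refine (sum_le_sum fun s' hs' => sum_le_sum fun p' hp' => h2 s' hs' p' hp').trans ?_
      simp only [sum_const, nsmul_eq_mul]
      have h3 := card_Tf f H
      unfold TK
      calc ((Tf f H).card : ℝ) * (P.card * (H * B)) ≤ (H : ℝ) ^ f * (P.card * (H * B)) :=
            mul_le_mul_of_nonneg_right h3 (by positivity)
        _ = _ := by ring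
  · -- a difference of the first tuple
    have h1 : ∀ κ ∈ KK f P H, ∑ κ' ∈ (KK f P H).filter (fun κ' => κ'.2.1 ≠ κ.2.1), (AA w y C (DD κ κ' (Sum.inr (Sum.inl q))) - 1) ≤
        TK f P H * (AA w y C (df (cz κ.1 κ.2.2) q) - 1) := by
      intro κ _
      have e : ∀ κ' ∈ (KK f P H).filter (fun κ' => κ'.2.1 ≠ κ.2.1), (AA w y C (DD κ κ' (Sum.inr (Sum.inl q))) - 1) =
          AA w y C (df (cz κ.1 κ.2.2) q) - 1 := fun κ' _ => rfl
      rw [sum_congr rfl e, sum_const, nsmul_eq_mul]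
      apply mul_le_mul_of_nonneg_right
      · refine le_trans ?_ hcard
        exact_mod_cast card_le_card (filter_subset _ _)
      · have := hA (df (cz κ.1 κ.2.2) q)
        linarith
    refine (sum_le_sum h1).trans ?_
    rw [← mul_sum, pow_two, mul_assoc]
    apply mul_le_mul_of_nonneg_left _ hT
    refine (sum_KK_le P H (fun κ => AA w y C (df (cz κ.1 κ.2.2) q) - 1) (fun κ => by
      have := hA (df (cz κ.1 κ.2.2) q)
      linarith)).trans ?_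
    rw [sum_comm]
    have h2 : ∀ p ∈ P, ∑ s ∈ Tf f H, ∑ h ∈ Icc 1 H, (AA w y C (df (cz s (h : ℤ)) q) - 1) ≤ H * ((H : ℝ) ^ f * B) := by
      intro p _
      rw [sum_comm]
      have h3 : ∀ h ∈ Icc 1 H, ∑ s ∈ Tf f H, (AA w y C (df (cz s (h : ℤ)) q) - 1) ≤ (H : ℝ) ^ f * B := by
        intro h _
        rw [hB]
        exact avg_intra hw hH hC hCw q (fun _ => (h : ℤ))
      refine (sum_le_sum h3).trans (le_of_eq ?_)
      rw [sum_const, Nat.card_Icc, Nat.add_sub_cancel, nsmul_eq_mul]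
    refine (sum_le_sum h2).trans (le_of_eq ?_)
    rw [sum_const, nsmul_eq_mul]
    unfold TK
    ring
  · -- a difference of the second tuple
    apply row
    intro κ _
    have h1 : ∑ κ' ∈ (KK f P H).filter (fun κ' => κ'.2.1 ≠ κ.2.1), (AA w y C (DD κ κ' (Sum.inr (Sum.inr q))) - 1) ≤
        ∑ κ' ∈ KK f P H, (AA w y C (df (cz κ'.1 κ'.2.2) q) - 1) := by
      have h2 : ∑ κ' ∈ (KK f P H).filter (fun κ' => κ'.2.1 ≠ κ.2.1), (AA w y C (DD κ κ' (Sum.inr (Sum.inr q))) - 1) =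
          ∑ κ' ∈ (KK f P H).filter (fun κ' => κ'.2.1 ≠ κ.2.1), (AA w y C (df (cz κ'.1 κ'.2.2) q) - 1) := by
        apply sum_congr rfl
        intro κ' _
        rfl
      rw [h2]
      apply sum_le_sum_of_subset_of_nonneg (filter_subset _ _)
      intro κ' _ _
      have := hA (df (cz κ'.1 κ'.2.2) q)
      linarith
    refine h1.trans ?_
    refine (sum_KK_le P H (fun κ => AA w y C (df (cz κ.1 κ.2.2) q) - 1) (fun κ => by
      have := hA (df (cz κ.1 κ.2.2) q)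
      linarith)).trans ?_
    rw [sum_comm]
    have h2 : ∀ p ∈ P, ∑ s ∈ Tf f H, ∑ h ∈ Icc 1 H, (AA w y C (df (cz s (h : ℤ)) q) - 1) ≤ H * ((H : ℝ) ^ f * B) := by
      intro p _
      rw [sum_comm]
      have h3 : ∀ h ∈ Icc 1 H, ∑ s ∈ Tf f H, (AA w y C (df (cz s (h : ℤ)) q) - 1) ≤ (H : ℝ) ^ f * B := by
        intro h _
        rw [hB]
        exact avg_intra hw hH hC hCw q (fun _ => (h : ℤ))
      refine (sum_le_sum h3).trans (le_of_eq ?_)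
      rw [sum_const, Nat.card_Icc, Nat.add_sub_cancel, nsmul_eq_mul]
    refine (sum_le_sum h2).trans (le_of_eq ?_)
    rw [sum_const, nsmul_eq_mul]
    unfold TK
    ring

lemma df_ne {f H : ℕ} {s : Fin f → ℕ} (hs : s ∈ Tf f H) (h : ℤ) (q : Fin f × Fin f) : df (cz s h) q ≠ 0 := by
  rw [df_cz]
  split_ifs with hq
  · exact one_ne_zero
  · intro h0
    apply hq
    apply (mem_Tf.1 hs).2
    have : (s q.1 : ℤ) = s q.2 := by linarith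
    exact_mod_cast this

lemma DD_ne {f H : ℕ} {P : Finset ℕ} (hP : ∀ p ∈ P, p.Prime) {κ κ' : (Fin f → ℕ) × (ℕ × ℕ)} (hκ : κ ∈ KK f P H)
    (hκ' : κ' ∈ KK f P H) (hne : κ'.2.1 ≠ κ.2.1) (q : QQ f) : DD κ κ' q ≠ 0 := by
  rw [mem_KK] at hκ hκ'
  rcases q with q | q | q
  · intro h0
    have hp := hP _ hκ.1.2.1
    have hp' := hP _ hκ'.1.2.1
    have e1 : (κ.2.1 : ℤ) * ((κ'.1 q.2 : ℤ) - κ'.2.2) = κ'.2.1 * ((κ.1 q.1 : ℤ) - κ.2.2) := by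
      have h1 : (κ.2.1 : ℤ) * ((κ'.1 q.2 : ℤ) - κ'.2.2) - κ'.2.1 * ((κ.1 q.1 : ℤ) - κ.2.2) = 0 := h0
      linarith
    have e2 : (κ.2.1 : ℤ) ∣ κ'.2.1 * ((κ.1 q.1 : ℤ) - κ.2.2) := ⟨_, e1.symm⟩
    rcases (Nat.prime_iff_prime_int.1 hp).dvd_or_dvd e2 with h | h
    · exact hne ((Nat.prime_dvd_prime_iff_eq hp hp').1 (Int.natCast_dvd_natCast.1 h)).symm
    · exact hκ.2 q.1 h
  · exact df_ne hκ.1.1 _ q
  · exact df_ne hκ'.1.1 _ q

open Classical in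
/-- the sum of the covariances over the pairs with different primes -/
theorem off {f b x w z y K H M : ℕ} (hf : 1 ≤ f) (hfw : 16 * f ^ 2 ≤ w) (hfw' : 8 * f + 1 ≤ w)
    (hFL : FL f b x z) (hwz : w ≤ z) (hy : 1 ≤ y) (hCw : C2 f ≤ w) (hKy : 4 * f * K * (3 * f ^ 2) * w ≤ y) (hH : 1 ≤ H)
    (P : Finset ℕ) (hP : ∀ p ∈ P, p.Prime)
    (hsize : ∀ κ ∈ KK f P H, ∀ κ' ∈ KK f P H, ∀ q, (DD κ κ' q).natAbs ≤ 2 ^ K) :
    ∑ κ ∈ KK f P H, ∑ κ' ∈ (KK f P H).filter (fun κ' => κ'.2.1 ≠ κ.2.1), |CV κ κ' M w z| ≤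
      TK f P H ^ 2 * (M * ((Vz w) ^ (2 * f))⁻¹ * (12 * ((8 * f + 1) / w) + 54 * (f : ℝ) ^ 2 * (2 * C2 f / w + WW (C2 f) y / H) +
        12 * (f : ℝ) ^ 2 / w + 4 * (1 / 2 : ℝ) ^ b) + 4 * (((Vz z) ^ (2 * f))⁻¹ * √(x : ℝ))) := by
  have hw1 : 1 ≤ w := by omega
  have hw0 : (0 : ℝ) < w := by exact_mod_cast hw1
  have hH0 : (0 : ℝ) < H := by exact_mod_cast hH
  have hX : (0 : ℝ) ≤ M := Nat.cast_nonneg _
  have hV : 0 ≤ ((Vz w) ^ (2 * f))⁻¹ := inv_nonneg.2 (pow_nonneg (Vz_pos _).le _)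
  have hV' : 0 ≤ ((Vz z) ^ (2 * f))⁻¹ := inv_nonneg.2 (pow_nonneg (Vz_pos _).le _)
  have hT := TK_nonneg f P H
  have hcard := card_KK f P H
  obtain ⟨V, hVd⟩ : ∃ V, V = ((Vz w) ^ (2 * f))⁻¹ := ⟨_, rfl⟩
  obtain ⟨R, hR⟩ : ∃ R, R = 4 * (((Vz z) ^ (2 * f))⁻¹ * √(x : ℝ)) := ⟨_, rfl⟩
  have hR0 : 0 ≤ R := by rw [hR]; positivity
  rw [← hVd, ← hR]
  rw [← hVd] at hV
  obtain ⟨a0, ha0⟩ : ∃ a0, a0 = M * V * (12 * ((8 * f + 1) / w) + 12 * (f : ℝ) ^ 2 / w + 4 * (1 / 2 : ℝ) ^ b) + R := ⟨_, rfl⟩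
  have ha00 : 0 ≤ a0 := by rw [ha0]; positivity
  have hpair : ∀ κ ∈ KK f P H, ∀ κ' ∈ (KK f P H).filter (fun κ' => κ'.2.1 ≠ κ.2.1), |CV κ κ' M w z| ≤
      a0 + M * V * 18 * ∑ q : QQ f, (AA w y (C2 f) (DD κ κ' q) - 1) := by
    intro κ hκ κ' hκ'
    rw [mem_filter] at hκ'
    have q1 := mem_KK.1 hκ
    have q2 := mem_KK.1 hκ'.1
    have hp := hP _ q1.1.2.1
    have hp' := hP _ q2.1.2.1
    have h1 := cov_final (cz κ.1 κ.2.2) (cz κ'.1 κ'.2.2) κ.2.1 κ'.2.1 hf hfw hFL hwz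
      (nz_prime _ hp q1.2) (nz_prime _ hp' q2.2) M
    have h2 := UU_sub (cz κ.1 κ.2.2) (cz κ'.1 κ'.2.2) κ.2.1 κ'.2.1 (z := z) hw1 hy hfw' hKy (Or.inr hp) (Or.inr hp')
      (fun q => ⟨DD_ne hP hκ hκ'.1 hκ'.2 q, hsize κ hκ κ' hκ'.1 q⟩)
    unfold CV
    rw [← hVd, ← hR] at h1
    refine h1.trans ?_
    rw [ha0]
    have h3 : (M : ℝ) * V * (6 * (UU (cz κ.1 κ.2.2) (cz κ'.1 κ'.2.2) κ.2.1 κ'.2.1 w z - 1) + 12 * (f : ℝ) ^ 2 / w + 4 * (1 / 2 : ℝ) ^ b) ≤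
        M * V * (6 * (2 * ((8 * f + 1) / w) + 3 * EX (Dq (cz κ.1 κ.2.2) (cz κ'.1 κ'.2.2) κ.2.1 κ'.2.1) (C2 f) w y) +
          12 * (f : ℝ) ^ 2 / w + 4 * (1 / 2 : ℝ) ^ b) := by
      apply mul_le_mul_of_nonneg_left _ (by positivity)
      linarith
    have e : EX (Dq (cz κ.1 κ.2.2) (cz κ'.1 κ'.2.2) κ.2.1 κ'.2.1) (C2 f) w y = ∑ q : QQ f, (AA w y (C2 f) (DD κ κ' q) - 1) := rfl
    rw [e] at h3
    linarith
  have hEX : ∑ κ ∈ KK f P H, ∑ κ' ∈ (KK f P H).filter (fun κ' => κ'.2.1 ≠ κ.2.1), ∑ q : QQ f, (AA w y (C2 f) (DD κ κ' q) - 1) ≤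
      3 * (f : ℝ) ^ 2 * (TK f P H ^ 2 * (2 * C2 f / w + WW (C2 f) y / H)) := by
    have e : ∑ κ ∈ KK f P H, ∑ κ' ∈ (KK f P H).filter (fun κ' => κ'.2.1 ≠ κ.2.1), ∑ q : QQ f, (AA w y (C2 f) (DD κ κ' q) - 1) =
        ∑ q : QQ f, ∑ κ ∈ KK f P H, ∑ κ' ∈ (KK f P H).filter (fun κ' => κ'.2.1 ≠ κ.2.1), (AA w y (C2 f) (DD κ κ' q) - 1) := by
      have e1 : ∀ κ ∈ KK f P H, ∑ κ' ∈ (KK f P H).filter (fun κ' => κ'.2.1 ≠ κ.2.1), ∑ q : QQ f, (AA w y (C2 f) (DD κ κ' q) - 1) =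
          ∑ q : QQ f, ∑ κ' ∈ (KK f P H).filter (fun κ' => κ'.2.1 ≠ κ.2.1), (AA w y (C2 f) (DD κ κ' q) - 1) :=
        fun κ _ => sum_comm
      rw [sum_congr rfl e1, sum_comm]
    rw [e]
    refine (sum_le_sum fun q _ => sum_q (y := y) hw1 hH (C2_pos f).le hCw P hP q).trans (le_of_eq ?_)
    rw [sum_const, card_univ, card_QQ, nsmul_eq_mul]
    push_cast
    ring
  refine (sum_le_sum fun κ hκ => sum_le_sum fun κ' hκ' => hpair κ hκ κ' hκ').trans ?_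
  simp only [sum_add_distrib, ← mul_sum, sum_const, nsmul_eq_mul]
  have h4 : ∑ κ ∈ KK f P H, (((KK f P H).filter (fun κ' => κ'.2.1 ≠ κ.2.1)).card : ℝ) * a0 ≤ TK f P H ^ 2 * a0 := by
    have h5 : ∀ κ ∈ KK f P H, (((KK f P H).filter (fun κ' => κ'.2.1 ≠ κ.2.1)).card : ℝ) * a0 ≤ TK f P H * a0 := by
      intro κ _
      apply mul_le_mul_of_nonneg_right _ ha00
      refine le_trans ?_ hcard
      exact_mod_cast card_le_card (filter_subset _ _)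
    refine (sum_le_sum h5).trans ?_
    rw [sum_const, nsmul_eq_mul, pow_two, mul_assoc]
    exact mul_le_mul_of_nonneg_right hcard (by positivity)
  have h6 : (M : ℝ) * V * 18 * ∑ κ ∈ KK f P H, ∑ κ' ∈ (KK f P H).filter (fun κ' => κ'.2.1 ≠ κ.2.1), ∑ q : QQ f, (AA w y (C2 f) (DD κ κ' q) - 1) ≤
      M * V * 18 * (3 * (f : ℝ) ^ 2 * (TK f P H ^ 2 * (2 * C2 f / w + WW (C2 f) y / H))) :=
    mul_le_mul_of_nonneg_left hEX (by positivity)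
  have e : TK f P H ^ 2 * (M * V * (12 * ((8 * f + 1) / w) + 54 * (f : ℝ) ^ 2 * (2 * C2 f / w + WW (C2 f) y / H) +
        12 * (f : ℝ) ^ 2 / w + 4 * (1 / 2 : ℝ) ^ b) + R) = TK f P H ^ 2 * a0 +
        M * V * 18 * (3 * (f : ℝ) ^ 2 * (TK f P H ^ 2 * (2 * C2 f / w + WW (C2 f) y / H))) := by
    rw [ha0]
    ring
  rw [e]
  exact add_le_add h4 h6

end Pool.Agent.H526.FC
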