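import Mathlib
import Pool.Agent.H526.FC.P5
import Pool.Graph.R_pool_sql_team_seeded_b677cdb8.E8helper16.SL.F3

set_option autoImplicit false

/-! The sum of the covariances over the pairs with the same prime: moments of the number of the rough integers. -/

namespace Pool.Agent.H526.FC
open Finset
open Pool.Agent.H373R2.T7
open Pool.Agent.E8helper16.SL (Rough nu nu_nonneg nu_le FL)

/-- `n` has no prime factor at most `z` -/
def Rg (z : ℕ) (n : ℤ) : Prop := ∀ l ∈ pz z, ¬ (l : ℤ) ∣ n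

lemma rough_Rg {f : ℕ} (u : Fin f → ℤ) (z : ℕ) (n : ℤ) : Rough u z n ↔ ∀ i, Rg z (n + u i) := by
  unfold Rough Rg
  exact ⟨fun h i l hl => h l hl i, fun h l hl i => h i l hl⟩

open Classical in
/-- the positions of the rough integers -/
noncomputable def XX (z H : ℕ) (n : ℤ) : Finset ℤ := (Icc (-(H : ℤ)) H).filter (fun v => Rg z (n + v))

open Classical in
/-- the tuples of distinct elements -/
noncomputable def IT (k : ℕ) (S : Finset ℤ) : Finset (Fin k → ℤ) :=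
  (Fintype.piFinset fun _ : Fin k => S).filter (fun v => Function.Injective v)

lemma mem_IT {k : ℕ} {S : Finset ℤ} {v : Fin k → ℤ} : v ∈ IT k S ↔ (∀ i, v i ∈ S) ∧ Function.Injective v := by
  classical
  unfold IT
  rw [mem_filter, Fintype.mem_piFinset]

lemma desc_le_IT (k : ℕ) (S : Finset ℤ) : S.card.descFactorial k ≤ (IT k S).card := by
  classical
  have h1 : Fintype.card (Fin k ↪ S) = S.card.descFactorial k := by
    rw [Fintype.card_embedding_eq, Fintype.card_fin, Fintype.card_coe]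
  rw [← h1, ← card_univ]
  apply card_le_card_of_injOn (fun e : Fin k ↪ S => fun i => ((e i : S) : ℤ))
  · intro e _
    rw [mem_coe, mem_IT]
    refine ⟨fun i => (e i).2, fun i j h => ?_⟩
    exact e.injective (Subtype.ext h)
  · intro e _ e' _ h
    ext i
    exact congrFun h i

lemma pow_le_IT {k : ℕ} (hk : 1 ≤ k) (S : Finset ℤ) : (S.card : ℝ) ^ k ≤ (k : ℝ) ^ k * (1 + (IT k S).card) := by
  have h : S.card ^ k ≤ k ^ k * (1 + (IT k S).card) := by
    rcases Nat.lt_or_ge S.card k with h | h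
    · calc S.card ^ k ≤ k ^ k := Nat.pow_le_pow_left h.le k
        _ = k ^ k * 1 := by ring
        _ ≤ _ := Nat.mul_le_mul_left _ (by omega)
    · have h1 : S.card ≤ k * (S.card + 1 - k) := by
        obtain ⟨t, ht⟩ := Nat.exists_eq_add_of_le h
        have h2 : S.card + 1 - k = t + 1 := by omega
        rw [h2, ht]
        nlinarith
      calc S.card ^ k ≤ (k * (S.card + 1 - k)) ^ k := Nat.pow_le_pow_left h1 k
        _ = k ^ k * (S.card + 1 - k) ^ k := by rw [mul_pow]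
        _ ≤ k ^ k * S.card.descFactorial k := Nat.mul_le_mul_left _ (Nat.pow_sub_le_descFactorial _ _)
        _ ≤ k ^ k * (IT k S).card := Nat.mul_le_mul_left _ (desc_le_IT k S)
        _ ≤ _ := Nat.mul_le_mul_left _ (by omega)
  exact_mod_cast h

lemma nu_tuple (z H k : ℕ) (n : ℤ) : ((Vz z) ^ k)⁻¹ * ((IT k (XX z H n)).card : ℝ) = ∑ v ∈ IT k (Icc (-(H : ℤ)) H), nu v z n := by
  classical
  have h1 : IT k (XX z H n) = (IT k (Icc (-(H : ℤ)) H)).filter (fun v => Rough v z n) := by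
    ext v
    rw [mem_filter, mem_IT, mem_IT, rough_Rg]
    unfold XX
    simp only [mem_filter]
    constructor
    · rintro ⟨h1, h2⟩
      exact ⟨⟨fun i => (h1 i).1, h2⟩, fun i => (h1 i).2⟩
    · rintro ⟨⟨h1, h2⟩, h3⟩
      exact ⟨fun i => ⟨h1 i, h3 i⟩, h2⟩
  rw [h1, card_filter, Nat.cast_sum, mul_sum]
  apply sum_congr rfl
  intro v _
  unfold nu
  split_ifs <;> simp

lemma nu_zero_of_dvd {f z p : ℕ} (hp : p ∈ pz z) {u : Fin f → ℤ} {k : Fin f} (hk : (p : ℤ) ∣ u k) (m : ℤ) : nu u z (p * m) = 0 := by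
  unfold nu
  rw [if_neg]
  intro hr
  apply hr p hp k
  exact dvd_add (Dvd.intro _ rfl) hk

/-- the constant -/
noncomputable def C5 (f : ℕ) : ℝ := (1 + 8 * (f : ℝ)) ^ (4 * f ^ 2)

lemma C5_pos (f : ℕ) : 0 < C5 f := by unfold C5; positivity

lemma one_tuple {f b x w z y K H M p : ℕ} (hf : 1 ≤ f) (hfw : 64 * f ^ 2 ≤ w) (hfw' : 16 * f + 1 ≤ w)
    (hFL : FL (2 * f) b x z) (hwz : w ≤ z) (hy : 1 ≤ y) (hKy : 8 * f * K * (4 * f ^ 2) * w ≤ y)
    (hp : p ∈ pz z) (hHK : 2 * H ≤ 2 ^ K) (v : Fin (2 * f) → ℤ) (hv : v ∈ IT (2 * f) (Icc (-(H : ℤ)) H)) :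
    ∑ m ∈ Icc 1 M, nu v z (p * m) ≤ 2 * M * (((Vz w) ^ (2 * f))⁻¹ * (3 + 12 * (f : ℝ) ^ 2 * WW (C5 f) y)) +
      ((Vz z) ^ (4 * f))⁻¹ * √(x : ℝ) := by
  have hVw := (Vz_pos w).le
  have hVz := (Vz_pos z).le
  have hC5 := (C5_pos f).le
  have hW := one_le_WW y hC5
  have hpp := (mem_pz.1 hp).2
  by_cases hd : ∃ k, (p : ℤ) ∣ v k
  · obtain ⟨k, hk⟩ := hd
    have : ∀ m ∈ Icc 1 M, nu v z (p * m) = 0 := fun m _ => nu_zero_of_dvd hp hk m
    rw [sum_congr rfl this, sum_const_zero]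
    positivity
  · push Not at hd
    rw [mem_IT] at hv
    have h1 := single_le v p (f := 2 * f) (x := x) (b := b) (w := w) (z := z) (by omega) (by
      have : 16 * (2 * f) ^ 2 = 64 * f ^ 2 := by ring
      omega) hFL hwz (nz_prime v hpp hd) M
    have h2 := GU_sub (df v) (C := 4 * ((2 * f : ℕ) : ℝ)) (z := z) (w := w) (y := y) (K := K) (d := p) (d' := 1) (by positivity)
      (by omega) hy (by
        have : ((16 * f + 1 : ℕ) : ℝ) ≤ w := by exact_mod_cast hfw'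
        push_cast at this ⊢
        linarith) (by
        rw [Fintype.card_prod, Fintype.card_fin]
        have : ((8 * f * K * (4 * f ^ 2) * w : ℕ) : ℝ) ≤ y := by exact_mod_cast hKy
        push_cast at this ⊢
        refine le_trans (le_of_eq ?_) this
        ring) (Or.inr hpp) (Or.inl rfl) (by
        intro q
        unfold df
        split_ifs with hq
        · exact ⟨one_ne_zero, by simpa using Nat.one_le_two_pow⟩
        · refine ⟨fun h0 => hq (hv.2 (by linarith)), ?_⟩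
          have a1 := mem_Icc.1 (hv.1 q.1)
          have a2 := mem_Icc.1 (hv.1 q.2)
          refine le_trans ?_ hHK
          omega)
    have h3 := EX_le (df v) (C := (1 + 4 * ((2 * f : ℕ) : ℝ)) ^ (Fintype.card (Fin (2 * f) × Fin (2 * f)))) (by positivity) w y
    have e1 : (1 + 4 * ((2 * f : ℕ) : ℝ)) ^ (Fintype.card (Fin (2 * f) × Fin (2 * f))) = C5 f := by
      unfold C5
      rw [Fintype.card_prod, Fintype.card_fin]
      congr 1
      · push_cast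
        ring
      · ring
    rw [e1] at h2 h3
    have e2 : (Fintype.card (Fin (2 * f) × Fin (2 * f)) : ℝ) = 4 * (f : ℝ) ^ 2 := by
      rw [Fintype.card_prod, Fintype.card_fin]
      push_cast
      ring
    rw [e2] at h3
    have h4 : 2 * ((2 * (4 * ((2 * f : ℕ) : ℝ)) + 1) / w) ≤ 2 := by
      have hw0 : (0 : ℝ) < w := by exact_mod_cast (by omega : 0 < w)
      have : (2 * (4 * ((2 * f : ℕ) : ℝ)) + 1) / w ≤ 1 := by
        rw [div_le_one hw0]
        have : ((16 * f + 1 : ℕ) : ℝ) ≤ w := by exact_mod_cast hfw'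
        push_cast at this ⊢
        linarith
      linarith
    have h5 : GU (df v) (4 * ((2 * f : ℕ) : ℝ)) w z p 1 ≤ 3 + 12 * (f : ℝ) ^ 2 * WW (C5 f) y := by linarith
    have e3 : ((Vz z) ^ (2 * (2 * f)))⁻¹ = ((Vz z) ^ (4 * f))⁻¹ := by
      congr 2
      ring
    rw [e3] at h1
    refine h1.trans ?_
    apply add_le_add _ le_rfl
    apply mul_le_mul_of_nonneg_left _ (by positivity)
    exact mul_le_mul_of_nonneg_left h5 (by positivity)

/-- the moment of the number of the rough integers near the multiples of `p` -/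
lemma moment {f b x w z y K H M p : ℕ} (hf : 1 ≤ f) (hfw : 64 * f ^ 2 ≤ w) (hfw' : 16 * f + 1 ≤ w)
    (hFL : FL (2 * f) b x z) (hwz : w ≤ z) (hy : 1 ≤ y) (hKy : 8 * f * K * (4 * f ^ 2) * w ≤ y)
    (hp : p ∈ pz z) (hH : 1 ≤ H) (hHK : 2 * H ≤ 2 ^ K) :
    ∑ m ∈ Icc 1 M, ((Vz z)⁻¹ * ((XX z H (p * m)).card : ℝ)) ^ (2 * f) ≤
      ((2 * f : ℕ) : ℝ) ^ (2 * f) * (M * ((Vz z) ^ (2 * f))⁻¹ + (3 * (H : ℝ)) ^ (2 * f) *
        (2 * M * (((Vz w) ^ (2 * f))⁻¹ * (3 + 12 * (f : ℝ) ^ 2 * WW (C5 f) y)) + ((Vz z) ^ (4 * f))⁻¹ * √(x : ℝ))) := by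
  classical
  have hVz := (Vz_pos z).le
  have hVw := (Vz_pos w).le
  have h1 : ∀ m ∈ Icc 1 M, ((Vz z)⁻¹ * ((XX z H (p * m)).card : ℝ)) ^ (2 * f) ≤
      ((2 * f : ℕ) : ℝ) ^ (2 * f) * (((Vz z) ^ (2 * f))⁻¹ + ∑ v ∈ IT (2 * f) (Icc (-(H : ℤ)) H), nu v z (p * m)) := by
    intro m _
    rw [← nu_tuple, mul_pow, inv_pow]
    have h2 := pow_le_IT (k := 2 * f) (by omega) (XX z H (p * m))
    calc _ ≤ ((Vz z) ^ (2 * f))⁻¹ * (((2 * f : ℕ) : ℝ) ^ (2 * f) * (1 + (IT (2 * f) (XX z H (p * m))).card)) :=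
          mul_le_mul_of_nonneg_left h2 (by positivity)
      _ = _ := by ring
  refine (sum_le_sum h1).trans ?_
  rw [← mul_sum]
  apply mul_le_mul_of_nonneg_left _ (by positivity)
  rw [sum_add_distrib, sum_const, Nat.card_Icc, Nat.add_sub_cancel, nsmul_eq_mul, sum_comm]
  apply add_le_add le_rfl
  have h2 : ∀ v ∈ IT (2 * f) (Icc (-(H : ℤ)) H), ∑ m ∈ Icc 1 M, nu v z (p * m) ≤ _ :=
    fun v hv => one_tuple (M := M) hf hfw hfw' hFL hwz hy hKy hp hHK v hv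
  refine (sum_le_sum h2).trans ?_
  rw [sum_const, nsmul_eq_mul]
  have hC5 := (C5_pos f).le
  have hW := one_le_WW y hC5
  apply mul_le_mul_of_nonneg_right _ (by positivity)
  have h3 : (IT (2 * f) (Icc (-(H : ℤ)) H)).card ≤ (3 * H) ^ (2 * f) := by
    unfold IT
    refine (card_filter_le _ _).trans ?_
    rw [Fintype.card_piFinset, prod_const, card_univ, Fintype.card_fin]
    apply Nat.pow_le_pow_left
    rw [Int.card_Icc]
    omega
  exact_mod_cast h3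

open Classical in
/-- the admitted pairs with the prime `p` -/
noncomputable def KP (f p H : ℕ) : Finset ((Fin f → ℕ) × ℕ) :=
  (Tf f H ×ˢ Icc 1 H).filter (fun τ => ∀ k, ¬ (p : ℤ) ∣ (τ.1 k : ℤ) - τ.2)

lemma card_KP (f p H : ℕ) : ((KP f p H).card : ℝ) ≤ H * (H : ℝ) ^ f := by
  classical
  have h1 : (KP f p H).card ≤ (Tf f H).card * H := by
    unfold KP
    refine (card_filter_le _ _).trans ?_
    rw [card_product, Nat.card_Icc, Nat.add_sub_cancel]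
  have h2 := card_Tf f H
  calc ((KP f p H).card : ℝ) ≤ ((Tf f H).card : ℝ) * H := by exact_mod_cast h1
    _ ≤ (H : ℝ) ^ f * H := mul_le_mul_of_nonneg_right h2 (Nat.cast_nonneg _)
    _ = _ := by ring

/-- the sum over the tuples in terms of the number of the rough integers -/
lemma sum_nu_KP (f p H z : ℕ) (n : ℤ) : ∑ τ ∈ KP f p H, nu (cz τ.1 τ.2) z n ≤ H * ((Vz z)⁻¹ * ((XX z H n).card : ℝ)) ^ f := by
  classical
  have hVz := (Vz_pos z).le
  have h1 : ∑ τ ∈ KP f p H, nu (cz τ.1 τ.2) z n ≤ ∑ h ∈ Icc 1 H, ∑ s ∈ Tf f H, nu (cz s (h : ℤ)) z n := by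
    rw [sum_comm, ← sum_product']
    apply sum_le_sum_of_subset_of_nonneg
    · unfold KP
      exact filter_subset _ _
    · intro τ _ _
      exact nu_nonneg _ _ _
  refine h1.trans ?_
  have h2 : ∀ h ∈ Icc 1 H, ∑ s ∈ Tf f H, nu (cz s (h : ℤ)) z n ≤ ((Vz z)⁻¹ * ((XX z H n).card : ℝ)) ^ f := by
    intro h hh
    rw [mem_Icc] at hh
    have e : ∑ s ∈ Tf f H, nu (cz s (h : ℤ)) z n = (((Tf f H).filter (fun s => Rough (cz s (h : ℤ)) z n)).card : ℝ) * ((Vz z) ^ f)⁻¹ := by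
      rw [← nsmul_eq_mul, ← sum_const, sum_filter]
      apply sum_congr rfl
      intro s _
      unfold nu
      split_ifs <;> rfl
    rw [e, mul_pow, inv_pow, mul_comm]
    apply mul_le_mul_of_nonneg_left _ (by positivity)
    have h3 : ((Tf f H).filter (fun s => Rough (cz s (h : ℤ)) z n)).card ≤ (XX z H n).card ^ f := by
      have h4 : (Fintype.piFinset (fun _ : Fin f => XX z H n)).card = (XX z H n).card ^ f := by
        rw [Fintype.card_piFinset, prod_const, card_univ, Fintype.card_fin]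
      rw [← h4]
      apply card_le_card_of_injOn (fun s => cz s (h : ℤ))
      · intro s hs
        rw [mem_coe, mem_filter, mem_Tf] at hs
        rw [mem_coe, Fintype.mem_piFinset]
        intro k
        unfold XX
        rw [mem_filter, mem_Icc]
        have h5 := hs.1.1 k
        refine ⟨?_, (rough_Rg _ _ _).1 hs.2 k⟩
        have e5 : cz s (h : ℤ) k = (s k : ℤ) - h := rfl
        show -(H : ℤ) ≤ cz s (h : ℤ) k ∧ cz s (h : ℤ) k ≤ H
        rw [e5]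
        constructor <;> omega
      · intro s _ s' _ h5
        funext k
        have h6 : cz s (h : ℤ) k = cz s' (h : ℤ) k := congrFun h5 k
        have e5 : cz s (h : ℤ) k = (s k : ℤ) - h := rfl
        have e6 : cz s' (h : ℤ) k = (s' k : ℤ) - h := rfl
        rw [e5, e6] at h6
        omega
    exact_mod_cast h3
  refine (sum_le_sum h2).trans (le_of_eq ?_)
  rw [sum_const, Nat.card_Icc, Nat.add_sub_cancel, nsmul_eq_mul]

open Classical in
/-- the sum of the covariances over the pairs with the same prime -/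
theorem diag {f b x w z y K H M : ℕ} (hf : 1 ≤ f) (hfw : 64 * f ^ 2 ≤ w) (hfw' : 16 * f + 1 ≤ w)
    (hFL : FL (2 * f) b x z) (hwz : w ≤ z) (hy : 1 ≤ y) (hKy : 8 * f * K * (4 * f ^ 2) * w ≤ y)
    (P : Finset ℕ) (hP : ∀ p ∈ P, p ∈ pz z) (hH : 1 ≤ H) (hHK : 2 * H ≤ 2 ^ K) :
    ∑ κ ∈ KK f P H, ∑ κ' ∈ (KK f P H).filter (fun κ' => κ'.2.1 = κ.2.1), |CV κ κ' M w z| ≤
      P.card * (2 * (H : ℝ) ^ 2 * (((2 * f : ℕ) : ℝ) ^ (2 * f) * (M * ((Vz z) ^ (2 * f))⁻¹ + (3 * (H : ℝ)) ^ (2 * f) *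
        (2 * M * (((Vz w) ^ (2 * f))⁻¹ * (3 + 12 * (f : ℝ) ^ 2 * WW (C5 f) y)) + ((Vz z) ^ (4 * f))⁻¹ * √(x : ℝ)))) +
        2 * M * ((H * (H : ℝ) ^ f) ^ 2 * ((Vz w) ^ (2 * f))⁻¹)) := by
  have hVw := (Vz_pos w).le
  -- the sum as a sum over the primes
  have h1 : ∑ κ ∈ KK f P H, ∑ κ' ∈ (KK f P H).filter (fun κ' => κ'.2.1 = κ.2.1), |CV κ κ' M w z| =
      ∑ p ∈ P, ∑ τ ∈ KP f p H, ∑ τ' ∈ KP f p H, |Cov (cz τ.1 τ.2) (cz τ'.1 τ'.2) p p M w z| := by
    have a1 : ∀ g : (Fin f → ℕ) × (ℕ × ℕ) → ℝ, ∑ κ ∈ KK f P H, g κ = ∑ p ∈ P, ∑ τ ∈ KP f p H, g (τ.1, (p, τ.2)) := by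
      intro g
      rw [sum_sigma']
      apply sum_bij' (fun κ _ => (⟨κ.2.1, (κ.1, κ.2.2)⟩ : (_ : ℕ) × ((Fin f → ℕ) × ℕ))) (fun σ _ => (σ.2.1, (σ.1, σ.2.2)))
      · rintro ⟨s, p, h⟩ hκ
        rw [mem_KK] at hκ
        rw [mem_sigma]
        unfold KP
        rw [mem_filter, mem_product]
        exact ⟨hκ.1.2.1, ⟨hκ.1.1, hκ.1.2.2⟩, hκ.2⟩
      · rintro ⟨p, s, h⟩ hσ
        rw [mem_sigma] at hσ
        unfold KP at hσ
        rw [mem_filter, mem_product] at hσ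
        rw [mem_KK]
        exact ⟨⟨hσ.2.1.1, hσ.1, hσ.2.1.2⟩, hσ.2.2⟩
      · rintro ⟨s, p, h⟩ _
        rfl
      · rintro ⟨p, s, h⟩ _
        rfl
      · rintro ⟨s, p, h⟩ _
        rfl
    rw [a1]
    apply sum_congr rfl
    intro p hp
    apply sum_congr rfl
    intro τ _
    rw [sum_filter, a1 (fun κ' => if κ'.2.1 = p then |CV (τ.1, (p, τ.2)) κ' M w z| else 0)]
    rw [← sum_subset (s₁ := {p}) (by rw [singleton_subset_iff]; exact hp)]
    · rw [sum_singleton]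
      apply sum_congr rfl
      intro τ' _
      simp only [if_true]
      rfl
    · intro p' _ hp'
      rw [mem_singleton] at hp'
      apply sum_eq_zero
      intro τ' _
      simp only [if_neg hp']
  rw [h1, ← nsmul_eq_mul, ← sum_const]
  apply sum_le_sum
  intro p hp
  obtain ⟨V, hV⟩ : ∃ V, V = ((Vz w) ^ f)⁻¹ := ⟨_, rfl⟩
  have hV0 : 0 ≤ V := by rw [hV]; positivity
  have hV2 : ((Vz w) ^ (2 * f))⁻¹ = V ^ 2 := by rw [hV, mul_comm 2 f, pow_mul, inv_pow]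
  have h2 : ∀ τ ∈ KP f p H, ∀ τ' ∈ KP f p H, |Cov (cz τ.1 τ.2) (cz τ'.1 τ'.2) p p M w z| ≤
      ∑ m ∈ Icc 1 M, (nu (cz τ.1 τ.2) z (p * m) + V) * (nu (cz τ'.1 τ'.2) z (p * m) + V) := by
    intro τ _ τ' _
    unfold Cov
    refine (abs_sum_le_sum_abs _ _).trans (sum_le_sum fun m _ => ?_)
    rw [abs_mul]
    have q : ∀ u : Fin f → ℤ, |nu u z (p * m) - nu u w (p * m)| ≤ nu u z (p * m) + V := by
      intro u
      have q1 := nu_nonneg u z (p * m)
      have q2 := nu_nonneg u w (p * m)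
      have q3 := nu_le u w (p * m)
      rw [← hV] at q3
      rw [abs_le]
      constructor <;> linarith
    exact mul_le_mul (q _) (q _) (abs_nonneg _) (add_nonneg (nu_nonneg _ _ _) hV0)
  have h3 : ∑ τ ∈ KP f p H, ∑ τ' ∈ KP f p H, |Cov (cz τ.1 τ.2) (cz τ'.1 τ'.2) p p M w z| ≤
      ∑ m ∈ Icc 1 M, (∑ τ ∈ KP f p H, (nu (cz τ.1 τ.2) z (p * m) + V)) ^ 2 := by
    refine (sum_le_sum fun τ hτ => sum_le_sum fun τ' hτ' => h2 τ hτ τ' hτ').trans (le_of_eq ?_)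
    have a2 : ∀ m ∈ Icc 1 M, (∑ τ ∈ KP f p H, (nu (cz τ.1 τ.2) z ((p : ℤ) * (m : ℤ)) + V)) ^ 2 =
        ∑ τ ∈ KP f p H, ∑ τ' ∈ KP f p H, (nu (cz τ.1 τ.2) z (p * m) + V) * (nu (cz τ'.1 τ'.2) z (p * m) + V) := by
      intro m _
      rw [pow_two, sum_mul_sum]
    rw [sum_congr rfl a2]
    symm
    rw [sum_comm]
    apply sum_congr rfl
    intro τ _
    rw [sum_comm]
  refine h3.trans ?_
  have hcard := card_KP f p H
  have h4 : ∀ m ∈ Icc 1 M, (∑ τ ∈ KP f p H, (nu (cz τ.1 τ.2) z ((p : ℤ) * (m : ℤ)) + V)) ^ 2 ≤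
      2 * (H : ℝ) ^ 2 * ((Vz z)⁻¹ * ((XX z H (p * m)).card : ℝ)) ^ (2 * f) + 2 * ((H * (H : ℝ) ^ f) ^ 2 * V ^ 2) := by
    intro m _
    rw [sum_add_distrib, sum_const, nsmul_eq_mul]
    have h5 := sum_nu_KP f p H z (p * m)
    have h6 : 0 ≤ ∑ τ ∈ KP f p H, nu (cz τ.1 τ.2) z ((p : ℤ) * (m : ℤ)) := sum_nonneg fun τ _ => nu_nonneg _ _ _
    obtain ⟨S, hS⟩ : ∃ S, S = ∑ τ ∈ KP f p H, nu (cz τ.1 τ.2) z ((p : ℤ) * (m : ℤ)) := ⟨_, rfl⟩
    rw [← hS] at h5 h6 ⊢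
    obtain ⟨T, hT⟩ : ∃ T, T = (Vz z)⁻¹ * ((XX z H (p * m)).card : ℝ) := ⟨_, rfl⟩
    rw [← hT] at h5 ⊢
    have h7 : S ^ 2 ≤ (H * T ^ f) ^ 2 := pow_le_pow_left₀ h6 h5 2
    have h8 : (((KP f p H).card : ℝ) * V) ^ 2 ≤ ((H * (H : ℝ) ^ f) * V) ^ 2 :=
      pow_le_pow_left₀ (by positivity) (mul_le_mul_of_nonneg_right hcard hV0) 2
    have h9 : (H * T ^ f) ^ 2 = (H : ℝ) ^ 2 * T ^ (2 * f) := by rw [mul_pow, mul_comm 2 f, pow_mul]
    rw [h9] at h7
    rw [mul_pow (H * (H : ℝ) ^ f) V 2] at h8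
    nlinarith [sq_nonneg (S - ((KP f p H).card : ℝ) * V)]
  refine (sum_le_sum h4).trans ?_
  rw [sum_add_distrib, ← mul_sum, sum_const, Nat.card_Icc, Nat.add_sub_cancel, nsmul_eq_mul, hV2]
  have h5 := moment (M := M) hf hfw hfw' hFL hwz hy hKy (hP p hp) hH hHK
  rw [hV2] at h5
  have h6 := mul_le_mul_of_nonneg_left h5 (by positivity : (0 : ℝ) ≤ 2 * (H : ℝ) ^ 2)
  linarith

end Pool.Agent.H526.FC
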