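import Mathlib
import Pool.Agent.H526.FC.P7
import Pool.Graph.R_pool_sql_team_seeded_b677cdb8.E8helper16.SL.G3

set_option autoImplicit false

/-! The block estimate with the sieve weight, summed over the tuples. -/

namespace Pool.Agent.H526.FC
open Finset
open Pool.Agent.H373R2.T7 (Vz Vz_pos pz mem_pz PerB)
open Pool.Agent.E8helper16.SL (nu nu_nonneg nu_le lz lM lM_conj lz_norm GM Gz GM_eq_Gz FL inv_ge_one)

lemma FL_mono {f f' b x z : ℕ} (h : f' ≤ f) (hFL : FL f b x z) : FL f' b x z := by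
  intro Q hQ X
  exact hFL Q ⟨hQ.per, fun p hp => (hQ.few p hp).trans (by omega)⟩ X

/-- the constant of the block estimate -/
noncomputable def C8 (f : ℕ) : ℝ := 96 * f + 108 * (f : ℝ) ^ 2 * C2 f + 66 * (f : ℝ) ^ 2 + 18

lemma C8_nonneg (f : ℕ) : 0 ≤ C8 f := by
  unfold C8
  have := C2_pos f
  positivity

/-- the constant of the diagonal -/
noncomputable def DG (f : ℕ) (C7 W : ℝ) : ℝ :=
  2 * (((2 * f : ℕ) : ℝ) ^ (2 * f) * (C7 ^ (2 * f) + 9 ^ f * (7 + 24 * (f : ℝ) ^ 2 * W))) + 2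

lemma blockB {f b x w z y K H M : ℕ} (hf : 1 ≤ f) (hfw : 64 * f ^ 2 ≤ w) (hfw' : 16 * f + 1 ≤ w)
    (hFL : FL (2 * f) b x z) (hwz : w ≤ z) (hy : 1 ≤ y) (hCw : C2 f ≤ w) (hKy : 32 * f ^ 3 * K * w ≤ y) (hwb : w = 2 ^ b)
    (P : Finset ℕ) (hP : ∀ p ∈ P, p ∈ pz z) (hH : 1 ≤ H) (hHK : 2 * H ≤ 2 ^ K)
    (hsize : ∀ κ ∈ KK f P H, ∀ κ' ∈ KK f P H, ∀ q, (DD κ κ' q).natAbs ≤ 2 ^ K)
    (hW : WW (C2 f) y ≤ H * (1 / 2 : ℝ) ^ b)
    (hR : 4 * (((Vz z) ^ (2 * f))⁻¹ * √(x : ℝ)) ≤ M * (1 / 2 : ℝ) ^ b)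
    (hR4 : ((Vz z) ^ (4 * f))⁻¹ * √(x : ℝ) ≤ M) (C7 : ℝ) (hC7 : 1 ≤ C7) (hZ : (Vz z)⁻¹ ≤ C7 * H)
    (hA : DG f C7 (WW (C5 f) y) ≤ P.card * (1 / 2 : ℝ) ^ b) :
    ∑ κ ∈ KK f P H, ∑ κ' ∈ KK f P H, |CV κ κ' M w z| ≤
      TK f P H ^ 2 * (M * (C8 f * ((Vz w) ^ (2 * f))⁻¹ * (1 / 2 : ℝ) ^ b)) := by
  classical
  have hw1 : 1 ≤ w := by omega
  have hH0 : (0 : ℝ) < H := by exact_mod_cast hH
  have hPp : ∀ p ∈ P, p.Prime := fun p hp => (mem_pz.1 (hP p hp)).2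
  have hf3 : 4 * f * K * (3 * f ^ 2) * w ≤ y := by
    refine le_trans ?_ hKy
    have e1 : 4 * f * K * (3 * f ^ 2) * w = 12 * f ^ 3 * K * w := by ring
    rw [e1]
    apply Nat.mul_le_mul_right
    apply Nat.mul_le_mul_right
    apply Nat.mul_le_mul_right
    norm_num
  have hf4 : 8 * f * K * (4 * f ^ 2) * w ≤ y := by
    refine le_trans (le_of_eq ?_) hKy
    ring
  have h1 := off (M := M) hf (by omega) (by omega) (FL_mono (f := 2 * f) (by omega) hFL) hwz hy hCw hf3 hH P hPp hsize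
  have h2 := diag (M := M) hf hfw hfw' hFL hwz hy hf4 P hP hH hHK
  have hsplit : ∑ κ ∈ KK f P H, ∑ κ' ∈ KK f P H, |CV κ κ' M w z| =
      ∑ κ ∈ KK f P H, ∑ κ' ∈ (KK f P H).filter (fun κ' => κ'.2.1 = κ.2.1), |CV κ κ' M w z| +
      ∑ κ ∈ KK f P H, ∑ κ' ∈ (KK f P H).filter (fun κ' => κ'.2.1 ≠ κ.2.1), |CV κ κ' M w z| := by
    rw [← sum_add_distrib]
    apply sum_congr rfl
    intro κ _
    rw [sum_filter_add_sum_filter_not]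
  rw [hsplit]
  obtain ⟨e, he⟩ : ∃ e, e = (1 / 2 : ℝ) ^ b := ⟨_, rfl⟩
  have hw : (w : ℝ) = e⁻¹ := by rw [hwb, he]; push_cast; rw [one_div, inv_pow, inv_inv]
  have he0 : 0 < e := by rw [he]; positivity
  rw [← he] at hW hR hA h1 ⊢
  rw [hw] at h1
  obtain ⟨V, hV⟩ : ∃ V, V = ((Vz w) ^ (2 * f))⁻¹ := ⟨_, rfl⟩
  have hV1 : 1 ≤ V := by rw [hV]; exact inv_ge_one w (2 * f)
  rw [← hV] at h1 h2 ⊢
  have hM0 : (0 : ℝ) ≤ M := Nat.cast_nonneg _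
  have hP0 : (0 : ℝ) ≤ P.card := Nat.cast_nonneg _
  have hT := TK_nonneg f P H
  have hC2 := C2_pos f
  have hf0 : (0 : ℝ) ≤ f := Nat.cast_nonneg _
  -- the pairs with different primes
  have g1 : TK f P H ^ 2 * (M * V * (12 * ((8 * f + 1) / e⁻¹) + 54 * (f : ℝ) ^ 2 * (2 * C2 f / e⁻¹ + WW (C2 f) y / H) +
        12 * (f : ℝ) ^ 2 / e⁻¹ + 4 * e) + 4 * (((Vz z) ^ (2 * f))⁻¹ * √(x : ℝ))) ≤
      TK f P H ^ 2 * (M * ((C8 f - 1) * V * e)) := by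
    apply mul_le_mul_of_nonneg_left _ (by positivity)
    have q1 : WW (C2 f) y / H ≤ e := by
      rw [div_le_iff₀ hH0]
      linarith
    have q2 : (M : ℝ) * e ≤ M * V * e := by
      have : (M : ℝ) * 1 ≤ M * V := mul_le_mul_of_nonneg_left hV1 hM0
      have := mul_le_mul_of_nonneg_right this he0.le
      linarith
    have q3 : 54 * (f : ℝ) ^ 2 * (2 * C2 f / e⁻¹ + WW (C2 f) y / H) ≤ 54 * (f : ℝ) ^ 2 * (2 * C2 f / e⁻¹ + e) := by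
      apply mul_le_mul_of_nonneg_left _ (by positivity)
      linarith
    have q4 : (M : ℝ) * V * (12 * ((8 * f + 1) / e⁻¹) + 54 * (f : ℝ) ^ 2 * (2 * C2 f / e⁻¹ + WW (C2 f) y / H) +
        12 * (f : ℝ) ^ 2 / e⁻¹ + 4 * e) ≤ M * V * (12 * ((8 * f + 1) / e⁻¹) + 54 * (f : ℝ) ^ 2 * (2 * C2 f / e⁻¹ + e) +
        12 * (f : ℝ) ^ 2 / e⁻¹ + 4 * e) := by
      apply mul_le_mul_of_nonneg_left _ (by positivity)
      linarith
    refine (add_le_add q4 (hR.trans q2)).trans (le_of_eq ?_)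
    unfold C8
    simp only [div_inv_eq_mul]
    ring
  -- the pairs with the same prime
  have g2 : (P.card : ℝ) * (2 * (H : ℝ) ^ 2 * (((2 * f : ℕ) : ℝ) ^ (2 * f) * (M * ((Vz z) ^ (2 * f))⁻¹ + (3 * (H : ℝ)) ^ (2 * f) *
        (2 * M * (V * (3 + 12 * (f : ℝ) ^ 2 * WW (C5 f) y)) + ((Vz z) ^ (4 * f))⁻¹ * √(x : ℝ)))) +
        2 * M * ((H * (H : ℝ) ^ f) ^ 2 * V)) ≤ TK f P H ^ 2 * (M * (V * e)) := by
    obtain ⟨W, hWd⟩ : ∃ W, W = WW (C5 f) y := ⟨_, rfl⟩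
    have hW1 : 1 ≤ W := by rw [hWd]; exact one_le_WW y (C5_pos f).le
    rw [← hWd] at hA ⊢
    obtain ⟨F, hF⟩ : ∃ F : ℝ, F = ((2 * f : ℕ) : ℝ) ^ (2 * f) := ⟨_, rfl⟩
    have hF0 : 0 ≤ F := by rw [hF]; positivity
    unfold DG at hA
    rw [← hF] at hA ⊢
    obtain ⟨L, hL⟩ : ∃ L : ℝ, L = (H : ℝ) ^ (2 * f) := ⟨_, rfl⟩
    have hL0 : 0 ≤ L := by rw [hL]; positivity
    have r1 : ((Vz z) ^ (2 * f))⁻¹ ≤ C7 ^ (2 * f) * L := by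
      rw [← inv_pow, hL, ← mul_pow]
      exact pow_le_pow_left₀ (inv_pos.2 (Vz_pos z)).le hZ _
    have r2 : (3 * (H : ℝ)) ^ (2 * f) = 9 ^ f * L := by
      rw [mul_pow, hL]
      congr 1
      rw [pow_mul]
      norm_num
    have r3 : (H * (H : ℝ) ^ f) ^ 2 = (H : ℝ) ^ 2 * L := by rw [hL, mul_pow, mul_comm 2 f, pow_mul]
    have r4 : TK f P H ^ 2 = (P.card : ℝ) ^ 2 * ((H : ℝ) ^ 2 * L) := by
      unfold TK
      rw [← r3]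
      ring
    rw [r2, r3, r4]
    have C0 : 0 ≤ C7 ^ (2 * f) := by positivity
    have i1 : (M : ℝ) * ((Vz z) ^ (2 * f))⁻¹ ≤ M * (V * (C7 ^ (2 * f) * L)) := by
      apply mul_le_mul_of_nonneg_left _ hM0
      refine r1.trans ?_
      exact le_mul_of_one_le_left (by positivity) hV1
    have i2 : 2 * M * (V * (3 + 12 * (f : ℝ) ^ 2 * W)) + ((Vz z) ^ (4 * f))⁻¹ * √(x : ℝ) ≤ M * (V * (7 + 24 * (f : ℝ) ^ 2 * W)) := by
      have : (M : ℝ) ≤ M * V := le_mul_of_one_le_right hM0 hV1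
      calc _ ≤ 2 * M * (V * (3 + 12 * (f : ℝ) ^ 2 * W)) + M * V := by linarith
        _ = _ := by ring
    have i3 : 9 ^ f * L * (2 * M * (V * (3 + 12 * (f : ℝ) ^ 2 * W)) + ((Vz z) ^ (4 * f))⁻¹ * √(x : ℝ)) ≤
        9 ^ f * L * (M * (V * (7 + 24 * (f : ℝ) ^ 2 * W))) := mul_le_mul_of_nonneg_left i2 (by positivity)
    have i4 : F * (M * ((Vz z) ^ (2 * f))⁻¹ + 9 ^ f * L * (2 * M * (V * (3 + 12 * (f : ℝ) ^ 2 * W)) + ((Vz z) ^ (4 * f))⁻¹ * √(x : ℝ))) ≤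
        F * (M * (V * (C7 ^ (2 * f) * L)) + 9 ^ f * L * (M * (V * (7 + 24 * (f : ℝ) ^ 2 * W)))) :=
      mul_le_mul_of_nonneg_left (add_le_add i1 i3) hF0
    have i5 := mul_le_mul_of_nonneg_left i4 (by positivity : (0 : ℝ) ≤ 2 * (H : ℝ) ^ 2)
    calc _ ≤ (P.card : ℝ) * (2 * (H : ℝ) ^ 2 * (F * (M * (V * (C7 ^ (2 * f) * L)) + 9 ^ f * L * (M * (V * (7 + 24 * (f : ℝ) ^ 2 * W))))) +
          2 * M * ((H : ℝ) ^ 2 * L * V)) := by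
          apply mul_le_mul_of_nonneg_left _ hP0
          linarith
      _ = ((P.card : ℝ) * (H : ℝ) ^ 2 * L * M * V) * (2 * (F * (C7 ^ (2 * f) + 9 ^ f * (7 + 24 * (f : ℝ) ^ 2 * W))) + 2) := by ring
      _ ≤ ((P.card : ℝ) * (H : ℝ) ^ 2 * L * M * V) * (P.card * e) := mul_le_mul_of_nonneg_left hA (by positivity)
      _ = _ := by ring
  calc _ ≤ TK f P H ^ 2 * (M * (V * e)) + TK f P H ^ 2 * (M * ((C8 f - 1) * V * e)) := add_le_add (h2.trans g2) (h1.trans g1)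
    _ = _ := by ring

/-- the sum of the weights over the tuples -/
lemma sum_nu {f b x w z y K H N : ℕ} (hf : 1 ≤ f) (hfw : 16 * f ^ 2 ≤ w) (hfw' : 8 * f + 1 ≤ w)
    (hFL : FL f b x z) (hwz : w ≤ z) (hy : 1 ≤ y) (hCw : C2 f ≤ w) (hKy : 32 * f ^ 3 * K * w ≤ y)
    (hH : 1 ≤ H) (hHK : 2 * H ≤ 2 ^ K) (hW : WW (C2 f) y ≤ H) (hRN : ((Vz z) ^ (2 * f))⁻¹ * √(x : ℝ) ≤ N) :
    ∑ s ∈ Tf f H, ∑ n ∈ Icc 1 N, nu (cz s 0) z (n : ℤ) ≤ (7 + 18 * (f : ℝ) ^ 2) * ((Vz w) ^ f)⁻¹ * ((H : ℝ) ^ f * N) := by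
  classical
  have hw1 : 1 ≤ w := by omega
  have hw0 : (0 : ℝ) < w := by exact_mod_cast hw1
  have hH0 : (0 : ℝ) < H := by exact_mod_cast hH
  have hN0 : (0 : ℝ) ≤ N := Nat.cast_nonneg _
  obtain ⟨V, hV⟩ : ∃ V, V = ((Vz w) ^ f)⁻¹ := ⟨_, rfl⟩
  have hV1 : 1 ≤ V := by rw [hV]; exact inv_ge_one w f
  obtain ⟨C1, hC1⟩ : ∃ C1 : ℝ, C1 = (1 + 4 * (f : ℝ)) ^ (f ^ 2) := ⟨_, rfl⟩
  have hC10 : 0 ≤ C1 := by rw [hC1]; positivity
  have hC12 : C1 ≤ C2 f := by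
    rw [hC1]
    unfold C2
    apply pow_le_pow_right₀
    · have : (0 : ℝ) ≤ 4 * f := by positivity
      linarith
    · omega
  have hWW : WW C1 y ≤ WW (C2 f) y := by
    unfold WW
    apply prod_le_prod
    · intro l _
      positivity
    · intro l _
      have : C1 / (l : ℝ) ≤ C2 f / l := div_le_div_of_nonneg_right hC12 (Nat.cast_nonneg l)
      linarith
  have h1 : ∀ s ∈ Tf f H, ∑ n ∈ Icc 1 N, nu (cz s 0) z (n : ℤ) ≤ 2 * N * (V * (3 + 3 * EX (df (cz s 0)) C1 w y)) + N := by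
    intro s hs
    have q := single_le (cz s 0) 1 hf hfw hFL hwz (nz_one _) N
    have q2 : ∑ m ∈ Icc 1 N, nu (cz s 0) z (((1 : ℕ) : ℤ) * m) = ∑ n ∈ Icc 1 N, nu (cz s 0) z (n : ℤ) := by
      apply sum_congr rfl
      intro m _
      congr 1
      push_cast
      ring
    rw [q2, ← hV] at q
    have q3 := GU_sub (df (cz s 0)) (C := 4 * (f : ℝ)) (z := z) (w := w) (y := y) (K := K) (d := 1) (d' := 1) (by positivity)
      (by omega) hy (by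
        have : ((8 * f + 1 : ℕ) : ℝ) ≤ w := by exact_mod_cast hfw'
        push_cast at this ⊢
        linarith) (by
        rw [Fintype.card_prod, Fintype.card_fin]
        have h5 : 4 * f * K * (f * f) * w ≤ y := by
          refine le_trans ?_ hKy
          have e1 : 4 * f * K * (f * f) * w = 4 * f ^ 3 * K * w := by ring
          rw [e1]
          apply Nat.mul_le_mul_right
          apply Nat.mul_le_mul_right
          apply Nat.mul_le_mul_right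
          norm_num
        have : ((4 * f * K * (f * f) * w : ℕ) : ℝ) ≤ y := by exact_mod_cast h5
        push_cast at this ⊢
        exact this) (Or.inl rfl) (Or.inl rfl) (by
        intro q
        refine ⟨df_ne hs 0 q, ?_⟩
        rw [df_cz]
        have a1 := (mem_Tf.1 hs).1 q.1
        have a2 := (mem_Tf.1 hs).1 q.2
        split_ifs with hq
        · simpa using Nat.one_le_two_pow
        · refine le_trans ?_ hHK
          omega)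
    have e1 : (1 + 4 * (f : ℝ)) ^ (Fintype.card (Fin f × Fin f)) = C1 := by
      rw [hC1, Fintype.card_prod, Fintype.card_fin, ← pow_two]
    rw [e1] at q3
    have q4 : 2 * ((2 * (4 * (f : ℝ)) + 1) / w) ≤ 2 := by
      have : (2 * (4 * (f : ℝ)) + 1) / w ≤ 1 := by
        rw [div_le_one hw0]
        have : ((8 * f + 1 : ℕ) : ℝ) ≤ w := by exact_mod_cast hfw'
        push_cast at this ⊢
        linarith
      linarith
    have q5 : GU (df (cz s 0)) (4 * f) w z 1 1 ≤ 3 + 3 * EX (df (cz s 0)) C1 w y := by linarith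
    have q6 : 2 * (N : ℝ) * (V * GU (df (cz s 0)) (4 * f) w z 1 1) ≤ 2 * N * (V * (3 + 3 * EX (df (cz s 0)) C1 w y)) := by
      apply mul_le_mul_of_nonneg_left _ (by positivity)
      exact mul_le_mul_of_nonneg_left q5 (by linarith)
    linarith
  refine (sum_le_sum h1).trans ?_
  have h2 : ∑ s ∈ Tf f H, EX (df (cz s 0)) C1 w y ≤ (f : ℝ) ^ 2 * ((H : ℝ) ^ f * 3) := by
    unfold EX
    rw [sum_comm]
    have h3 : ∀ q ∈ (univ : Finset (Fin f × Fin f)), ∑ s ∈ Tf f H, (AA w y C1 (df (cz s 0) q) - 1) ≤ (H : ℝ) ^ f * 3 := by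
      intro q _
      refine (avg_intra (y := y) hw1 hH hC10 (hC12.trans hCw) q (fun _ => 0)).trans ?_
      apply mul_le_mul_of_nonneg_left _ (by positivity)
      have a1 : 2 * C1 / w ≤ 2 := by
        rw [div_le_iff₀ hw0]
        have := hC12.trans hCw
        linarith
      have a2 : WW C1 y / H ≤ 1 := by
        rw [div_le_one hH0]
        exact hWW.trans hW
      linarith
    refine (sum_le_sum h3).trans (le_of_eq ?_)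
    rw [sum_const, card_univ, Fintype.card_prod, Fintype.card_fin, nsmul_eq_mul]
    push_cast
    ring
  have e : ∀ s ∈ Tf f H, 2 * (N : ℝ) * (V * (3 + 3 * EX (df (cz s 0)) C1 w y)) + N =
      (6 * N * V + N) + (6 * N * V) * EX (df (cz s 0)) C1 w y := by
    intro s _
    ring
  rw [sum_congr rfl e, sum_add_distrib, sum_const, nsmul_eq_mul, ← mul_sum, ← hV]
  have h4 := mul_le_mul_of_nonneg_left h2 (by positivity : (0 : ℝ) ≤ 6 * N * V)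
  have h5 := mul_le_mul_of_nonneg_right (card_Tf f H) (by positivity : (0 : ℝ) ≤ 6 * N * V + N)
  have h6 : (N : ℝ) ≤ N * V := le_mul_of_one_le_right hN0 hV1
  have h7 : (H : ℝ) ^ f * N ≤ (H : ℝ) ^ f * (N * V) := mul_le_mul_of_nonneg_left h6 (by positivity)
  calc _ ≤ (H : ℝ) ^ f * (6 * N * V + N) + 6 * N * V * ((f : ℝ) ^ 2 * ((H : ℝ) ^ f * 3)) := add_le_add h5 h4
    _ = (6 + 18 * (f : ℝ) ^ 2) * V * ((H : ℝ) ^ f * N) + (H : ℝ) ^ f * N := by ring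
    _ ≤ (6 + 18 * (f : ℝ) ^ 2) * V * ((H : ℝ) ^ f * N) + (H : ℝ) ^ f * (N * V) := by linarith
    _ = _ := by ring

/-- the `L¹` bound over the block -/
theorem block_nu {f b x w z y K H J M N : ℕ} (hf : 1 ≤ f) (hfw : 64 * f ^ 2 ≤ w) (hfw' : 16 * f + 1 ≤ w)
    (hFL : FL (2 * f) b x z) (hwz : w ≤ z) (hy : 1 ≤ y) (hCw : C2 f ≤ w) (hKy : 32 * f ^ 3 * K * w ≤ y) (hwb : w = 2 ^ b)
    (P : Finset ℕ) (hP : ∀ p ∈ P, p ∈ pz z) (hH : 1 ≤ H) (hHK : 2 * H ≤ 2 ^ K)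
    (hsize : ∀ κ ∈ KK f P H, ∀ κ' ∈ KK f P H, ∀ q, (DD κ κ' q).natAbs ≤ 2 ^ K)
    (hW : WW (C2 f) y ≤ H * (1 / 2 : ℝ) ^ b)
    (hR : 4 * (((Vz z) ^ (2 * f))⁻¹ * √(x : ℝ)) ≤ M * (1 / 2 : ℝ) ^ b)
    (hR4 : ((Vz z) ^ (4 * f))⁻¹ * √(x : ℝ) ≤ M) (C7 : ℝ) (hC7 : 1 ≤ C7) (hZ : (Vz z)⁻¹ ≤ C7 * H)
    (hA : DG f C7 (WW (C5 f) y) ≤ P.card * (1 / 2 : ℝ) ^ b)
    (c : (Fin f → ℕ) → ℕ → ℂ) (hc : ∀ s h, ‖c s h‖ ≤ 1) (hJ : ∀ p ∈ P, H ≤ p * J)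
    (hmrt : ∀ g : ℕ → ℂ, (∀ n, ‖g n‖ ≤ 1) → ∑ j ∈ Ioo (-(J : ℤ)) J, ‖∑ m ∈ Icc 1 M, g m * lM M (m + j)‖ ≤ (1 / 2 : ℝ) ^ b * J * M)
    (hMN : ∀ p ∈ P, N + H ≤ p * M) (hRN : ((Vz z) ^ (2 * f))⁻¹ * √(x : ℝ) ≤ N) (T : ℝ)
    (hT : (H : ℝ) * J * M ≤ 4 * N * T ^ 2) (hT0 : 0 ≤ T) :
    ∑ s ∈ Tf f H, ∑ p ∈ P, ∑ n ∈ Icc 1 N, nu (cz s 0) z n * ‖Gz (c s) H p n‖ ≤
      P.card * ((H : ℝ) ^ f * (T * N)) * √(4 * (7 + 18 * (f : ℝ) ^ 2) * ((Vz w) ^ f)⁻¹ *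
        (2 * √(C8 f * ((Vz w) ^ (2 * f))⁻¹ * (1 / 2 : ℝ) ^ b) + ((Vz w) ^ f)⁻¹ * (1 / 2 : ℝ) ^ b)) := by
  classical
  obtain ⟨β, hβ⟩ : ∃ β, β = C8 f * ((Vz w) ^ (2 * f))⁻¹ * (1 / 2 : ℝ) ^ b := ⟨_, rfl⟩
  have hC8 := C8_nonneg f
  have hVw := (Vz_pos w).le
  have hβ0 : 0 ≤ β := by rw [hβ]; positivity
  have hB := blockB hf hfw hfw' hFL hwz hy hCw hKy hwb P hP hH hHK hsize hW hR hR4 C7 hC7 hZ hA
  rw [← hβ] at hB ⊢
  have hU := U_bound c hc (w := w) (z := z) (J := J) (M := M) P hP hJ ((1 / 2 : ℝ) ^ b) _ (by positivity) hmrt hB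
  obtain ⟨V, hV⟩ : ∃ V, V = ((Vz w) ^ f)⁻¹ := ⟨_, rfl⟩
  obtain ⟨e, he⟩ : ∃ e, e = (1 / 2 : ℝ) ^ b := ⟨_, rfl⟩
  rw [← hV, ← he] at hU ⊢
  have hV1 : 1 ≤ V := by rw [hV]; exact inv_ge_one w f
  have he0 : 0 < e := by rw [he]; positivity
  have he1 : e ≤ 1 := by rw [he]; exact pow_le_one₀ (by norm_num) (by norm_num)
  have hM0 : (0 : ℝ) ≤ M := Nat.cast_nonneg _
  have hJ0 : (0 : ℝ) ≤ J := Nat.cast_nonneg _
  have hN0 : (0 : ℝ) ≤ N := Nat.cast_nonneg _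
  have hH0 : (0 : ℝ) ≤ H := Nat.cast_nonneg _
  have hP0 : (0 : ℝ) ≤ P.card := Nat.cast_nonneg _
  have hTK := TK_nonneg f P H
  have e1 : √(M * (TK f P H ^ 2 * (M * β))) = TK f P H * (M * √β) := by
    have : (M : ℝ) * (TK f P H ^ 2 * (M * β)) = (TK f P H * M) ^ 2 * β := by ring
    rw [this, Real.sqrt_mul (sq_nonneg _), Real.sqrt_sq (by positivity)]
    ring
  rw [e1] at hU
  have hU2 : ∑ s ∈ Tf f H, ∑ p ∈ P, ∑ n ∈ Icc (-(H : ℤ)) (p * M), nu (cz s 0) z n * ‖GM (c s) H p M n‖ ^ 2 ≤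
      P.card * (H : ℝ) ^ f * (4 * N * T ^ 2) * (2 * √β + V * e) := by
    have q : (0 : ℝ) ≤ 2 * √β + V * e := by positivity
    calc _ ≤ _ := hU
      _ = P.card * (H : ℝ) ^ f * (H * J * M) * (2 * √β + V * e) := by unfold TK; ring
      _ ≤ _ := by
        apply mul_le_mul_of_nonneg_right _ q
        exact mul_le_mul_of_nonneg_left hT (by positivity)
  -- restriction to `1 ≤ n ≤ N`
  have h1 : ∀ s ∈ Tf f H, ∀ p ∈ P, ∑ n ∈ Icc 1 N, nu (cz s 0) z n * ‖Gz (c s) H p n‖ ^ 2 ≤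
      ∑ n ∈ Icc (-(H : ℤ)) (p * M), nu (cz s 0) z n * ‖GM (c s) H p M n‖ ^ 2 := by
    intro s _ p hp
    have hMp := hMN p hp
    have h2 : ∑ n ∈ Icc 1 N, nu (cz s 0) z (n : ℤ) * ‖Gz (c s) H p (n : ℤ)‖ ^ 2 =
        ∑ n ∈ (Icc 1 N).image (fun n : ℕ => (n : ℤ)), nu (cz s 0) z n * ‖GM (c s) H p M n‖ ^ 2 := by
      rw [sum_image (fun a _ b _ h => by exact_mod_cast h)]
      apply sum_congr rfl
      intro n hn
      rw [mem_Icc] at hn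
      rw [GM_eq_Gz (c s) (mem_pz.1 (hP p hp)).2.one_le hMp (by exact_mod_cast hn.2)]
    rw [h2]
    apply sum_le_sum_of_subset_of_nonneg
    · intro n hn
      rw [mem_image] at hn
      obtain ⟨m, hm, rfl⟩ := hn
      rw [mem_Icc] at hm ⊢
      constructor
      · have : (0 : ℤ) ≤ (m : ℤ) := Int.natCast_nonneg _
        have : (0 : ℤ) ≤ (H : ℤ) := Int.natCast_nonneg _
        linarith
      · have h3 : m ≤ p * M := by omega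
        exact_mod_cast h3
    · intro n _ _
      exact mul_nonneg (nu_nonneg _ z n) (by positivity)
  have h3 : ∑ s ∈ Tf f H, ∑ p ∈ P, ∑ n ∈ Icc 1 N, nu (cz s 0) z n * ‖Gz (c s) H p n‖ ^ 2 ≤
      P.card * (H : ℝ) ^ f * (4 * N * T ^ 2) * (2 * √β + V * e) :=
    (sum_le_sum fun s hs => sum_le_sum (h1 s hs)).trans hU2
  -- the sum of the weights
  have h4 : ∑ s ∈ Tf f H, ∑ n ∈ Icc 1 N, nu (cz s 0) z (n : ℤ) ≤ (7 + 18 * (f : ℝ) ^ 2) * V * ((H : ℝ) ^ f * N) := by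
    rw [hV]
    have hf2 : 16 * f ^ 2 ≤ 64 * f ^ 2 := Nat.mul_le_mul_right _ (by norm_num)
    refine sum_nu hf (hf2.trans hfw) (by omega) (FL_mono (f := 2 * f) (by omega) hFL) hwz hy hCw hKy hH hHK (hW.trans ?_) hRN
    rw [← he]
    exact mul_le_of_le_one_right hH0 he1
  have h5 : ∑ s ∈ Tf f H, ∑ p ∈ P, ∑ n ∈ Icc 1 N, nu (cz s 0) z (n : ℤ) ≤ P.card * ((7 + 18 * (f : ℝ) ^ 2) * V * ((H : ℝ) ^ f * N)) := by
    simp only [sum_const, nsmul_eq_mul]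
    rw [← mul_sum]
    exact mul_le_mul_of_nonneg_left h4 hP0
  -- Cauchy-Schwarz
  have h6 : (∑ s ∈ Tf f H, ∑ p ∈ P, ∑ n ∈ Icc 1 N, nu (cz s 0) z n * ‖Gz (c s) H p n‖) ^ 2 ≤
      (∑ s ∈ Tf f H, ∑ p ∈ P, ∑ n ∈ Icc 1 N, nu (cz s 0) z (n : ℤ)) *
      (∑ s ∈ Tf f H, ∑ p ∈ P, ∑ n ∈ Icc 1 N, nu (cz s 0) z n * ‖Gz (c s) H p n‖ ^ 2) := by
    have q := sum_mul_sq_le_sq_mul_sq (Tf f H ×ˢ (P ×ˢ Icc 1 N)) (fun r => √(nu (cz r.1 0) z (r.2.2 : ℤ)))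
      (fun r => √(nu (cz r.1 0) z (r.2.2 : ℤ)) * ‖Gz (c r.1) H r.2.1 (r.2.2 : ℤ)‖)
    rw [sum_product, sum_product, sum_product] at q
    simp only [sum_product] at q
    have q1 : ∀ (s : Fin f → ℕ) (p n : ℕ), √(nu (cz s 0) z (n : ℤ)) * (√(nu (cz s 0) z (n : ℤ)) * ‖Gz (c s) H p (n : ℤ)‖) =
        nu (cz s 0) z n * ‖Gz (c s) H p n‖ := by
      intro s p n
      rw [← mul_assoc, Real.mul_self_sqrt (nu_nonneg _ z n)]
    have q2 : ∀ (s : Fin f → ℕ) (n : ℕ), √(nu (cz s 0) z (n : ℤ)) ^ 2 = nu (cz s 0) z n := fun s n => Real.sq_sqrt (nu_nonneg _ z n)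
    simp only [q1, mul_pow, q2] at q
    exact q
  have h7 : (∑ s ∈ Tf f H, ∑ p ∈ P, ∑ n ∈ Icc 1 N, nu (cz s 0) z n * ‖Gz (c s) H p n‖) ^ 2 ≤
      (P.card * ((H : ℝ) ^ f * (T * N)) * √(4 * (7 + 18 * (f : ℝ) ^ 2) * V * (2 * √β + V * e))) ^ 2 := by
    refine h6.trans ?_
    have q0 : (0 : ℝ) ≤ 4 * (7 + 18 * (f : ℝ) ^ 2) * V * (2 * √β + V * e) := by positivity
    rw [mul_pow, Real.sq_sqrt q0]
    have q1 : 0 ≤ ∑ s ∈ Tf f H, ∑ p ∈ P, ∑ n ∈ Icc 1 N, nu (cz s 0) z n * ‖Gz (c s) H p n‖ ^ 2 :=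
      sum_nonneg fun s _ => sum_nonneg fun p _ => sum_nonneg fun n _ => mul_nonneg (nu_nonneg _ z n) (by positivity)
    calc _ ≤ (P.card * ((7 + 18 * (f : ℝ) ^ 2) * V * ((H : ℝ) ^ f * N))) * (P.card * (H : ℝ) ^ f * (4 * N * T ^ 2) * (2 * √β + V * e)) :=
          mul_le_mul h5 h3 q1 (by positivity)
      _ = _ := by ring
  exact (abs_le_of_sq_le_sq' h7 (by positivity)).2

end Pool.Agent.H526.FC
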