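import Mathlib
import Pool.Agent.H526.FC.P9
import Pool.Graph.R_pool_sql_team_seeded_b677cdb8.E8helper16.SL.H4

set_option autoImplicit false

/-! The `L¹` bound for the sums over windows, summed over the tuples of rough integers. -/

namespace Pool.Agent.H526.FC
open Finset Filter Topology
open Pool.Agent.H373R2.T7 (Vz Vz_pos pz mem_pz PerB)
open Pool.Agent.E8helper16.SL (nu nu_nonneg nu_le lz lM lM_conj lz_norm GM Gz GM_eq_Gz FL inv_ge_one Rough mert zN zN_pow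
  zN_tendsto lam_cost err_cond err_tendsto mrt fl_exists two_log_le_z two_pow_K natlog_le zN_sq log_tendsto loglog_pow_le
  one_le_Vz_inv Gz_norm Gz_norm2 RP RP_mid S_le quad_exp params blocks_sum mid mem_mid)

/-- the number of the pairs (tuple, base point) at rough positions -/
theorem RR_sum (f : ℕ) (hf : 1 ≤ f) (θ : ℝ) (hθ : 0 < θ) (C7 : ℝ) (hC7 : 1 ≤ C7) : ∃ C6 : ℝ, 1 ≤ C6 ∧ ∃ N₀ : ℕ, ∀ N : ℕ, N₀ ≤ N →
    ∀ H : ℕ, (H : ℝ) ≤ C7 * Real.log N → Real.log N ≤ C7 * H → ∀ z1 : ℕ, (N : ℝ) ^ θ ≤ z1 + 1 →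
      ∑ s ∈ Tf f H, ∑ n ∈ Icc 1 N, RR s z1 n ≤ C6 * N := by
  classical
  obtain ⟨C0, hC01, hFLex⟩ := fl_exists f hf
  obtain ⟨C, hC1, hC⟩ := mert
  have h2b : Tendsto (fun b : ℕ => (2 : ℝ) ^ b) atTop atTop := tendsto_pow_atTop_atTop_of_one_lt (by norm_num)
  obtain ⟨bθ, hbθ⟩ := exists_nat_gt (1 / θ)
  obtain ⟨b, hbC0, hb1, hbt, hb2⟩ := ((eventually_ge_atTop C0).and
    ((eventually_ge_atTop 1).and ((eventually_ge_atTop bθ).and
    (h2b.eventually_ge_atTop (64 * (f : ℝ) ^ 2 + (16 * f + 1) + C2 f))))).exists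
  obtain ⟨x0, hx0⟩ := hFLex b hbC0
  obtain ⟨c0, hc0⟩ : ∃ c0, c0 = 16 * (C0 * b) := ⟨_, rfl⟩
  have hc01 : 1 ≤ c0 := by
    rw [hc0]
    have : 1 ≤ C0 * b := Nat.mul_pos hC01 hb1
    omega
  have hc0r : (0 : ℝ) < c0 := by exact_mod_cast (by omega : 0 < c0)
  have hc0θ : 1 / (2 * (c0 : ℝ)) < θ := by
    have h1 : bθ ≤ c0 := by
      rw [hc0]
      have : b ≤ C0 * b := Nat.le_mul_of_pos_left b (by omega)
      omega
    have h2 : 1 / θ < 2 * c0 := by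
      have : (bθ : ℝ) ≤ c0 := by exact_mod_cast h1
      linarith
    rw [div_lt_iff₀ hθ] at h2
    rw [div_lt_iff₀ (by positivity)]
    linarith
  have hC2 := C2_pos f
  have hf0 : (0 : ℝ) ≤ f := Nat.cast_nonneg _
  have hff0 : (0 : ℝ) ≤ (f : ℝ) ^ 2 := by positivity
  have hb2' : 64 * (f : ℝ) ^ 2 + (16 * f + 1) + C2 f ≤ 2 ^ b := hb2
  have w2 : 16 * f ^ 2 ≤ 2 ^ b := by
    have : ((16 * f ^ 2 : ℕ) : ℝ) ≤ ((2 ^ b : ℕ) : ℝ) := by push_cast; linarith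
    exact_mod_cast this
  have w3 : 8 * f + 1 ≤ 2 ^ b := by
    have : ((8 * f + 1 : ℕ) : ℝ) ≤ ((2 ^ b : ℕ) : ℝ) := by push_cast; linarith
    exact_mod_cast this
  have w4 : C2 f ≤ ((2 ^ b : ℕ) : ℝ) := by push_cast; linarith
  obtain ⟨V, hV⟩ : ∃ V, V = ((Vz (2 ^ b)) ^ f)⁻¹ := ⟨_, rfl⟩
  have hV1 : 1 ≤ V := by rw [hV]; exact inv_ge_one _ f
  have hall := (((zN_tendsto c0 hc01).eventually_ge_atTop (x0 + 2 ^ b + 2)).and
    ((WW_small (C2_pos f).le f b hf (C7 * 2 ^ b) 1 (by positivity) one_pos).and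
    ((lam_cost c0 hc01 hC1 hC).and
    ((err_cond f b c0 0 hf hc01 hC1 hC).and ((log_tendsto.eventually_ge_atTop (C7 + 1)).and (eventually_ge_atTop 3))))))
  rw [eventually_atTop] at hall
  obtain ⟨N₀, hall⟩ := hall
  refine ⟨(7 + 18 * (f : ℝ) ^ 2) * V * (C7 * (8 * c0 * C)) ^ f + 1, by
    have : (0 : ℝ) ≤ (7 + 18 * (f : ℝ) ^ 2) * V * (C7 * (8 * c0 * C)) ^ f := by positivity
    linarith, N₀, fun N hN H hHL hLH z1 hz1 => ?_⟩
  obtain ⟨hz, h3, h4, ⟨h5a, -, h5c⟩, hL1', hN3⟩ := hall N hN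
  rw [Real.rpow_one] at h3
  obtain ⟨z, hzd⟩ : ∃ z, z = zN c0 N := ⟨_, rfl⟩
  rw [← hzd] at hz h4 h5a
  obtain ⟨L, hL⟩ : ∃ L, L = Real.log N := ⟨_, rfl⟩
  rw [← hL] at hHL hLH h3 h5a h5c hL1'
  have hL1 : 1 ≤ L := by linarith
  have hN3r : (3 : ℝ) ≤ N := by exact_mod_cast hN3
  have hN0 : (0 : ℝ) < N := by linarith
  have hH0 : (0 : ℝ) < H := by
    by_contra hcon
    push Not at hcon
    have : C7 * (H : ℝ) ≤ 0 := mul_nonpos_of_nonneg_of_nonpos (by linarith) hcon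
    linarith
  have hH1 : 1 ≤ H := by
    have : 0 < H := by exact_mod_cast hH0
    omega
  have hLf : 1 ≤ L ^ (f + 1) := one_le_pow₀ hL1
  have hHLf : (H : ℝ) ≤ L ^ (f + 1) := by
    have g1 : L ^ 2 ≤ L ^ (f + 1) := pow_le_pow_right₀ hL1 (by omega)
    have g2 : C7 * L ≤ L ^ 2 := by
      rw [pow_two]
      exact mul_le_mul_of_nonneg_right (by linarith) (by linarith)
    linarith
  have h12 : 12 * L ^ (f + 1) ≤ N := by
    have : 12 * L ^ (f + 1) ≤ (((0 : ℕ) : ℝ) + 12 + 4 * L ^ (f + 1)) * L ^ (f + 1) := by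
      apply mul_le_mul_of_nonneg_right _ (by linarith)
      push_cast
      linarith
    linarith
  have h12H : 12 * H ≤ N := by
    have : ((12 * H : ℕ) : ℝ) ≤ N := by push_cast; linarith
    exact_mod_cast this
  have hzx : z ^ c0 ≤ Nat.sqrt N := by
    rw [Nat.le_sqrt, ← pow_add, ← two_mul, hzd]
    exact zN_pow c0 N hc01
  rw [hc0] at hzx
  have hFL : FL f b (Nat.sqrt N) z := hx0 (Nat.sqrt N) z (by omega) hzx
  have hwz : 2 ^ b ≤ z := by omega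
  have he1 : (1 / 2 : ℝ) ^ b ≤ 1 := pow_le_one₀ (by norm_num) (by norm_num)
  have hVz0 := (Vz_pos z).le
  have hR0 : 0 ≤ ((Vz z) ^ (2 * f))⁻¹ * √((Nat.sqrt N : ℕ) : ℝ) := by positivity
  have hRN : ((Vz z) ^ (2 * f))⁻¹ * √((Nat.sqrt N : ℕ) : ℝ) ≤ N := by
    have g1 : (N : ℝ) * (1 / 2 : ℝ) ^ b ≤ N := mul_le_of_le_one_right hN0.le he1
    have g2 : 4 * (((Vz z) ^ (2 * f))⁻¹ * √((Nat.sqrt N : ℕ) : ℝ)) * 1 ≤
        4 * (((Vz z) ^ (2 * f))⁻¹ * √((Nat.sqrt N : ℕ) : ℝ)) * L ^ (f + 1) := mul_le_mul_of_nonneg_left hLf (by positivity)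
    linarith
  have hW : WW (C2 f) (yy f b N) ≤ H := by
    have g1 := cond_W hC7 h3 hLH
    exact g1.trans (mul_le_of_le_one_right hH0.le he1)
  have hHK : 2 * H ≤ 2 ^ (2 * (Nat.log 2 N + 1)) := by
    refine le_trans ?_ (two_pow_K N (by omega))
    calc 2 * H ≤ N := by omega
      _ ≤ N ^ 2 := Nat.le_self_pow (by norm_num) N
  have hy : 1 ≤ yy f b N := by
    unfold yy
    have : 0 < f ^ 3 := by positivity
    have : 0 < 32 * f ^ 3 * (2 * (Nat.log 2 N + 1)) * 2 ^ b := by positivity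
    omega
  have main := sum_nu (x := Nat.sqrt N) (z := z) (y := yy f b N) (K := 2 * (Nat.log 2 N + 1)) (N := N) (H := H)
    (w := 2 ^ b) hf w2 w3 hFL hwz hy w4 (le_of_eq rfl) hH1 hHK hW hRN
  rw [← hV] at main
  have hzz1 : z ≤ z1 := by
    have g1 : (z : ℝ) ≤ (N : ℝ) ^ (1 / (2 * (c0 : ℝ))) := by
      rw [hzd]
      unfold zN
      exact Nat.floor_le (by positivity)
    have g2 : (N : ℝ) ^ (1 / (2 * (c0 : ℝ))) < (N : ℝ) ^ θ := Real.rpow_lt_rpow_of_exponent_lt (by linarith) hc0θ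
    have g3 : (z : ℝ) < ((z1 + 1 : ℕ) : ℝ) := by
      push_cast
      linarith
    have : z < z1 + 1 := by exact_mod_cast g3
    omega
  have tr : ∑ s ∈ Tf f H, ∑ n ∈ Icc 1 N, RR s z1 n ≤ (Vz z) ^ f * ∑ s ∈ Tf f H, ∑ n ∈ Icc 1 N, nu (cz s 0) z (n : ℤ) := by
    rw [mul_sum]
    apply sum_le_sum
    intro s _
    rw [mul_sum]
    apply sum_le_sum
    intro n _
    exact RR_le s hzz1 n
  have hVH : (Vz z) ^ f * (H : ℝ) ^ f ≤ (C7 * (8 * c0 * C)) ^ f := by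
    rw [← mul_pow]
    apply pow_le_pow_left₀ (by positivity)
    have g1 : (H : ℝ) ≤ C7 * Real.log (3 * N) := by
      refine hHL.trans (mul_le_mul_of_nonneg_left ?_ (by linarith))
      rw [hL]
      exact Real.log_le_log hN0 (by linarith)
    calc Vz z * H ≤ Vz z * (C7 * Real.log (3 * N)) := mul_le_mul_of_nonneg_left g1 hVz0
      _ = C7 * (Real.log (3 * N) * Vz z) := by ring
      _ ≤ C7 * (8 * c0 * C) := mul_le_mul_of_nonneg_left h4 (by linarith)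
  calc _ ≤ _ := tr
    _ ≤ (Vz z) ^ f * ((7 + 18 * (f : ℝ) ^ 2) * V * ((H : ℝ) ^ f * N)) := mul_le_mul_of_nonneg_left main (by positivity)
    _ = (7 + 18 * (f : ℝ) ^ 2) * V * ((Vz z) ^ f * (H : ℝ) ^ f) * N := by ring
    _ ≤ (7 + 18 * (f : ℝ) ^ 2) * V * (C7 * (8 * c0 * C)) ^ f * N := by
        apply mul_le_mul_of_nonneg_right _ hN0.le
        exact mul_le_mul_of_nonneg_left hVH (by positivity)
    _ ≤ _ := by
        apply mul_le_mul_of_nonneg_right _ hN0.le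
        linarith

theorem core (f : ℕ) (hf : 1 ≤ f) (θ : ℝ) (hθ : 0 < θ) (C7 : ℝ) (hC7 : 1 ≤ C7) (ε : ℝ) (hε : 0 < ε) :
    ∃ N₀ : ℕ, ∀ N : ℕ, N₀ ≤ N →
    ∀ H : ℕ, (H : ℝ) ≤ C7 * Real.log N → Real.log N ≤ C7 * H → ∀ z1 : ℕ, (N : ℝ) ^ θ ≤ z1 + 1 →
      ∀ c : (Fin f → ℕ) → ℕ → ℂ, (∀ s h, ‖c s h‖ ≤ 1) →
      ∑ s ∈ Tf f H, ∑ n ∈ Icc 1 N, RR s z1 n * ‖∑ h ∈ Icc 1 H, c s h * lz ((n + h : ℕ) : ℤ)‖ ≤ ε * (H * N) := by
  classical
  obtain ⟨C6, hC6, N₁, hsum⟩ := RR_sum f hf θ hθ C7 hC7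
  obtain ⟨C, hC1, hC⟩ := mert
  obtain ⟨Lm, hLm⟩ : ∃ Lm : ℝ, Lm = 18 * C6 ^ 2 / ε ^ 2 + 1 := ⟨_, rfl⟩
  have hLm1 : 1 ≤ Lm := by rw [hLm]; have : 0 ≤ 18 * C6 ^ 2 / ε ^ 2 := by positivity
                           linarith
  obtain ⟨R, hR⟩ := exists_nat_ge (C ^ 2 * Real.exp (2 * Lm) + 1)
  have hCe : 0 < C ^ 2 * Real.exp (2 * Lm) := by positivity
  have hR1 : 1 ≤ R := by
    have : (1 : ℝ) ≤ R := by linarith
    exact_mod_cast this
  have hR0 : (0 : ℝ) < R := by exact_mod_cast (by omega : 0 < R)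
  obtain ⟨N₂, J₀, hblock⟩ := block f hf θ hθ C7 hC7 (1 / (10 * (R : ℝ))) (by positivity) (ε / 6) (by positivity)
  obtain ⟨I₁, hI₁⟩ := quad_exp 1
  obtain ⟨I₂, hI₂⟩ := exists_nat_ge (6 * C6 / ε + 3)
  obtain ⟨N₃, hN₃⟩ := eventually_atTop.1 (params R (I₁ + I₂ + 2) hR1 (J₀ : ℝ))
  obtain ⟨N₄, hN₄⟩ := eventually_atTop.1 (log_tendsto.eventually_ge_atTop (C7 ^ 2))
  refine ⟨N₁ + N₂ + N₃ + N₄ + 3, fun N hN H hH1 hH2 z1 hz1 c hc => ?_⟩
  obtain ⟨i0, i1, p1, p2, p3, p4, p5, p6, p7⟩ := hN₃ N (by omega)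
  obtain ⟨x, hx⟩ : ∃ x, x = Real.log N := ⟨_, rfl⟩
  have hxC : C7 ^ 2 ≤ x := by rw [hx]; exact hN₄ N (by omega)
  have hx1 : 1 ≤ x := (one_le_pow₀ hC7).trans hxC
  rw [← hx] at p3 p4 p5 p6 p7
  have hx0 : 0 < x := by linarith
  have hf1 : (1 : ℝ) ≤ f := by exact_mod_cast hf
  have hHx : x ^ (1 / 2 : ℝ) ≤ H := by
    have h1 : C7 ≤ x ^ (1 / 2 : ℝ) := by
      rw [← Real.sqrt_eq_rpow]
      exact Real.le_sqrt_of_sq_le hxC
    have h2 : x ^ (1 / 2 : ℝ) * x ^ (1 / 2 : ℝ) = x := by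
      rw [← Real.rpow_add hx0]
      norm_num
    have h3 : 0 < x ^ (1 / 2 : ℝ) := by positivity
    have h4 : C7 * x ^ (1 / 2 : ℝ) ≤ C7 * H := by
      calc C7 * x ^ (1 / 2 : ℝ) ≤ x ^ (1 / 2 : ℝ) * x ^ (1 / 2 : ℝ) := mul_le_mul_of_nonneg_right h1 h3.le
        _ = x := h2
        _ ≤ C7 * H := by rw [hx]; exact hH2
    exact le_of_mul_le_mul_left h4 (by linarith)
  have hH0 : (0 : ℝ) < H := lt_of_lt_of_le (by positivity) hHx
  have hN0 : (0 : ℝ) < N := by exact_mod_cast (by omega : 0 < N)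
  obtain ⟨P, hPd⟩ : ∃ P, P = mid (2 ^ i0) (2 ^ i1) := ⟨_, rfl⟩
  have hi01 : i0 ≤ i1 := (Nat.le_mul_of_pos_right i0 (by omega)).trans p2
  have hPp : ∀ p ∈ P, p.Prime := fun p hp => by
    rw [hPd, mem_mid] at hp
    exact hp.2.2
  have hPlog : ∀ p ∈ P, i0 ≤ Nat.log 2 p ∧ Nat.log 2 p ≤ i1 := by
    intro p hp
    rw [hPd, mem_mid] at hp
    constructor
    · exact Nat.le_log_of_pow_le (by norm_num) hp.1.le
    · have := Nat.log_mono_right (b := 2) hp.2.1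
      rwa [Nat.log_pow (by norm_num)] at this
  -- the sum of the reciprocals
  obtain ⟨RPP, hRPP⟩ : ∃ RPP, RPP = RP P := ⟨_, rfl⟩
  have hRP : Lm ≤ RPP := by
    have h1 := RP_mid hC1 hC (X := 2 ^ i0) (Y := 2 ^ i1) (by
      calc 2 = 2 ^ 1 := by norm_num
        _ ≤ 2 ^ i0 := Nat.pow_le_pow_right (by norm_num) (by omega)) (Nat.pow_le_pow_right (by norm_num) hi01)
    rw [← hPd, ← hRPP] at h1
    push_cast at h1
    rw [Real.log_pow, Real.log_pow] at h1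
    have hi0r : (0 : ℝ) < i0 := by exact_mod_cast (by omega : 0 < i0)
    have hl2 : 0 < Real.log 2 := Real.log_pos (by norm_num)
    have h2 : Real.exp (2 * Lm) ≤ (i1 : ℝ) * Real.log 2 / (C ^ 2 * (i0 * Real.log 2)) := by
      rw [le_div_iff₀ (by positivity)]
      have h3 : (i0 : ℝ) * R ≤ i1 := by exact_mod_cast p2
      calc Real.exp (2 * Lm) * (C ^ 2 * (i0 * Real.log 2)) = (i0 * (C ^ 2 * Real.exp (2 * Lm))) * Real.log 2 := by ring
        _ ≤ (i0 * R) * Real.log 2 := by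
            apply mul_le_mul_of_nonneg_right _ hl2.le
            apply mul_le_mul_of_nonneg_left _ hi0r.le
            linarith
        _ ≤ i1 * Real.log 2 := mul_le_mul_of_nonneg_right h3 hl2.le
    have h4 := Real.log_le_log (Real.exp_pos _) h2
    rw [Real.log_exp] at h4
    linarith
  have hRP1 : 1 ≤ RPP := hLm1.trans hRP
  -- the number of the primes
  have hcard : (P.card : ℝ) ≤ x ^ (1 / 5 : ℝ) := by
    refine le_trans ?_ p4
    have h1 : P ⊆ Icc 1 (2 ^ i1) := fun p hp => by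
      rw [hPd, mem_mid] at hp
      exact mem_Icc.2 ⟨hp.2.2.one_le, hp.2.1⟩
    have h2 := card_le_card h1
    rw [Nat.card_Icc, Nat.add_sub_cancel] at h2
    exact_mod_cast h2
  have hcard2 : 3 * (P.card : ℝ) ^ 2 ≤ H * RPP := by
    calc 3 * (P.card : ℝ) ^ 2 ≤ 3 * (x ^ (1 / 5 : ℝ)) ^ 2 := by gcongr
      _ ≤ x ^ (1 / 2 : ℝ) := p5
      _ ≤ H := hHx
      _ ≤ H * RPP := le_mul_of_one_le_right hH0.le hRP1
  -- the pointwise bound
  have hpt : ∀ s ∈ Tf f H, ∀ n ∈ Icc 1 N, RPP * (RR s z1 n * ‖∑ h ∈ Icc 1 H, c s h * lz ((n + h : ℕ) : ℤ)‖) ≤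
      H * √(2 * RPP) * RR s z1 n + ∑ p ∈ P, RR s z1 n * ‖Gz (c s) H p n‖ := by
    intro s _ n _
    have h1 := S_le (c s) (hc s) P hPp n H
    rw [← hRPP] at h1
    have h2 : √(H * (H * RPP + 3 * (P.card : ℝ) ^ 2)) ≤ H * √(2 * RPP) := by
      have : H * √(2 * RPP) = √((H : ℝ) ^ 2 * (2 * RPP)) := by
        rw [Real.sqrt_mul (sq_nonneg (H : ℝ)) (2 * RPP), Real.sqrt_sq hH0.le]
      rw [this]
      apply Real.sqrt_le_sqrt
      have := mul_le_mul_of_nonneg_left hcard2 hH0.le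
      calc (H : ℝ) * (H * RPP + 3 * (P.card : ℝ) ^ 2) = H * (H * RPP) + H * (3 * (P.card : ℝ) ^ 2) := by ring
        _ ≤ H * (H * RPP) + H * (H * RPP) := by linarith
        _ = _ := by ring
    have h3 := mul_le_mul_of_nonneg_left (h1.trans (add_le_add h2 le_rfl)) (RR_nonneg s z1 (n : ℤ))
    rw [← mul_sum]
    calc RPP * (RR s z1 n * ‖∑ h ∈ Icc 1 H, c s h * lz ((n + h : ℕ) : ℤ)‖) =
          RR s z1 n * (RPP * ‖∑ h ∈ Icc 1 H, c s h * lz ((n + h : ℕ) : ℤ)‖) := by ring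
      _ ≤ _ := h3
      _ = _ := by ring
  have hLLN : ∑ s ∈ Tf f H, ∑ n ∈ Icc 1 N, RR s z1 n ≤ C6 * N := hsum N (by omega) H hH1 hH2 z1 hz1
  have hLL0 : 0 ≤ ∑ s ∈ Tf f H, ∑ n ∈ Icc 1 N, RR s z1 n := sum_nonneg fun s _ => sum_nonneg fun n _ => RR_nonneg s z1 n
  -- the blocks
  have hJ0r : (0 : ℝ) ≤ J₀ := Nat.cast_nonneg _
  obtain ⟨F, hF⟩ : ∃ F : ℕ → ℝ, F = fun p => ∑ s ∈ Tf f H, ∑ n ∈ Icc 1 N, RR s z1 n * ‖Gz (c s) H p n‖ := ⟨_, rfl⟩
  have hbl : ∀ i ∈ Icc i0 i1, ∑ p ∈ P with Nat.log 2 p = i, F p ≤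
      (ε / 6 * (H * N)) * (((P.filter (fun p => Nat.log 2 p = i)).card : ℝ) / 2 ^ i) + (2 * C6 * (H * N)) / (i : ℝ) ^ 2 := by
    intro i hi
    rw [mem_Icc] at hi
    obtain ⟨Q, hQ⟩ : ∃ Q, Q = P.filter (fun p => Nat.log 2 p = i) := ⟨_, rfl⟩
    rw [← hQ]
    have hi0r : (0 : ℝ) < i := by exact_mod_cast (by omega : 0 < i)
    have h2i : (2 : ℝ) ^ i ≤ x ^ (1 / 5 : ℝ) := (pow_le_pow_right₀ (by norm_num) hi.2).trans p4
    have h2iH : ((2 ^ i : ℕ) : ℝ) ≤ H := by push_cast; exact h2i.trans (p7.trans hHx)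
    have h2iHn : 2 ^ i ≤ H := by exact_mod_cast h2iH
    have hQp : ∀ p ∈ Q, p.Prime ∧ 2 ^ i ≤ p ∧ p ≤ 2 * 2 ^ i := by
      intro p hp
      rw [hQ, mem_filter] at hp
      refine ⟨hPp p hp.1, ?_, ?_⟩
      · rw [← hp.2]
        exact Nat.pow_log_le_self 2 (hPp p hp.1).ne_zero
      · rw [← pow_succ', ← hp.2]
        exact (Nat.lt_pow_succ_log_self (by norm_num) p).le
    have hc0 : (0 : ℝ) ≤ Q.card := Nat.cast_nonneg _
    by_cases hrich : (2 : ℝ) ^ i ≤ Q.card * (i : ℝ) ^ 2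
    · -- a rich block
      have hJ1 : H < 2 ^ i * (H / 2 ^ i + 1) := Nat.lt_mul_div_succ _ (by positivity)
      have hJ2 : 2 ^ i * (H / 2 ^ i + 1) ≤ 2 * H := by
        have := Nat.mul_div_le H (2 ^ i)
        rw [mul_add, mul_one]
        omega
      have hJ0 : J₀ ≤ H / 2 ^ i + 1 := by
        have g1 : (J₀ : ℝ) * 2 ^ i ≤ H := by
          calc (J₀ : ℝ) * 2 ^ i ≤ J₀ * x ^ (1 / 5 : ℝ) := mul_le_mul_of_nonneg_left h2i hJ0r
            _ ≤ x ^ (1 / 2 : ℝ) := p6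
            _ ≤ H := hHx
        have g2 : J₀ * 2 ^ i ≤ H := by exact_mod_cast g1
        have g3 : J₀ ≤ H / 2 ^ i := (Nat.le_div_iff_mul_le (by positivity)).2 g2
        omega
      have hAx : x ^ (1 / (10 * (R : ℝ))) ≤ Q.card := by
        have g1 := hI₁ i (by omega)
        have g2 : x ^ (1 / (5 * (R : ℝ))) ≤ 2 * 2 ^ i :=
          p3.trans (mul_le_mul_of_nonneg_left (pow_le_pow_right₀ (by norm_num) hi.1) (by norm_num))
        have g3 : x ^ (1 / (5 * (R : ℝ))) = (x ^ (1 / (10 * (R : ℝ)))) ^ 2 := by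
          rw [← Real.rpow_natCast, ← Real.rpow_mul hx0.le]
          congr 1
          push_cast
          field_simp
          norm_num
        obtain ⟨u, hu⟩ : ∃ u, u = x ^ (1 / (10 * (R : ℝ))) := ⟨_, rfl⟩
        have hu0 : 0 < u := by rw [hu]; positivity
        rw [g3, ← hu] at g2
        rw [← hu]
        have g4 : (1 * (i : ℝ) ^ 2 * u) ^ 2 ≤ (2 ^ i) ^ 2 := by
          calc (1 * (i : ℝ) ^ 2 * u) ^ 2 = (1 * (i : ℝ) ^ 2) ^ 2 * u ^ 2 := by ring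
            _ ≤ (1 * (i : ℝ) ^ 2) ^ 2 * (2 * 2 ^ i) := mul_le_mul_of_nonneg_left g2 (by positivity)
            _ = (2 * (1 * (i : ℝ) ^ 2) ^ 2) * 2 ^ i := by ring
            _ ≤ 2 ^ i * 2 ^ i := mul_le_mul_of_nonneg_right g1 (by positivity)
            _ = _ := by ring
        have g5 : 1 * (i : ℝ) ^ 2 * u ≤ 2 ^ i := (abs_le_of_sq_le_sq' g4 (by positivity)).2
        have : u * (i : ℝ) ^ 2 ≤ Q.card * (i : ℝ) ^ 2 := by
          calc u * (i : ℝ) ^ 2 = 1 * (i : ℝ) ^ 2 * u := by ring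
            _ ≤ _ := g5.trans hrich
        exact le_of_mul_le_mul_right this (by positivity)
      have key := hblock N (by omega) H (2 ^ i) (H / 2 ^ i + 1) Q (Nat.one_le_two_pow) h2iHn hH1 hH2 hQp hJ1.le hJ2 hJ0
        (by rw [← hx]; exact hAx) z1 hz1 c hc
      have e0 : ∑ p ∈ Q, F p = ∑ s ∈ Tf f H, ∑ p ∈ Q, ∑ n ∈ Icc 1 N, RR s z1 n * ‖Gz (c s) H p n‖ := by
        rw [hF, sum_comm]
      rw [e0]
      refine key.trans ?_
      have e1 : ε / 6 * (Q.card * ((H : ℝ) / ((2 ^ i : ℕ) : ℝ) * N)) = ε / 6 * (H * N) * (Q.card / 2 ^ i) := by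
        push_cast
        ring
      rw [e1]
      have : (0 : ℝ) ≤ 2 * C6 * (H * N) / (i : ℝ) ^ 2 := by positivity
      linarith
    · -- a poor block
      push Not at hrich
      have h1 : ∀ p ∈ Q, F p ≤ (2 * ((H : ℝ) / 2 ^ i)) * (C6 * N) := by
        intro p hp
        obtain ⟨a1, a2, a3⟩ := hQp p hp
        rw [hF]
        have h2 : ∀ s ∈ Tf f H, ∀ n ∈ Icc 1 N, RR s z1 (n : ℤ) * ‖Gz (c s) H p n‖ ≤ (2 * ((H : ℝ) / 2 ^ i)) * RR s z1 n := by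
          intro s _ n _
          rw [mul_comm]
          apply mul_le_mul_of_nonneg_right _ (RR_nonneg s z1 _)
          have := Gz_norm2 (c s) (hc s) a1 (Nat.one_le_two_pow (n := i)) a2 h2iHn n
          push_cast at this
          exact this
        refine (sum_le_sum fun s hs => sum_le_sum fun n hn => h2 s hs n hn).trans ?_
        simp only [← mul_sum]
        exact mul_le_mul_of_nonneg_left hLLN (by positivity)
      refine (sum_le_sum h1).trans ?_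
      rw [sum_const, nsmul_eq_mul]
      have h3 : (Q.card : ℝ) * (2 * ((H : ℝ) / 2 ^ i) * (C6 * N)) ≤ 2 * C6 * (H * N) / (i : ℝ) ^ 2 := by
        rw [le_div_iff₀ (by positivity)]
        have e1 : (Q.card : ℝ) * (2 * ((H : ℝ) / 2 ^ i) * (C6 * N)) * (i : ℝ) ^ 2 = (2 * C6 * (H * N)) * ((Q.card * (i : ℝ) ^ 2) / 2 ^ i) := by
          ring
        rw [e1]
        apply mul_le_of_le_one_right (by positivity)
        rw [div_le_one (by positivity)]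
        exact hrich.le
      have : (0 : ℝ) ≤ ε / 6 * (H * N) * (Q.card / 2 ^ i) := by positivity
      linarith
  have hall := blocks_sum P i0 i1 (by omega) (fun p hp => ⟨hPp p hp, hPlog p hp⟩) F
    (ε / 6 * (H * N)) (2 * C6 * (H * N)) (by positivity) (by positivity) hbl
  rw [← hRPP] at hall
  -- the conclusion
  have hfin : RPP * ∑ s ∈ Tf f H, ∑ n ∈ Icc 1 N, RR s z1 n * ‖∑ h ∈ Icc 1 H, c s h * lz ((n + h : ℕ) : ℤ)‖ ≤ RPP * (ε * (H * N)) := by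
    have hsw : ∑ s ∈ Tf f H, ∑ n ∈ Icc 1 N, ∑ p ∈ P, RR s z1 (n : ℤ) * ‖Gz (c s) H p n‖ = ∑ p ∈ P, F p := by
      rw [hF]
      simp only
      rw [sum_comm (s := P)]
      apply sum_congr rfl
      intro s _
      rw [sum_comm]
    have hexp : RPP * ∑ s ∈ Tf f H, ∑ n ∈ Icc 1 N, RR s z1 n * ‖∑ h ∈ Icc 1 H, c s h * lz ((n + h : ℕ) : ℤ)‖ ≤
        H * √(2 * RPP) * ∑ s ∈ Tf f H, ∑ n ∈ Icc 1 N, RR s z1 n + ∑ p ∈ P, F p := by
      rw [← hsw, mul_sum, mul_sum, ← sum_add_distrib]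
      apply sum_le_sum
      intro s hs
      rw [mul_sum, mul_sum, ← sum_add_distrib]
      exact sum_le_sum fun n hn => hpt s hs n hn
    refine hexp.trans ?_
    have hHN : (0 : ℝ) < H * N := by positivity
    have g1 : (H : ℝ) * √(2 * RPP) * ∑ s ∈ Tf f H, ∑ n ∈ Icc 1 N, RR s z1 n ≤ (ε / 3 * RPP) * (H * N) := by
      have g2 : √(2 * RPP) * C6 ≤ ε / 3 * RPP := by
        have g3 : (√(2 * RPP) * C6) ^ 2 ≤ (ε / 3 * RPP) ^ 2 := by
          rw [mul_pow, Real.sq_sqrt (by positivity)]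
          have g4 : 18 * C6 ^ 2 / ε ^ 2 ≤ RPP := by linarith
          rw [div_le_iff₀ (by positivity)] at g4
          have g5 := mul_le_mul_of_nonneg_left g4 (show 0 ≤ RPP / 9 by positivity)
          calc 2 * RPP * C6 ^ 2 = RPP / 9 * (18 * C6 ^ 2) := by ring
            _ ≤ RPP / 9 * (RPP * ε ^ 2) := g5
            _ = _ := by ring
        exact (abs_le_of_sq_le_sq' g3 (by positivity)).2
      calc (H : ℝ) * √(2 * RPP) * ∑ s ∈ Tf f H, ∑ n ∈ Icc 1 N, RR s z1 n ≤ H * √(2 * RPP) * (C6 * N) :=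
            mul_le_mul_of_nonneg_left hLLN (by positivity)
        _ = (√(2 * RPP) * C6) * (H * N) := by ring
        _ ≤ _ := mul_le_mul_of_nonneg_right g2 hHN.le
    have g2 : 2 * C6 * (H * N) / ((i0 : ℝ) - 1) ≤ (ε / 3 * RPP) * (H * N) := by
      have hI2 : (I₂ : ℝ) + 2 ≤ i0 := by exact_mod_cast (by omega : I₂ + 2 ≤ i0)
      have hpos : (0 : ℝ) < (i0 : ℝ) - 1 := by
        have : 0 ≤ 6 * C6 / ε := by positivity
        linarith
      rw [div_le_iff₀ hpos]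
      have g3 : 6 * C6 ≤ ε * ((i0 : ℝ) - 1) := by
        have : 6 * C6 / ε ≤ (i0 : ℝ) - 1 := by linarith
        rw [div_le_iff₀ hε] at this
        linarith
      calc 2 * C6 * (H * N) = (1 / 3) * (6 * C6) * (H * N) := by ring
        _ ≤ (1 / 3) * (ε * ((i0 : ℝ) - 1)) * (H * N) := by gcongr
        _ = (1 / 3) * (ε * ((i0 : ℝ) - 1)) * 1 * (H * N) := by ring
        _ ≤ (1 / 3) * (ε * ((i0 : ℝ) - 1)) * RPP * (H * N) := by gcongr
        _ = _ := by ring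
    calc _ ≤ (ε / 3 * RPP) * (H * N) + (ε / 6 * (H * N) * (2 * RPP) + 2 * C6 * (H * N) / ((i0 : ℝ) - 1)) := add_le_add g1 hall
      _ ≤ (ε / 3 * RPP) * (H * N) + (ε / 6 * (H * N) * (2 * RPP) + (ε / 3 * RPP) * (H * N)) := by linarith
      _ = _ := by ring
  exact le_of_mul_le_mul_left hfin (by linarith)

end Pool.Agent.H526.FC
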