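import Mathlib
import Pool.Agent.H526.FC.P10

set_option autoImplicit false

/-! Windows without rough integers; coloured configurations seen from a base point. -/

namespace Pool.Agent.H526.FC
open Finset Filter Topology
open Pool.Agent.H373R2.T7 (pz mem_pz)
open Pool.Agent.E8helper16.SL (lz lM lz_norm mrt log_tendsto Rough)

lemma phase (z : ℂ) : ∃ g : ℂ, ‖g‖ ≤ 1 ∧ g * z = (‖z‖ : ℂ) := by
  by_cases h : z = 0
  · exact ⟨0, by simp, by simp [h]⟩
  · have hz : (‖z‖ : ℂ) ≠ 0 := by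
      rw [Ne, Complex.ofReal_eq_zero, norm_eq_zero]
      exact h
    refine ⟨(starRingEnd ℂ) z / ‖z‖, ?_, ?_⟩
    · rw [norm_div, RCLike.norm_conj, Complex.norm_real, norm_norm, div_self]
      rwa [Ne, norm_eq_zero]
    · rw [div_mul_eq_mul_div, div_eq_iff hz, mul_comm, Complex.mul_conj']
      ring

/-- the case of no rough integer -/
theorem core0 (C7 : ℝ) (hC7 : 1 ≤ C7) (ε : ℝ) (hε : 0 < ε) : ∃ N₀ : ℕ, ∀ N : ℕ, N₀ ≤ N →
    ∀ H : ℕ, (H : ℝ) ≤ C7 * Real.log N → Real.log N ≤ C7 * H → ∀ c : ℕ → ℂ, (∀ h, ‖c h‖ ≤ 1) →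
      ∑ n ∈ Icc 1 N, ‖∑ h ∈ Icc 1 H, c h * lz ((n + h : ℕ) : ℤ)‖ ≤ ε * (H * N) := by
  classical
  obtain ⟨J₀, M₀, hmrt⟩ := mrt (ε / 4) (by positivity)
  have hlog : ∀ᶠ N : ℕ in atTop, 4 * C7 * Real.log N ≤ N := by
    have h1 := Pool.Agent.E8helper16.SL.log_pow_le (4 * C7) 1 1 one_pos
    filter_upwards [h1] with N h
    rw [pow_one, Real.rpow_one] at h
    exact h
  have hall := (log_tendsto.eventually_ge_atTop (C7 * (J₀ + 1))).and (hlog.and (eventually_ge_atTop (M₀ + 4)))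
  rw [eventually_atTop] at hall
  obtain ⟨N₀, hall⟩ := hall
  refine ⟨N₀, fun N hN H hH1 hH2 c hc => ?_⟩
  obtain ⟨h1, h2, h3⟩ := hall N hN
  have hHJ : (J₀ : ℝ) + 1 ≤ H := by
    have := h1.trans hH2
    exact le_of_mul_le_mul_left this (by linarith)
  have hHJ' : J₀ + 1 ≤ H := by exact_mod_cast hHJ
  have hHN : (4 : ℝ) * H ≤ N := by
    have : 4 * (H : ℝ) ≤ 4 * (C7 * Real.log N) := mul_le_mul_of_nonneg_left hH1 (by norm_num)
    linarith
  have hHN' : 4 * H ≤ N := by exact_mod_cast hHN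
  choose g hg1 hg2 using fun n : ℕ => phase (∑ h ∈ Icc 1 H, c h * lz ((n + h : ℕ) : ℤ))
  obtain ⟨g', hg'⟩ : ∃ g' : ℕ → ℂ, g' = fun m => if m ≤ N then g m else 0 := ⟨_, rfl⟩
  have hg'1 : ∀ n, ‖g' n‖ ≤ 1 := by
    intro n
    rw [hg']
    simp only
    split_ifs
    · exact hg1 n
    · simp
  have key := hmrt (N + H) (H + 1) (by omega) (by omega) (by omega) g' hg'1
  have e1 : ((∑ n ∈ Icc 1 N, ‖∑ h ∈ Icc 1 H, c h * lz ((n + h : ℕ) : ℤ)‖ : ℝ) : ℂ) =
      ∑ h ∈ Icc 1 H, c h * ∑ m ∈ Icc 1 (N + H), g' m * lM (N + H) (m + (h : ℤ)) := by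
    rw [Complex.ofReal_sum]
    have e2 : ∀ n ∈ Icc 1 N, ((‖∑ h ∈ Icc 1 H, c h * lz ((n + h : ℕ) : ℤ)‖ : ℝ) : ℂ) =
        ∑ h ∈ Icc 1 H, c h * (g n * lz ((n + h : ℕ) : ℤ)) := by
      intro n _
      rw [← hg2 n, mul_sum]
      apply sum_congr rfl
      intro h _
      ring
    rw [sum_congr rfl e2, sum_comm]
    apply sum_congr rfl
    intro h hh
    rw [mem_Icc] at hh
    rw [← mul_sum]
    congr 1
    have hsub : Icc 1 N ⊆ Icc 1 (N + H) := Icc_subset_Icc le_rfl (by omega)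
    rw [← sum_subset hsub]
    · apply sum_congr rfl
      intro n hn
      rw [mem_Icc] at hn
      rw [hg']
      simp only [if_pos hn.2]
      unfold lM
      rw [if_pos (by push_cast; omega)]
      congr 2
      
    · intro n _ hn
      rw [hg']
      have : ¬ n ≤ N := by
        intro hc2
        apply hn
        rename_i hn2
        rw [mem_Icc] at hn2 ⊢
        exact ⟨hn2.1, hc2⟩
      simp only [if_neg this, zero_mul]
  have h0 : (0 : ℝ) ≤ ∑ n ∈ Icc 1 N, ‖∑ h ∈ Icc 1 H, c h * lz ((n + h : ℕ) : ℤ)‖ := sum_nonneg fun _ _ => norm_nonneg _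
  have h4 : ∑ n ∈ Icc 1 N, ‖∑ h ∈ Icc 1 H, c h * lz ((n + h : ℕ) : ℤ)‖ =
      ‖((∑ n ∈ Icc 1 N, ‖∑ h ∈ Icc 1 H, c h * lz ((n + h : ℕ) : ℤ)‖ : ℝ) : ℂ)‖ := by
    rw [Complex.norm_real, Real.norm_eq_abs, abs_of_nonneg h0]
  rw [h4, e1]
  refine (norm_sum_le _ _).trans ?_
  have h5 : ∑ h ∈ Icc 1 H, ‖c h * ∑ m ∈ Icc 1 (N + H), g' m * lM (N + H) (m + (h : ℤ))‖ ≤
      ∑ j ∈ Ioo (-((H + 1 : ℕ) : ℤ)) ((H + 1 : ℕ) : ℤ), ‖∑ m ∈ Icc 1 (N + H), g' m * lM (N + H) (m + j)‖ := by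
    calc _ ≤ ∑ h ∈ Icc 1 H, ‖∑ m ∈ Icc 1 (N + H), g' m * lM (N + H) (m + (h : ℤ))‖ := by
          apply sum_le_sum
          intro h _
          rw [norm_mul]
          exact mul_le_of_le_one_left (norm_nonneg _) (hc h)
      _ = ∑ j ∈ (Icc 1 H).image (fun h : ℕ => (h : ℤ)), ‖∑ m ∈ Icc 1 (N + H), g' m * lM (N + H) (m + j)‖ := by
          rw [sum_image (fun a _ b _ h => by exact_mod_cast h)]
      _ ≤ _ := by
          apply sum_le_sum_of_subset_of_nonneg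
          · intro j hj
            rw [mem_image] at hj
            obtain ⟨h, hh, rfl⟩ := hj
            rw [mem_Icc] at hh
            rw [mem_Ioo]
            push_cast
            omega
          · intro _ _ _
            exact norm_nonneg _
  refine h5.trans (key.trans ?_)
  push_cast
  have a1 : (H : ℝ) + 1 ≤ 2 * H := by
    have : (1 : ℝ) ≤ H := by
      have : (0 : ℝ) ≤ J₀ := Nat.cast_nonneg _
      linarith
    linarith
  have a2 : (N : ℝ) + H ≤ 2 * N := by linarith [(Nat.cast_nonneg H : (0 : ℝ) ≤ H)]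
  have hN0 : (0 : ℝ) ≤ N := Nat.cast_nonneg _
  have hH0 : (0 : ℝ) ≤ H := Nat.cast_nonneg _
  calc ε / 4 * (H + 1) * (N + H) ≤ ε / 4 * (2 * H) * (2 * N) := by gcongr
    _ = _ := by ring

section conf
variable {a : ℕ}

open Classical in
/-- the coloured configuration of the rough integers around `n` -/
noncomputable def cz1 (L z : ℕ) (χ : ℤ → Fin a) (n : ℤ) : Finset (ℤ × Fin a) :=
  ((Icc (-(L : ℤ)) L).filter (fun t => Rg z (n + t))).image (fun t => (t, χ (n + t)))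

open Classical in
/-- the configuration around `h` given by a coloured tuple -/
noncomputable def cf {f : ℕ} (L : ℕ) (s : Fin f → ℕ) (e : Fin f → Fin a) (h : ℕ) : Finset (ℤ × Fin a) :=
  ((univ : Finset (Fin f)).filter (fun i => |(s i : ℤ) - h| ≤ L)).image (fun i => ((s i : ℤ) - h, e i))

open Classical in
/-- the rough positions after `m` -/
noncomputable def Sm (H z m : ℕ) : Finset ℕ := (Icc 1 H).filter (fun s => Rg z ((m : ℤ) + s))

lemma conf_eq {f L B z m h : ℕ} (χ : ℤ → Fin a) (s : Fin f → ℕ) (hs : ∀ x, x ∈ Sm (2 * L + B) z m ↔ ∃ i, s i = x)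
    (h1 : L < h) (h2 : h ≤ L + B) : cz1 L z χ ((m + h : ℕ) : ℤ) = cf L s (fun i => χ ((m : ℤ) + s i)) h := by
  classical
  unfold cz1 cf
  ext ⟨t, r⟩
  simp only [mem_image, mem_filter, mem_Icc, mem_univ, true_and, Prod.mk.injEq]
  constructor
  · rintro ⟨t', ⟨⟨q1, q2⟩, q3⟩, rfl, q4⟩
    have h3 : ((h : ℤ) + t').toNat ∈ Sm (2 * L + B) z m := by
      unfold Sm
      rw [mem_filter, mem_Icc]
      refine ⟨⟨by omega, by omega⟩, ?_⟩
      have e : (m : ℤ) + (((h : ℤ) + t').toNat : ℕ) = ((m + h : ℕ) : ℤ) + t' := by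
        have : ((((h : ℤ) + t').toNat : ℕ) : ℤ) = h + t' := Int.toNat_of_nonneg (by omega)
        rw [this]
        push_cast
        ring
      rw [e]
      exact q3
    obtain ⟨i, hi⟩ := (hs _).1 h3
    have hi' : (s i : ℤ) = h + t' := by
      rw [hi]
      exact Int.toNat_of_nonneg (by omega)
    refine ⟨i, ?_, ?_, ?_⟩
    · rw [hi', abs_le]
      constructor <;> omega
    · rw [hi']
      ring
    · rw [← q4, hi']
      congr 1
      push_cast
      ring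
  · rintro ⟨i, q1, q2, q3⟩
    have h3 := (hs (s i)).2 ⟨i, rfl⟩
    unfold Sm at h3
    rw [mem_filter, mem_Icc] at h3
    rw [abs_le] at q1
    refine ⟨t, ⟨⟨by omega, by omega⟩, ?_⟩, rfl, ?_⟩
    · have e : ((m + h : ℕ) : ℤ) + t = (m : ℤ) + s i := by
        push_cast
        omega
      rw [e]
      exact h3.2
    · rw [← q3]
      congr 1
      push_cast
      omega

/-- the coefficients given by a coloured tuple and a residue class -/
noncomputable def cc {f : ℕ} (q L B : ℕ) (Φ : ℕ → Finset (ℤ × Fin a) → ℂ) (e : (Fin f → Fin a) × Fin q) (s : Fin f → ℕ) (h : ℕ) : ℂ :=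
  if L < h ∧ h ≤ L + B then Φ (((e.2 : ℕ) + h) % q) (cf L s e.1 h) else 0

lemma cc_norm {f : ℕ} (q L B : ℕ) (Φ : ℕ → Finset (ℤ × Fin a) → ℂ) (hΦ : ∀ r S, ‖Φ r S‖ ≤ 1) (e : (Fin f → Fin a) × Fin q)
    (s : Fin f → ℕ) (h : ℕ) : ‖cc q L B Φ e s h‖ ≤ 1 := by
  unfold cc
  split_ifs
  · exact hΦ _ _
  · simp

/-- the sum over the window -/
noncomputable def Tm (q L B z : ℕ) (χ : ℤ → Fin a) (Φ : ℕ → Finset (ℤ × Fin a) → ℂ) (m : ℕ) : ℂ :=
  ∑ h ∈ Icc 1 (2 * L + B), (if L < h ∧ h ≤ L + B then Φ ((m + h) % q) (cz1 L z χ ((m + h : ℕ) : ℤ)) else 0) * lz ((m + h : ℕ) : ℤ)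

lemma Tm_eq {f : ℕ} {q L B z m : ℕ} (hq : 1 ≤ q) (χ : ℤ → Fin a) (Φ : ℕ → Finset (ℤ × Fin a) → ℂ) (s : Fin f → ℕ)
    (hs : ∀ x, x ∈ Sm (2 * L + B) z m ↔ ∃ i, s i = x) :
    Tm q L B z χ Φ m = ∑ h ∈ Icc 1 (2 * L + B), cc q L B Φ ((fun i => χ ((m : ℤ) + s i)), ⟨m % q, Nat.mod_lt _ (by omega)⟩) s h *
      lz ((m + h : ℕ) : ℤ) := by
  unfold Tm
  apply sum_congr rfl
  intro h _
  congr 1
  unfold cc
  split_ifs with hh
  · rw [conf_eq χ s hs hh.1 hh.2]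
    congr 1
    simp only [Nat.mod_add_mod]
  · rfl

/-- the windows with exactly `f ≥ 1` rough integers -/
lemma Tm_sum {f : ℕ} {q L B z N : ℕ} (hq : 1 ≤ q) (χ : ℤ → Fin a) (Φ : ℕ → Finset (ℤ × Fin a) → ℂ) :
    ∑ m ∈ (Icc 1 N).filter (fun m => (Sm (2 * L + B) z m).card = f), ‖Tm q L B z χ Φ m‖ ≤
      ∑ e : (Fin f → Fin a) × Fin q, ∑ s ∈ Tf f (2 * L + B), ∑ m ∈ Icc 1 N, RR s z m *
        ‖∑ h ∈ Icc 1 (2 * L + B), cc q L B Φ e s h * lz ((m + h : ℕ) : ℤ)‖ := by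
  classical
  have h1 : ∀ m ∈ (Icc 1 N).filter (fun m => (Sm (2 * L + B) z m).card = f), ‖Tm q L B z χ Φ m‖ ≤
      ∑ e : (Fin f → Fin a) × Fin q, ∑ s ∈ Tf f (2 * L + B), RR s z m *
        ‖∑ h ∈ Icc 1 (2 * L + B), cc q L B Φ e s h * lz ((m + h : ℕ) : ℤ)‖ := by
    intro m hm
    rw [mem_filter] at hm
    obtain ⟨s, hsd⟩ : ∃ s : Fin f → ℕ, s = fun i => (Sm (2 * L + B) z m).orderEmbOfFin hm.2 i := ⟨_, rfl⟩
    have hs : ∀ x, x ∈ Sm (2 * L + B) z m ↔ ∃ i, s i = x := by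
      intro x
      have h2 := Finset.range_orderEmbOfFin (Sm (2 * L + B) z m) hm.2
      rw [← mem_coe, ← h2, Set.mem_range, hsd]
    have hsT : s ∈ Tf f (2 * L + B) := by
      rw [mem_Tf]
      refine ⟨fun k => ?_, ?_⟩
      · have := (hs (s k)).2 ⟨k, rfl⟩
        unfold Sm at this
        rw [mem_filter, mem_Icc] at this
        exact this.1
      · rw [hsd]
        exact ((Sm (2 * L + B) z m).orderEmbOfFin hm.2).injective
    have hRR : RR s z m = 1 := by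
      unfold RR
      rw [if_pos]
      rw [rough_Rg]
      intro i
      have := (hs (s i)).2 ⟨i, rfl⟩
      unfold Sm at this
      rw [mem_filter] at this
      have e : cz s 0 i = (s i : ℤ) := by
        unfold cz
        ring
      rw [e]
      exact this.2
    obtain ⟨e0, he0⟩ : ∃ e0 : (Fin f → Fin a) × Fin q, e0 = ((fun i => χ ((m : ℤ) + s i)), ⟨m % q, Nat.mod_lt _ (by omega)⟩) := ⟨_, rfl⟩
    have key := Tm_eq hq χ Φ s hs
    rw [← he0] at key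
    obtain ⟨G, hG⟩ : ∃ G : (Fin f → Fin a) × Fin q → (Fin f → ℕ) → ℝ, G = fun e s => RR s z m *
        ‖∑ h ∈ Icc 1 (2 * L + B), cc q L B Φ e s h * lz ((m + h : ℕ) : ℤ)‖ := ⟨_, rfl⟩
    have hG0 : ∀ e s, 0 ≤ G e s := by
      intro e s
      rw [hG]
      exact mul_nonneg (RR_nonneg s z m) (norm_nonneg _)
    have e1 : ‖Tm q L B z χ Φ m‖ = G e0 s := by
      rw [hG]
      simp only
      rw [hRR, one_mul, key]
    have e2 : G e0 s ≤ ∑ s ∈ Tf f (2 * L + B), G e0 s := single_le_sum (fun s _ => hG0 e0 s) hsT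
    have e3 : ∑ s ∈ Tf f (2 * L + B), G e0 s ≤ ∑ e : (Fin f → Fin a) × Fin q, ∑ s ∈ Tf f (2 * L + B), G e s :=
      single_le_sum (f := fun e => ∑ s ∈ Tf f (2 * L + B), G e s) (fun e _ => sum_nonneg fun s _ => hG0 e s) (mem_univ e0)
    rw [e1]
    refine (e2.trans e3).trans (le_of_eq ?_)
    rw [hG]
  refine (sum_le_sum h1).trans ?_
  refine (sum_le_sum_of_subset_of_nonneg (filter_subset _ _) (fun m _ _ => ?_)).trans (le_of_eq ?_)
  · exact sum_nonneg fun e _ => sum_nonneg fun s _ => mul_nonneg (RR_nonneg s z m) (norm_nonneg _)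
  · rw [sum_comm]
    apply sum_congr rfl
    intro e _
    rw [sum_comm]

/-- the number of the windows with many rough integers -/
lemma many {H z N K : ℕ} : (K : ℝ) * (((Icc 1 N).filter (fun m => K ≤ (Sm H z m).card)).card : ℝ) ≤
    ∑ s ∈ Tf 1 H, ∑ m ∈ Icc 1 N, RR s z m := by
  classical
  rw [sum_comm]
  have h1 : ∀ m ∈ Icc 1 N, ((Sm H z m).card : ℝ) ≤ ∑ s ∈ Tf 1 H, RR s z m := by
    intro m _
    have h2 : ((Sm H z m).card : ℝ) = ∑ s ∈ (Sm H z m).image (fun x => (fun _ : Fin 1 => x)), RR s z m := by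
      rw [sum_image (fun x _ y _ h => congrFun h 0), card_eq_sum_ones]
      push_cast
      apply sum_congr rfl
      intro x hx
      unfold Sm at hx
      rw [mem_filter] at hx
      unfold RR
      rw [if_pos]
      rw [rough_Rg]
      intro i
      have e : cz (fun _ : Fin 1 => x) 0 i = (x : ℤ) := by
        unfold cz
        ring
      rw [e]
      exact hx.2
    rw [h2]
    apply sum_le_sum_of_subset_of_nonneg
    · intro s hs
      rw [mem_image] at hs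
      obtain ⟨x, hx, rfl⟩ := hs
      unfold Sm at hx
      rw [mem_filter, mem_Icc] at hx
      rw [mem_Tf]
      exact ⟨fun _ => hx.1, fun i j _ => Subsingleton.elim i j⟩
    · intro s _ _
      exact RR_nonneg s z m
  refine le_trans ?_ (sum_le_sum h1)
  calc (K : ℝ) * (((Icc 1 N).filter (fun m => K ≤ (Sm H z m).card)).card : ℝ) =
        ∑ m ∈ (Icc 1 N).filter (fun m => K ≤ (Sm H z m).card), (K : ℝ) := by
        rw [sum_const, nsmul_eq_mul]
        ring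
    _ ≤ ∑ m ∈ (Icc 1 N).filter (fun m => K ≤ (Sm H z m).card), ((Sm H z m).card : ℝ) := by
        apply sum_le_sum
        intro m hm
        exact_mod_cast (mem_filter.1 hm).2
    _ ≤ _ := sum_le_sum_of_subset_of_nonneg (filter_subset _ _) (fun _ _ _ => Nat.cast_nonneg _)

lemma Tm_le (q L B z : ℕ) (χ : ℤ → Fin a) (Φ : ℕ → Finset (ℤ × Fin a) → ℂ) (hΦ : ∀ r S, ‖Φ r S‖ ≤ 1) (m : ℕ) :
    ‖Tm q L B z χ Φ m‖ ≤ B := by
  classical
  unfold Tm
  have e : ∑ h ∈ Icc 1 (2 * L + B), (if L < h ∧ h ≤ L + B then Φ ((m + h) % q) (cz1 L z χ ((m + h : ℕ) : ℤ)) else 0) * lz ((m + h : ℕ) : ℤ) =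
      ∑ h ∈ (Icc 1 (2 * L + B)).filter (fun h => L < h ∧ h ≤ L + B), Φ ((m + h) % q) (cz1 L z χ ((m + h : ℕ) : ℤ)) * lz ((m + h : ℕ) : ℤ) := by
    rw [sum_filter]
    apply sum_congr rfl
    intro h _
    split_ifs
    · rfl
    · rw [zero_mul]
  rw [e]
  refine (norm_sum_le _ _).trans ?_
  have h1 : ∀ h ∈ (Icc 1 (2 * L + B)).filter (fun h => L < h ∧ h ≤ L + B),
      ‖Φ ((m + h) % q) (cz1 L z χ ((m + h : ℕ) : ℤ)) * lz ((m + h : ℕ) : ℤ)‖ ≤ 1 := by
    intro h _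
    rw [norm_mul]
    exact mul_le_one₀ (hΦ _ _) (norm_nonneg _) (lz_norm _)
  refine (sum_le_sum h1).trans ?_
  rw [sum_const, nsmul_eq_mul, mul_one]
  have h2 : (Icc 1 (2 * L + B)).filter (fun h => L < h ∧ h ≤ L + B) ⊆ Ioc L (L + B) := by
    intro h hh
    rw [mem_filter] at hh
    exact mem_Ioc.2 hh.2
  have h3 := card_le_card h2
  rw [Nat.card_Ioc] at h3
  have h4 : ((Icc 1 (2 * L + B)).filter (fun h => L < h ∧ h ≤ L + B)).card ≤ B := by omega
  exact_mod_cast h4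

end conf

end Pool.Agent.H526.FC
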