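import Mathlib
import Pool.Agent.H526.FC.P11

set_option autoImplicit false

/-! The Liouville function and the coloured configurations of the rough integers: the assembly. -/

namespace Pool.Agent.H526.FC
open Finset Filter Topology
open Pool.Agent.H373R2.T7 (pz mem_pz)
open Pool.Agent.E8helper16.SL (lz lM lz_norm mrt log_tendsto Rough)

lemma RR_le_one {f : ℕ} (s : Fin f → ℕ) (z : ℕ) (n : ℤ) : RR s z n ≤ 1 := by
  unfold RR
  split_ifs <;> norm_num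

/-- the core estimate for all numbers of rough integers -/
theorem coreAll (f : ℕ) (θ : ℝ) (hθ : 0 < θ) (C7 : ℝ) (hC7 : 1 ≤ C7) (ε : ℝ) (hε : 0 < ε) :
    ∃ N₀ : ℕ, ∀ N : ℕ, N₀ ≤ N →
    ∀ H : ℕ, (H : ℝ) ≤ C7 * Real.log N → Real.log N ≤ C7 * H → ∀ z1 : ℕ, (N : ℝ) ^ θ ≤ z1 + 1 →
      ∀ c : (Fin f → ℕ) → ℕ → ℂ, (∀ s h, ‖c s h‖ ≤ 1) →
      ∑ s ∈ Tf f H, ∑ n ∈ Icc 1 N, RR s z1 n * ‖∑ h ∈ Icc 1 H, c s h * lz ((n + h : ℕ) : ℤ)‖ ≤ ε * (H * N) := by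
  rcases Nat.eq_zero_or_pos f with h0 | h0
  · subst h0
    obtain ⟨N₀, h⟩ := core0 C7 hC7 ε hε
    refine ⟨N₀, fun N hN H hH1 hH2 z1 _ c hc => ?_⟩
    have h1 : ∀ s ∈ Tf 0 H, ∑ n ∈ Icc 1 N, RR s z1 n * ‖∑ h ∈ Icc 1 H, c s h * lz ((n + h : ℕ) : ℤ)‖ ≤ ε * (H * N) := by
      intro s _
      refine le_trans (sum_le_sum fun n _ => ?_) (h N hN H hH1 hH2 (c s) (hc s))
      exact mul_le_of_le_one_left (norm_nonneg _) (RR_le_one s z1 n)
    refine (sum_le_sum h1).trans ?_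
    rw [sum_const, nsmul_eq_mul]
    have h2 := card_Tf 0 H
    rw [pow_zero] at h2
    exact mul_le_of_le_one_left (by positivity) h2
  · exact core f h0 θ hθ C7 hC7 ε hε

lemma tele (Ψ : ℕ → ℂ) (m L k : ℕ) : ‖Ψ (m + (L + k)) - Ψ (m + L)‖ ≤ ∑ j ∈ Ico L (L + k), ‖Ψ (m + j + 1) - Ψ (m + j)‖ := by
  induction k with
  | zero => simp
  | succ k ih =>
    have e : Ico L (L + (k + 1)) = insert (L + k) (Ico L (L + k)) := by
      ext j
      simp only [mem_insert, mem_Ico]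
      omega
    rw [e, sum_insert (by simp)]
    have h1 : Ψ (m + (L + (k + 1))) - Ψ (m + L) = (Ψ (m + (L + k) + 1) - Ψ (m + (L + k))) + (Ψ (m + (L + k)) - Ψ (m + L)) := by
      have : m + (L + (k + 1)) = m + (L + k) + 1 := by ring
      rw [this]
      ring
    rw [h1]
    exact (norm_add_le _ _).trans (add_le_add le_rfl ih)

section asm
variable {a : ℕ}

/-- the average over the base points -/
lemma avg_base (F : ℕ → ℂ) (hF : ∀ n, ‖F n‖ ≤ 1) (N L B : ℕ) (hN : L + B ≤ N) :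
    ‖(B : ℂ) * ∑ n ∈ Icc 1 N, F n - ∑ h ∈ Ioc L (L + B), ∑ m ∈ Icc 1 (N - (L + B)), F (m + h)‖ ≤ B * (L + B) := by
  classical
  have h1 : ∀ h ∈ Ioc L (L + B), ‖∑ n ∈ Icc 1 N, F n - ∑ m ∈ Icc 1 (N - (L + B)), F (m + h)‖ ≤ L + B := by
    intro h hh
    rw [mem_Ioc] at hh
    have e1 : ∑ m ∈ Icc 1 (N - (L + B)), F (m + h) = ∑ n ∈ Icc (1 + h) (N - (L + B) + h), F n := by
      rw [← image_add_right_Icc, sum_image (fun x _ y _ hxy => by simpa using hxy)]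
    have hsub : Icc (1 + h) (N - (L + B) + h) ⊆ Icc 1 N := Icc_subset_Icc (by omega) (by omega)
    rw [e1, ← sum_sdiff hsub, add_sub_cancel_right]
    refine (norm_sum_le _ _).trans ((sum_le_sum fun n _ => hF n).trans ?_)
    rw [sum_const, nsmul_eq_mul, mul_one, card_sdiff_of_subset hsub, Nat.card_Icc, Nat.card_Icc]
    have : N + 1 - 1 - (N - (L + B) + h + 1 - (1 + h)) ≤ L + B := by omega
    exact_mod_cast this
  have e2 : (B : ℂ) * ∑ n ∈ Icc 1 N, F n = ∑ _h ∈ Ioc L (L + B), ∑ n ∈ Icc 1 N, F n := by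
    rw [sum_const, Nat.card_Ioc, nsmul_eq_mul]
    congr 2
    omega
  rw [e2, ← sum_sub_distrib]
  refine (norm_sum_le _ _).trans ((sum_le_sum h1).trans (le_of_eq ?_))
  rw [sum_const, Nat.card_Ioc, nsmul_eq_mul]
  congr 2
  omega

/-- freezing the slowly varying factor -/
lemma freeze (W : ℕ → ℂ) (hW : ∀ n, ‖W n‖ ≤ 1) (Ψ : ℕ → ℂ) (N L B : ℕ) (hN : L + B ≤ N) :
    ‖∑ h ∈ Ioc L (L + B), ∑ m ∈ Icc 1 (N - (L + B)), W (m + h) * Ψ (m + h) -
      ∑ m ∈ Icc 1 (N - (L + B)), Ψ (m + L) * ∑ h ∈ Ioc L (L + B), W (m + h)‖ ≤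
      B * (B * ∑ n ∈ Icc 1 N, ‖Ψ (n + 1) - Ψ n‖) := by
  classical
  have e1 : ∑ h ∈ Ioc L (L + B), ∑ m ∈ Icc 1 (N - (L + B)), W (m + h) * Ψ (m + h) -
      ∑ m ∈ Icc 1 (N - (L + B)), Ψ (m + L) * ∑ h ∈ Ioc L (L + B), W (m + h) =
      ∑ h ∈ Ioc L (L + B), ∑ m ∈ Icc 1 (N - (L + B)), W (m + h) * (Ψ (m + h) - Ψ (m + L)) := by
    have e2 : ∑ m ∈ Icc 1 (N - (L + B)), Ψ (m + L) * ∑ h ∈ Ioc L (L + B), W (m + h) =
        ∑ h ∈ Ioc L (L + B), ∑ m ∈ Icc 1 (N - (L + B)), Ψ (m + L) * W (m + h) := by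
      rw [sum_comm]
      apply sum_congr rfl
      intro m _
      rw [mul_sum]
    rw [e2, ← sum_sub_distrib]
    apply sum_congr rfl
    intro h _
    rw [← sum_sub_distrib]
    apply sum_congr rfl
    intro m _
    ring
  rw [e1]
  have h1 : ∀ h ∈ Ioc L (L + B), ‖∑ m ∈ Icc 1 (N - (L + B)), W (m + h) * (Ψ (m + h) - Ψ (m + L))‖ ≤
      B * ∑ n ∈ Icc 1 N, ‖Ψ (n + 1) - Ψ n‖ := by
    intro h hh
    rw [mem_Ioc] at hh
    have h2 : ∀ m ∈ Icc 1 (N - (L + B)), ‖W (m + h) * (Ψ (m + h) - Ψ (m + L))‖ ≤ ∑ j ∈ Ico L (L + B), ‖Ψ (m + j + 1) - Ψ (m + j)‖ := by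
      intro m _
      rw [norm_mul]
      refine (mul_le_of_le_one_left (norm_nonneg _) (hW _)).trans ?_
      obtain ⟨k, rfl⟩ := Nat.exists_eq_add_of_le hh.1.le
      refine (tele Ψ m L k).trans ?_
      apply sum_le_sum_of_subset_of_nonneg
      · exact Ico_subset_Ico le_rfl hh.2
      · intro _ _ _
        exact norm_nonneg _
    refine (norm_sum_le _ _).trans ((sum_le_sum h2).trans ?_)
    rw [sum_comm]
    have h3 : ∀ j ∈ Ico L (L + B), ∑ m ∈ Icc 1 (N - (L + B)), ‖Ψ (m + j + 1) - Ψ (m + j)‖ ≤ ∑ n ∈ Icc 1 N, ‖Ψ (n + 1) - Ψ n‖ := by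
      intro j hj
      rw [mem_Ico] at hj
      have e3 : ∑ m ∈ Icc 1 (N - (L + B)), ‖Ψ (m + j + 1) - Ψ (m + j)‖ = ∑ n ∈ Icc (1 + j) (N - (L + B) + j), ‖Ψ (n + 1) - Ψ n‖ := by
        rw [← image_add_right_Icc, sum_image (fun x _ y _ hxy => by simpa using hxy)]
      rw [e3]
      apply sum_le_sum_of_subset_of_nonneg
      · exact Icc_subset_Icc (by omega) (by omega)
      · intro _ _ _
        exact norm_nonneg _
    refine (sum_le_sum h3).trans (le_of_eq ?_)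
    rw [sum_const, Nat.card_Ico, nsmul_eq_mul]
    congr 2
    omega
  refine (norm_sum_le _ _).trans ((sum_le_sum h1).trans (le_of_eq ?_))
  rw [sum_const, Nat.card_Ioc, nsmul_eq_mul]
  congr 2
  omega

/-- the sum over the base points, according to the number of the rough integers -/
lemma split_sum {q L B z N K : ℕ} (hq : 1 ≤ q) (χ : ℤ → Fin a) (Φ : ℕ → Finset (ℤ × Fin a) → ℂ) (hΦ : ∀ r S, ‖Φ r S‖ ≤ 1)
    (X : ℝ)
    (hX : ∀ f < K, ∀ e : (Fin f → Fin a) × Fin q, ∑ s ∈ Tf f (2 * L + B), ∑ m ∈ Icc 1 N, RR s z m *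
        ‖∑ h ∈ Icc 1 (2 * L + B), cc q L B Φ e s h * lz ((m + h : ℕ) : ℤ)‖ ≤ X) (Y : ℝ)
    (hY : ∑ s ∈ Tf 1 (2 * L + B), ∑ m ∈ Icc 1 N, RR s z m ≤ Y) :
    K * ∑ m ∈ Icc 1 N, ‖Tm q L B z χ Φ m‖ ≤ K * ((∑ f ∈ range K, ((a ^ f * q : ℕ) : ℝ)) * X) + B * Y := by
  classical
  rw [← sum_filter_add_sum_filter_not (Icc 1 N) (fun m => K ≤ (Sm (2 * L + B) z m).card), mul_add, add_comm]
  apply add_le_add
  · apply mul_le_mul_of_nonneg_left _ (Nat.cast_nonneg K)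
    have hmaps : ∀ m ∈ (Icc 1 N).filter (fun m => ¬ K ≤ (Sm (2 * L + B) z m).card), (Sm (2 * L + B) z m).card ∈ range K := by
      intro m hm
      rw [mem_filter] at hm
      rw [mem_range]
      omega
    rw [← sum_fiberwise_of_maps_to hmaps, sum_mul]
    apply sum_le_sum
    intro f hf
    rw [mem_range] at hf
    have h1 : ∑ m ∈ ((Icc 1 N).filter (fun m => ¬ K ≤ (Sm (2 * L + B) z m).card)) with (Sm (2 * L + B) z m).card = f, ‖Tm q L B z χ Φ m‖ ≤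
        ∑ m ∈ (Icc 1 N).filter (fun m => (Sm (2 * L + B) z m).card = f), ‖Tm q L B z χ Φ m‖ := by
      apply sum_le_sum_of_subset_of_nonneg
      · intro m hm
        rw [mem_filter, mem_filter] at hm
        exact mem_filter.2 ⟨hm.1.1, hm.2⟩
      · intro _ _ _
        exact norm_nonneg _
    refine h1.trans ((Tm_sum hq χ Φ).trans ((sum_le_sum fun e _ => hX f hf e).trans (le_of_eq ?_)))
    rw [sum_const, card_univ, Fintype.card_prod, Fintype.card_fun, Fintype.card_fin, Fintype.card_fin, Fintype.card_fin, nsmul_eq_mul]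
  · have h1 : ∑ m ∈ (Icc 1 N).filter (fun m => K ≤ (Sm (2 * L + B) z m).card), ‖Tm q L B z χ Φ m‖ ≤
        B * (((Icc 1 N).filter (fun m => K ≤ (Sm (2 * L + B) z m).card)).card : ℝ) := by
      refine (sum_le_sum fun m _ => Tm_le q L B z χ Φ hΦ m).trans (le_of_eq ?_)
      rw [sum_const, nsmul_eq_mul, mul_comm]
    have h2 := (many (H := 2 * L + B) (z := z) (N := N) (K := K)).trans hY
    have h3 := mul_le_mul_of_nonneg_left h2 (Nat.cast_nonneg B : (0 : ℝ) ≤ B)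
    have h4 := mul_le_mul_of_nonneg_left h1 (Nat.cast_nonneg K : (0 : ℝ) ≤ K)
    refine h4.trans (le_trans (le_of_eq ?_) h3)
    ring

end asm

/-- the numerical end -/
lemma num_end {x : ℝ} {L B N K Eq ε' H TV V δ ε C6 C7 l : ℝ} (hB : 0 < B) (hN : 0 < N) (hK : 0 < K) (hl : 0 < l) (hV : 0 ≤ V)
    (hδ : 0 < δ) (hε : 0 < ε) (hC7 : 1 ≤ C7)
    (hE : 0 ≤ Eq) (h1 : B * x ≤ B * (L + B) + (B * (B * TV) + (Eq * (ε' * (H * N)) + B * (C6 * N) / K)))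
    (hLB : L + B ≤ ε / 8 * N) (hBl : B ≤ δ * l) (hTV : TV ≤ V * N / l) (hδV : δ * V ≤ ε / 8)
    (hHB : H ≤ 2 * C7 / δ * B) (hε' : ε' = ε * δ / (16 * C7 * (Eq + 1))) (hKC : 8 * C6 ≤ ε * K) (hTV0 : 0 ≤ TV) (hH0 : 0 ≤ H) : x ≤ ε * N := by
  have hE1 : 0 < Eq + 1 := by linarith
  have hε'0 : 0 < ε' := by rw [hε']; positivity
  have a1 : B * TV ≤ ε / 8 * N := by
    calc B * TV ≤ (δ * l) * (V * N / l) := mul_le_mul hBl hTV hTV0 (by positivity)
      _ = (δ * V) * N := by field_simp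
      _ ≤ ε / 8 * N := mul_le_mul_of_nonneg_right hδV hN.le
  have a2 : Eq * (ε' * (H * N)) ≤ B * (ε / 8 * N) := by
    have b1 : ε' * (H * N) ≤ ε' * (2 * C7 / δ * B * N) := by
      apply mul_le_mul_of_nonneg_left _ hε'0.le
      exact mul_le_mul_of_nonneg_right hHB hN.le
    have b2 : Eq * (ε' * (H * N)) ≤ (Eq + 1) * (ε' * (2 * C7 / δ * B * N)) := by
      exact mul_le_mul (by linarith) b1 (by positivity) hE1.le
    refine b2.trans (le_of_eq ?_)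
    rw [hε']
    field_simp
    ring
  have a3 : B * (C6 * N) / K ≤ B * (ε / 8 * N) := by
    rw [div_le_iff₀ hK]
    have := mul_le_mul_of_nonneg_left hKC (by positivity : (0 : ℝ) ≤ B * N / 8)
    calc B * (C6 * N) = B * N / 8 * (8 * C6) := by ring
      _ ≤ B * N / 8 * (ε * K) := this
      _ = _ := by ring
  have a4 : B * (L + B) ≤ B * (ε / 8 * N) := mul_le_mul_of_nonneg_left hLB hB.le
  have a5 : B * (B * TV) ≤ B * (ε / 8 * N) := mul_le_mul_of_nonneg_left a1 hB.le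
  have a6 : B * x ≤ B * (ε * N) := by
    have : 0 ≤ B * (ε / 8 * N) := by positivity
    have e : B * (ε * N) = 8 * (B * (ε / 8 * N)) := by ring
    linarith
  exact le_of_mul_le_mul_left a6 hB

end Pool.Agent.H526.FC
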