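import Mathlib
import Pool.Agent.H526.FC.P12

set_option autoImplicit false

/-! The Liouville function and the coloured configurations of the rough integers: the end. -/

namespace Pool.Agent.H526.FC
open Finset Filter Topology
open Pool.Agent.H373R2.T7 (pz mem_pz)
open Pool.Agent.E8helper16.SL (lz lM lz_norm mrt log_tendsto Rough)

section fin
variable {a : ℕ}

/-- one summand -/
noncomputable def Wf (q L z : ℕ) (χ : ℤ → Fin a) (Φ : ℕ → Finset (ℤ × Fin a) → ℂ) (n : ℕ) : ℂ :=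
  lz (n : ℤ) * Φ (n % q) (cz1 L z χ (n : ℤ))

lemma Wf_norm (q L z : ℕ) (χ : ℤ → Fin a) (Φ : ℕ → Finset (ℤ × Fin a) → ℂ) (hΦ : ∀ r S, ‖Φ r S‖ ≤ 1) (n : ℕ) :
    ‖Wf q L z χ Φ n‖ ≤ 1 := by
  unfold Wf
  rw [norm_mul]
  exact mul_le_one₀ (lz_norm _) (norm_nonneg _) (hΦ _ _)

lemma Tm_W (q L B z : ℕ) (χ : ℤ → Fin a) (Φ : ℕ → Finset (ℤ × Fin a) → ℂ) (m : ℕ) :
    Tm q L B z χ Φ m = ∑ h ∈ Ioc L (L + B), Wf q L z χ Φ (m + h) := by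
  classical
  unfold Tm
  have hsub : Ioc L (L + B) ⊆ Icc 1 (2 * L + B) := by
    intro h hh
    rw [mem_Ioc] at hh
    rw [mem_Icc]
    omega
  rw [← sum_subset hsub]
  · apply sum_congr rfl
    intro h hh
    rw [mem_Ioc] at hh
    rw [if_pos hh]
    unfold Wf
    rw [mul_comm]
  · intro h _ hh
    rw [mem_Ioc] at hh
    rw [if_neg hh, zero_mul]

/-- the sum with the slowly varying factor -/
lemma main_bd {q L B z N K : ℕ} (hq : 1 ≤ q) (hK : 1 ≤ K) (hLB : L + B ≤ N) (χ : ℤ → Fin a) (Φ : ℕ → Finset (ℤ × Fin a) → ℂ)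
    (hΦ : ∀ r S, ‖Φ r S‖ ≤ 1) (Ψ : ℕ → ℂ) (hΨ : ∀ n, ‖Ψ n‖ ≤ 1) (X : ℝ)
    (hX : ∀ f < K, ∀ e : (Fin f → Fin a) × Fin q, ∑ s ∈ Tf f (2 * L + B), ∑ m ∈ Icc 1 N, RR s z m *
        ‖∑ h ∈ Icc 1 (2 * L + B), cc q L B Φ e s h * lz ((m + h : ℕ) : ℤ)‖ ≤ X) (Y : ℝ)
    (hY : ∑ s ∈ Tf 1 (2 * L + B), ∑ m ∈ Icc 1 N, RR s z m ≤ Y) :
    (B : ℝ) * ‖∑ n ∈ Icc 1 N, Wf q L z χ Φ n * Ψ n‖ ≤ B * (L + B) + (B * (B * ∑ n ∈ Icc 1 N, ‖Ψ (n + 1) - Ψ n‖) +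
      ((∑ f ∈ range K, ((a ^ f * q : ℕ) : ℝ)) * X + B * Y / K)) := by
  have hW := Wf_norm q L z χ Φ hΦ
  have hF : ∀ n, ‖Wf q L z χ Φ n * Ψ n‖ ≤ 1 := by
    intro n
    rw [norm_mul]
    exact mul_le_one₀ (hW n) (norm_nonneg _) (hΨ n)
  have h1 := avg_base (fun n => Wf q L z χ Φ n * Ψ n) hF N L B hLB
  have h2 := freeze (Wf q L z χ Φ) hW Ψ N L B hLB
  have h3 := split_sum hq χ Φ hΦ X hX Y hY
  have hKp : (0 : ℝ) < K := by exact_mod_cast hK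
  have h4 : ∑ m ∈ Icc 1 N, ‖Tm q L B z χ Φ m‖ ≤ (∑ f ∈ range K, ((a ^ f * q : ℕ) : ℝ)) * X + B * Y / K := by
    apply le_of_mul_le_mul_left _ hKp
    refine h3.trans (le_of_eq ?_)
    field_simp
  have h5 : ‖∑ m ∈ Icc 1 (N - (L + B)), Ψ (m + L) * ∑ h ∈ Ioc L (L + B), Wf q L z χ Φ (m + h)‖ ≤
      ∑ m ∈ Icc 1 N, ‖Tm q L B z χ Φ m‖ := by
    refine (norm_sum_le _ _).trans ?_
    have h6 : ∀ m ∈ Icc 1 (N - (L + B)), ‖Ψ (m + L) * ∑ h ∈ Ioc L (L + B), Wf q L z χ Φ (m + h)‖ ≤ ‖Tm q L B z χ Φ m‖ := by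
      intro m _
      rw [norm_mul, Tm_W]
      exact mul_le_of_le_one_left (norm_nonneg _) (hΨ _)
    refine (sum_le_sum h6).trans ?_
    apply sum_le_sum_of_subset_of_nonneg
    · exact Icc_subset_Icc le_rfl (Nat.sub_le _ _)
    · intro _ _ _
      exact norm_nonneg _
  have e0 : (B : ℝ) * ‖∑ n ∈ Icc 1 N, Wf q L z χ Φ n * Ψ n‖ = ‖(B : ℂ) * ∑ n ∈ Icc 1 N, Wf q L z χ Φ n * Ψ n‖ := by
    rw [norm_mul, Complex.norm_natCast]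
  rw [e0]
  have h7 := norm_sub_norm_le ((B : ℂ) * ∑ n ∈ Icc 1 N, Wf q L z χ Φ n * Ψ n)
    (∑ h ∈ Ioc L (L + B), ∑ m ∈ Icc 1 (N - (L + B)), Wf q L z χ Φ (m + h) * Ψ (m + h))
  have h8 := norm_sub_norm_le (∑ h ∈ Ioc L (L + B), ∑ m ∈ Icc 1 (N - (L + B)), Wf q L z χ Φ (m + h) * Ψ (m + h))
    (∑ m ∈ Icc 1 (N - (L + B)), Ψ (m + L) * ∑ h ∈ Ioc L (L + B), Wf q L z χ Φ (m + h))
  linarith

end fin

/-- the parameters -/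
lemma params (C V ε : ℝ) (hε : 0 < ε) : ∃ δ : ℝ, 0 < δ ∧ δ ≤ 1 ∧ δ * |V| ≤ ε / 8 ∧ ∃ C7 : ℝ, 1 ≤ C7 ∧ ∃ N₀ : ℕ, ∀ N : ℕ, N₀ ≤ N →
    0 < Real.log N ∧ (0 : ℝ) < N ∧ 0 < (⌊δ * Real.log N⌋₊ : ℝ) ∧ (⌊δ * Real.log N⌋₊ : ℝ) ≤ δ * Real.log N ∧
    ((2 * ⌊C * Real.log N⌋₊ + ⌊δ * Real.log N⌋₊ : ℕ) : ℝ) ≤ C7 * Real.log N ∧
    Real.log N ≤ C7 * ((2 * ⌊C * Real.log N⌋₊ + ⌊δ * Real.log N⌋₊ : ℕ) : ℝ) ∧
    ((2 * ⌊C * Real.log N⌋₊ + ⌊δ * Real.log N⌋₊ : ℕ) : ℝ) ≤ 2 * C7 / δ * (⌊δ * Real.log N⌋₊ : ℝ) ∧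
    (⌊C * Real.log N⌋₊ : ℝ) + (⌊δ * Real.log N⌋₊ : ℝ) ≤ ε / 8 * N ∧
    ⌊C * Real.log N⌋₊ + ⌊δ * Real.log N⌋₊ ≤ N := by
  obtain ⟨δ, hδd⟩ : ∃ δ : ℝ, δ = min 1 (ε / (8 * (|V| + 1))) := ⟨_, rfl⟩
  have hV0 : 0 ≤ |V| := abs_nonneg V
  have hδ0 : 0 < δ := by
    rw [hδd]
    exact lt_min one_pos (by positivity)
  have hδ1 : δ ≤ 1 := by rw [hδd]; exact min_le_left _ _
  have hδV : δ * |V| ≤ ε / 8 := by
    have h1 : δ ≤ ε / (8 * (|V| + 1)) := by rw [hδd]; exact min_le_right _ _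
    have h2 : δ * |V| ≤ ε / (8 * (|V| + 1)) * (|V| + 1) := mul_le_mul h1 (by linarith) hV0 (by positivity)
    refine h2.trans (le_of_eq ?_)
    field_simp
  obtain ⟨C', hC'⟩ : ∃ C' : ℝ, C' = max C 0 := ⟨_, rfl⟩
  have hC'0 : 0 ≤ C' := by rw [hC']; exact le_max_right _ _
  have hCC : C ≤ C' := by rw [hC']; exact le_max_left _ _
  have hC7 : 1 ≤ 2 * C' + 1 + 4 / δ := by
    have : 0 < 4 / δ := by positivity
    linarith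
  refine ⟨δ, hδ0, hδ1, hδV, 2 * C' + 1 + 4 / δ, hC7, ?_⟩
  have hlog1 := Pool.Agent.E8helper16.SL.log_pow_le (8 * (C' + 1) / ε + (C' + 1)) 1 1 one_pos
  have hall := (log_tendsto.eventually_ge_atTop (2 / δ + 1)).and (hlog1.and (eventually_ge_atTop 1))
  rw [eventually_atTop] at hall
  obtain ⟨N₀, hall⟩ := hall
  refine ⟨N₀, fun N hN => ?_⟩
  obtain ⟨h1, h2, h3⟩ := hall N hN
  rw [pow_one, Real.rpow_one] at h2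
  have h4 : 0 < 2 / δ := by positivity
  have hl0 : 0 < Real.log N := by linarith
  have hN0 : (0 : ℝ) < N := by exact_mod_cast h3
  have hδl : 2 ≤ δ * Real.log N := by
    have h5 : 2 / δ ≤ Real.log N := by linarith
    rw [div_le_iff₀ hδ0] at h5
    linarith
  have hB1 : (⌊δ * Real.log N⌋₊ : ℝ) ≤ δ * Real.log N := Nat.floor_le (by linarith)
  have hB2 : δ * Real.log N < (⌊δ * Real.log N⌋₊ : ℝ) + 1 := Nat.lt_floor_add_one _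
  have hB0 : 0 < (⌊δ * Real.log N⌋₊ : ℝ) := by linarith
  have hB3 : δ * Real.log N / 2 ≤ (⌊δ * Real.log N⌋₊ : ℝ) := by linarith
  have hL : (⌊C * Real.log N⌋₊ : ℝ) ≤ C' * Real.log N := by
    have h5 : (⌊C * Real.log N⌋₊ : ℝ) ≤ (⌊C' * Real.log N⌋₊ : ℝ) := by
      exact_mod_cast Nat.floor_mono (mul_le_mul_of_nonneg_right hCC hl0.le)
    exact h5.trans (Nat.floor_le (mul_nonneg hC'0 hl0.le))
  have hL0 : (0 : ℝ) ≤ (⌊C * Real.log N⌋₊ : ℝ) := Nat.cast_nonneg _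
  have hB4 : (⌊δ * Real.log N⌋₊ : ℝ) ≤ Real.log N := hB1.trans (mul_le_of_le_one_left hl0.le hδ1)
  have hH1 : ((2 * ⌊C * Real.log N⌋₊ + ⌊δ * Real.log N⌋₊ : ℕ) : ℝ) ≤ (2 * C' + 1 + 4 / δ) * Real.log N := by
    push_cast
    have h5 : 0 ≤ 4 / δ * Real.log N := by positivity
    have h6 : (2 * C' + 1 + 4 / δ) * Real.log N = 2 * (C' * Real.log N) + Real.log N + 4 / δ * Real.log N := by ring
    rw [h6]
    linarith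
  have hlB : Real.log N ≤ 2 / δ * (⌊δ * Real.log N⌋₊ : ℝ) := by
    have h5 := mul_le_mul_of_nonneg_left hB3 h4.le
    refine le_trans (le_of_eq ?_) h5
    field_simp
  refine ⟨hl0, hN0, hB0, hB1, hH1, ?_, ?_, ?_, ?_⟩
  · push_cast
    have h5 : 2 / δ * (⌊δ * Real.log N⌋₊ : ℝ) ≤ (2 * C' + 1 + 4 / δ) * (⌊δ * Real.log N⌋₊ : ℝ) := by
      apply mul_le_mul_of_nonneg_right _ hB0.le
      have : 4 / δ = 2 / δ + 2 / δ := by ring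
      rw [this]
      linarith
    have h6 : (2 * C' + 1 + 4 / δ) * (⌊δ * Real.log N⌋₊ : ℝ) ≤ (2 * C' + 1 + 4 / δ) * (2 * (⌊C * Real.log N⌋₊ : ℝ) + (⌊δ * Real.log N⌋₊ : ℝ)) := by
      apply mul_le_mul_of_nonneg_left _ (by linarith)
      linarith
    exact (hlB.trans h5).trans h6
  · refine hH1.trans ?_
    have h5 := mul_le_mul_of_nonneg_left hlB (by linarith : (0 : ℝ) ≤ 2 * C' + 1 + 4 / δ)
    refine h5.trans (le_of_eq ?_)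
    ring
  · have h5 : (C' + 1) * Real.log N ≤ ε / 8 * N := by
      have h6 : 8 * (C' + 1) / ε * Real.log N ≤ N := by
        refine le_trans ?_ h2
        apply mul_le_mul_of_nonneg_right _ hl0.le
        linarith
      have h7 := mul_le_mul_of_nonneg_left h6 (by positivity : (0 : ℝ) ≤ ε / 8)
      refine le_trans (le_of_eq ?_) h7
      field_simp
    have h8 : (C' + 1) * Real.log N = C' * Real.log N + Real.log N := by ring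
    rw [h8] at h5
    linarith
  · have h5 : (C' + 1) * Real.log N ≤ N := by
      refine le_trans ?_ h2
      apply mul_le_mul_of_nonneg_right _ hl0.le
      have : 0 ≤ 8 * (C' + 1) / ε := by positivity
      linarith
    have h8 : (C' + 1) * Real.log N = C' * Real.log N + Real.log N := by ring
    rw [h8] at h5
    have h9 : (⌊C * Real.log N⌋₊ : ℝ) + (⌊δ * Real.log N⌋₊ : ℝ) ≤ N := by linarith
    exact_mod_cast h9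

theorem fin (θ C V ε : ℝ) (hθ : 0 < θ) (hε : 0 < ε) (a q : ℕ) (hq : 1 ≤ q) : ∃ N₀ : ℕ, ∀ N : ℕ, N₀ ≤ N →
    ∀ (χ : ℤ → Fin a) (Φ : ℕ → Finset (ℤ × Fin a) → ℂ) (Ψ : ℕ → ℂ), (∀ r S, ‖Φ r S‖ ≤ 1) → (∀ n, ‖Ψ n‖ ≤ 1) →
    ∑ n ∈ Icc 1 N, ‖Ψ (n + 1) - Ψ n‖ ≤ V * N / Real.log N →
    ‖∑ n ∈ Icc 1 N, Wf q ⌊C * Real.log N⌋₊ ⌊(N : ℝ) ^ θ⌋₊ χ Φ n * Ψ n‖ ≤ ε * N := by
  classical
  obtain ⟨δ, hδ0, hδ1, hδV, C7, hC7, N₁, hpar⟩ := params C V ε hε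
  obtain ⟨C6, hC6, N₂, hRR⟩ := RR_sum 1 le_rfl θ hθ C7 hC7
  obtain ⟨K, hKd⟩ : ∃ K : ℕ, K = ⌈8 * C6 / ε⌉₊ + 1 := ⟨_, rfl⟩
  have hK1 : 1 ≤ K := by omega
  have hKC : 8 * C6 ≤ ε * K := by
    have h1 : 8 * C6 / ε ≤ K := by
      refine (Nat.le_ceil _).trans ?_
      rw [hKd]
      push_cast
      linarith
    rw [div_le_iff₀ hε] at h1
    linarith
  obtain ⟨Eq, hEqd⟩ : ∃ Eq : ℝ, Eq = ∑ f ∈ range K, ((a ^ f * q : ℕ) : ℝ) := ⟨_, rfl⟩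
  have hEq0 : 0 ≤ Eq := by
    rw [hEqd]
    exact sum_nonneg fun _ _ => Nat.cast_nonneg _
  obtain ⟨ε', hε'd⟩ : ∃ ε' : ℝ, ε' = ε * δ / (16 * C7 * (Eq + 1)) := ⟨_, rfl⟩
  have hε'0 : 0 < ε' := by rw [hε'd]; positivity
  choose Nf hNf using fun f : ℕ => coreAll f θ hθ C7 hC7 ε' hε'0
  refine ⟨N₁ + N₂ + ∑ f ∈ range K, Nf f, fun N hN χ Φ Ψ hΦ hΨ hTV => ?_⟩
  obtain ⟨g1, g2, g3, g4, g5, g6, g7, g8, g9⟩ := hpar N (by omega)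
  have hz : (N : ℝ) ^ θ ≤ (⌊(N : ℝ) ^ θ⌋₊ : ℝ) + 1 := (Nat.lt_floor_add_one _).le
  have hX : ∀ f < K, ∀ e : (Fin f → Fin a) × Fin q, ∑ s ∈ Tf f (2 * ⌊C * Real.log N⌋₊ + ⌊δ * Real.log N⌋₊), ∑ m ∈ Icc 1 N,
      RR s ⌊(N : ℝ) ^ θ⌋₊ m * ‖∑ h ∈ Icc 1 (2 * ⌊C * Real.log N⌋₊ + ⌊δ * Real.log N⌋₊),
        cc q ⌊C * Real.log N⌋₊ ⌊δ * Real.log N⌋₊ Φ e s h * lz ((m + h : ℕ) : ℤ)‖ ≤
      ε' * (((2 * ⌊C * Real.log N⌋₊ + ⌊δ * Real.log N⌋₊ : ℕ) : ℝ) * N) := by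
    intro f hf e
    have hle : Nf f ≤ ∑ f ∈ range K, Nf f := single_le_sum (fun _ _ => Nat.zero_le _) (mem_range.2 hf)
    exact hNf f N (by omega) _ g5 g6 _ hz _ (cc_norm q _ _ Φ hΦ e)
  have hY := hRR N (by omega) _ g5 g6 _ hz
  have key := main_bd hq hK1 g9 χ Φ hΦ Ψ hΨ _ hX _ hY
  rw [← hEqd] at key
  have hTV' : ∑ n ∈ Icc 1 N, ‖Ψ (n + 1) - Ψ n‖ ≤ |V| * N / Real.log N := by
    refine hTV.trans ?_
    apply div_le_div_of_nonneg_right _ g1.le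
    exact mul_le_mul_of_nonneg_right (le_abs_self V) g2.le
  exact num_end g3 g2 (by exact_mod_cast hK1) g1 (abs_nonneg V) hδ0 hε hC7 hEq0 key g8 g4 hTV' hδV g7 hε'd hKC
    (sum_nonneg fun _ _ => norm_nonneg _) (Nat.cast_nonneg _)

end Pool.Agent.H526.FC
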