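import Mathlib
import Pool.Agent.H526.FC.P9
import Pool.Graph.R_pool_sql_team_seeded_b677cdb8.E8helper16.SL.G4
import Pool.Graph.R_pool_sql_team_seeded_b677cdb8.E8helper16.SL.G5

set_option autoImplicit false

/-! The block estimate for the rough integers, summed over the tuples. -/

namespace Pool.Agent.H526.FC
open Finset Filter Topology
open Pool.Agent.H373R2.T7 (Vz Vz_pos pz mem_pz PerB)
open Pool.Agent.E8helper16.SL (nu nu_nonneg nu_le lz lM lM_conj lz_norm GM Gz GM_eq_Gz FL inv_ge_one Rough mert zN zN_pow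
  zN_tendsto lam_cost err_cond err_tendsto mrt fl_exists two_log_le_z two_pow_K natlog_le zN_sq log_tendsto loglog_pow_le
  one_le_Vz_inv Gz_norm)

/-- the last step -/
lemma num_fin2 {f : ℕ} (hf : 1 ≤ f) {V H C K0 C9 P TN S e ε ρ : ℝ} (hVH : V ^ f * H ^ f ≤ K0 ^ f * ρ) (hK : 0 ≤ K0) (h9 : 25 ≤ C9) (hP : 0 ≤ P)
    (hTN : 0 ≤ TN) (hS : 0 ≤ S) (he : 0 ≤ e) (hρ : 0 ≤ ρ) (hε : (K0 * C9) ^ f * S + e < ε) (hV : 0 ≤ V) (hX : C ≤ P * (H ^ f * TN) * (C9 * S)) :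
    V ^ f * C ≤ ε * (ρ * (P * TN)) := by
  have h9f : C9 ≤ C9 ^ f := le_self_pow₀ (by linarith) (by omega)
  have h1 : 0 ≤ P * TN := mul_nonneg hP hTN
  have h2 : 0 ≤ C9 * S := mul_nonneg (by linarith) hS
  have h3 : 0 ≤ P * TN * (C9 * S) := mul_nonneg h1 h2
  have h4 : C9 * S ≤ C9 ^ f * S := mul_le_mul_of_nonneg_right h9f hS
  have h5 : 0 ≤ K0 ^ f * ρ := mul_nonneg (pow_nonneg hK f) hρ
  have h6 : 0 ≤ ρ * (P * TN) := mul_nonneg hρ h1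
  calc V ^ f * C ≤ V ^ f * (P * (H ^ f * TN) * (C9 * S)) := mul_le_mul_of_nonneg_left hX (pow_nonneg hV f)
    _ = (V ^ f * H ^ f) * (P * TN * (C9 * S)) := by ring
    _ ≤ (K0 ^ f * ρ) * (P * TN * (C9 * S)) := mul_le_mul_of_nonneg_right hVH h3
    _ = (P * TN) * ((K0 ^ f * ρ) * (C9 * S)) := by ring
    _ ≤ (P * TN) * ((K0 ^ f * ρ) * (C9 ^ f * S)) := mul_le_mul_of_nonneg_left (mul_le_mul_of_nonneg_left h4 h5) h1
    _ = (ρ * (P * TN)) * ((K0 * C9) ^ f * S) := by rw [mul_pow]; ring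
    _ ≤ (ρ * (P * TN)) * ε := mul_le_mul_of_nonneg_left (by linarith) h6
    _ = _ := by ring

theorem block2 (f : ℕ) (hf : 1 ≤ f) (θ : ℝ) (hθ : 0 < θ) (C7 : ℝ) (hC7 : 1 ≤ C7) (τ : ℝ) (hτ : 0 < τ) (ε : ℝ) (hε : 0 < ε) :
    ∃ N₀ J₀ : ℕ, ∀ N : ℕ, N₀ ≤ N →
    ∀ (H q J : ℕ) (P : Finset ℕ), 1 ≤ q → q ≤ H → 12 * H ≤ N → (q : ℝ) ≤ Real.log N → Real.log N ≤ C7 * H →
      (∀ p ∈ P, p.Prime ∧ q ≤ p ∧ p ≤ 2 * q) → H ≤ q * J → q * J ≤ 2 * H → J₀ ≤ J →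
      Real.log N ^ τ ≤ P.card → ∀ z1 : ℕ, (N : ℝ) ^ θ ≤ z1 + 1 →
      ∀ c : (Fin f → ℕ) → ℕ → ℂ, (∀ s h, ‖c s h‖ ≤ 1) →
      ∑ s ∈ Tf f H, ∑ p ∈ P, ∑ n ∈ Icc 1 N, RR s z1 n * ‖Gz (c s) H p n‖ ≤
        ε * (((H : ℝ) / Real.log N) ^ f * (P.card * ((H : ℝ) / q * N))) := by
  classical
  obtain ⟨C0, hC01, hFLex⟩ := fl_exists (2 * f) (by omega)
  obtain ⟨C, hC1, hC⟩ := mert
  have hC8 := C8_nonneg f
  have hC0r : (0 : ℝ) ≤ C0 := Nat.cast_nonneg _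
  have hf1 : (1 : ℝ) ≤ f := by exact_mod_cast hf
  obtain ⟨C9, hC9⟩ : ∃ C9 : ℝ, C9 = 7 + 18 * (f : ℝ) ^ 2 := ⟨_, rfl⟩
  have hC9' : 25 ≤ C9 := by
    have : (1 : ℝ) ≤ (f : ℝ) ^ 2 := one_le_pow₀ hf1
    rw [hC9]
    linarith
  have herr := err_tendsto f (128 * C0 * C * C9) C (C8 f) (by positivity) (by positivity) hC8
  have h2b : Tendsto (fun b : ℕ => (2 : ℝ) ^ b) atTop atTop := tendsto_pow_atTop_atTop_of_one_lt (by norm_num)
  obtain ⟨bθ, hbθ⟩ := exists_nat_gt (1 / θ)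
  obtain ⟨b, hberr, hbC0, hb1, hbt, hb2⟩ := ((herr.eventually (gt_mem_nhds hε)).and ((eventually_ge_atTop C0).and
    ((eventually_ge_atTop 1).and ((eventually_ge_atTop bθ).and
    (h2b.eventually_ge_atTop (64 * (f : ℝ) ^ 2 + (16 * f + 1) + C2 f)))))).exists
  obtain ⟨x0, hx0⟩ := hFLex b hbC0
  obtain ⟨J₀, M₀, hmrt⟩ := mrt ((1 / 2 : ℝ) ^ b) (by positivity)
  obtain ⟨c0, hc0⟩ : ∃ c0, c0 = 16 * (C0 * b) := ⟨_, rfl⟩
  have hc01 : 1 ≤ c0 := by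
    rw [hc0]
    have : 1 ≤ C0 * b := Nat.mul_pos hC01 hb1
    omega
  have hc0r : (0 : ℝ) < c0 := by exact_mod_cast (by omega : 0 < c0)
  have hc0θ : 1 / (2 * (c0 : ℝ)) < θ := by
    have h1 : bθ ≤ c0 := by
      rw [hc0]
      have : b ≤ C0 * b := Nat.le_mul_of_pos_left b (by omega)
      omega
    have h2 : 1 / θ < 2 * c0 := by
      have : (bθ : ℝ) ≤ c0 := by exact_mod_cast h1
      linarith
    rw [div_lt_iff₀ hθ] at h2
    rw [div_lt_iff₀ (by positivity)]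
    linarith
  have hC2 := C2_pos f
  have hff0 : (0 : ℝ) ≤ (f : ℝ) ^ 2 := by positivity
  have hf0 : (0 : ℝ) ≤ f := Nat.cast_nonneg _
  have hb2' : 64 * (f : ℝ) ^ 2 + (16 * f + 1) + C2 f ≤ 2 ^ b := hb2
  have w2 : 64 * f ^ 2 ≤ 2 ^ b := by
    have : ((64 * f ^ 2 : ℕ) : ℝ) ≤ ((2 ^ b : ℕ) : ℝ) := by push_cast; linarith
    exact_mod_cast this
  have w3 : 16 * f + 1 ≤ 2 ^ b := by
    have : ((16 * f + 1 : ℕ) : ℝ) ≤ ((2 ^ b : ℕ) : ℝ) := by push_cast; linarith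
    exact_mod_cast this
  have w4 : C2 f ≤ ((2 ^ b : ℕ) : ℝ) := by push_cast; linarith
  have hDG1 : 0 ≤ DG f (C * C7) 1 := by unfold DG; positivity
  have hall := (((zN_tendsto c0 hc01).eventually_ge_atTop (x0 + 2 ^ b + 2)).and
    ((two_log_le_z c0 hc01 (2 * f + 1)).and ((WW_small (C2_pos f).le f b hf (C7 * 2 ^ b) 1 (by positivity) one_pos).and
    ((WW_small (C5_pos f).le f b hf (DG f (C * C7) 1 * 2 ^ b) τ (by positivity) hτ).and ((lam_cost c0 hc01 hC1 hC).and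
    ((err_cond (2 * f) b c0 M₀ (by omega) hc01 hC1 hC).and ((log_tendsto.eventually_ge_atTop (C7 + 1)).and (eventually_ge_atTop 3))))))))
  rw [eventually_atTop] at hall
  obtain ⟨N₀, hall⟩ := hall
  refine ⟨N₀, J₀, fun N hN H q J P hq hqH h12H hqLL hLH hP hJ1 hJ2 hJ0 hAP z1 hz1 c hc => ?_⟩
  obtain ⟨hz, h2, h3, h3', h4, ⟨h5a, h5b, h5c⟩, hL1', hN3⟩ := hall N hN
  rw [Real.rpow_one] at h3
  obtain ⟨z, hzd⟩ : ∃ z, z = zN c0 N := ⟨_, rfl⟩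
  rw [← hzd] at hz h2 h4 h5a h5b
  obtain ⟨L, hL⟩ : ∃ L, L = Real.log N := ⟨_, rfl⟩
  rw [← hL] at hqLL hLH hAP h2 h3 h3' h5a h5b h5c hL1' ⊢
  have hL1 : 1 ≤ L := by linarith
  have hLC : C7 ≤ L := by linarith
  have hN3r : (3 : ℝ) ≤ N := by exact_mod_cast hN3
  have hN0 : (0 : ℝ) < N := by linarith
  have hH1 : 1 ≤ H := hq.trans hqH
  have hLf : 1 ≤ L ^ (2 * f + 1) := one_le_pow₀ hL1
  have hLf0 : 0 < L ^ (2 * f + 1) := by linarith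
  have hM0c : (0 : ℝ) ≤ M₀ := Nat.cast_nonneg _
  have hqr : (1 : ℝ) ≤ q := by exact_mod_cast hq
  have hq0 : (0 : ℝ) < q := by linarith
  have hqHr : (q : ℝ) ≤ H := by exact_mod_cast hqH
  have hqL : (q : ℝ) ≤ L ^ (2 * f + 1) := hqLL.trans (le_self_pow₀ hL1 (by omega))
  -- bounds for H and q
  have h12q : 12 * q ≤ N := by omega
  obtain ⟨M, hM⟩ : ∃ M, M = (N + H) / q + 1 := ⟨_, rfl⟩
  have hqM : N + H < q * M := by rw [hM]; exact Nat.lt_mul_div_succ _ (by omega)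
  have hqM2 : q * M ≤ 2 * N := by
    have : q * ((N + H) / q) ≤ N + H := Nat.mul_div_le _ _
    have h6 : q * M = q * ((N + H) / q) + q := by rw [hM]; ring
    omega
  have hqMr : (N : ℝ) ≤ q * M := by
    have : N ≤ q * M := by omega
    exact_mod_cast this
  have hqM2r : (q : ℝ) * M ≤ 2 * N := by exact_mod_cast hqM2
  have hM0 : (0 : ℝ) ≤ M := Nat.cast_nonneg _
  have hNLM : (N : ℝ) ≤ L ^ (2 * f + 1) * M := hqMr.trans (mul_le_mul_of_nonneg_right hqL hM0)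
  have hMlow : M₀ + 12 + 4 * L ^ (2 * f + 1) ≤ M := by
    have : (M₀ + 12 + 4 * L ^ (2 * f + 1)) * L ^ (2 * f + 1) ≤ M * L ^ (2 * f + 1) := by
      rw [mul_comm (M : ℝ)]
      exact h5c.trans hNLM
    exact le_of_mul_le_mul_right this hLf0
  have hM₀ : M₀ ≤ M := by
    have : (M₀ : ℝ) ≤ M := by linarith
    exact_mod_cast this
  have hJM : 2 * J ≤ M := by
    have g1 : q * (2 * J) ≤ q * M := by
      have e1 : q * (2 * J) = 2 * (q * J) := by ring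
      omega
    exact Nat.le_of_mul_le_mul_left g1 (by omega)
  -- the fundamental lemma
  have hzx : z ^ c0 ≤ Nat.sqrt N := by
    rw [Nat.le_sqrt, ← pow_add, ← two_mul, hzd]
    exact zN_pow c0 N hc01
  rw [hc0] at hzx
  have hFL : FL (2 * f) b (Nat.sqrt N) z := hx0 (Nat.sqrt N) z (by omega) hzx
  have hwz : 2 ^ b ≤ z := by omega
  have hPz : ∀ p ∈ P, p ∈ pz z := by
    intro p hp
    obtain ⟨g1, g2, g3⟩ := hP p hp
    rw [mem_pz]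
    refine ⟨?_, g1⟩
    have : (p : ℝ) ≤ z := by
      have : ((p : ℕ) : ℝ) ≤ ((2 * q : ℕ) : ℝ) := by exact_mod_cast g3
      push_cast at this
      linarith
    exact_mod_cast this
  have he0 : (0 : ℝ) < (1 / 2 : ℝ) ^ b := by positivity
  have he1 : (1 / 2 : ℝ) ^ b ≤ 1 := pow_le_one₀ (by norm_num) (by norm_num)
  have heb : (1 / 2 : ℝ) ^ b * 2 ^ b = 1 := by rw [← mul_pow]; norm_num
  have e4f : (2 * (2 * f)) = 4 * f := by ring
  rw [e4f] at h5a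
  have hR4' : 4 * (((Vz z) ^ (4 * f))⁻¹ * √((Nat.sqrt N : ℕ) : ℝ)) ≤ M * (1 / 2 : ℝ) ^ b := by
    have g1 : 4 * (((Vz z) ^ (4 * f))⁻¹ * √((Nat.sqrt N : ℕ) : ℝ)) * L ^ (2 * f + 1) ≤ (M * (1 / 2 : ℝ) ^ b) * L ^ (2 * f + 1) := by
      refine h5a.trans ?_
      calc (N : ℝ) * (1 / 2 : ℝ) ^ b ≤ (L ^ (2 * f + 1) * M) * (1 / 2 : ℝ) ^ b := mul_le_mul_of_nonneg_right hNLM he0.le
        _ = _ := by ring
    exact le_of_mul_le_mul_right g1 hLf0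
  have hVz1 : Vz z ≤ 1 := by
    have := one_le_Vz_inv z
    exact (one_le_inv₀ (Vz_pos z)).1 this
  have hV24 : ((Vz z) ^ (2 * f))⁻¹ ≤ ((Vz z) ^ (4 * f))⁻¹ := by
    apply inv_anti₀ (pow_pos (Vz_pos z) _)
    exact pow_le_pow_of_le_one (Vz_pos z).le hVz1 (by omega)
  have hsq0 := Real.sqrt_nonneg ((Nat.sqrt N : ℕ) : ℝ)
  have hR40 : 0 ≤ ((Vz z) ^ (4 * f))⁻¹ * √((Nat.sqrt N : ℕ) : ℝ) := by
    have := (Vz_pos z).le
    positivity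
  have hR24 : ((Vz z) ^ (2 * f))⁻¹ * √((Nat.sqrt N : ℕ) : ℝ) ≤ ((Vz z) ^ (4 * f))⁻¹ * √((Nat.sqrt N : ℕ) : ℝ) :=
    mul_le_mul_of_nonneg_right hV24 hsq0
  have hR : 4 * (((Vz z) ^ (2 * f))⁻¹ * √((Nat.sqrt N : ℕ) : ℝ)) ≤ M * (1 / 2 : ℝ) ^ b := by linarith
  have hMe : (M : ℝ) * (1 / 2 : ℝ) ^ b ≤ M := mul_le_of_le_one_right hM0 he1
  have hR4 : ((Vz z) ^ (4 * f))⁻¹ * √((Nat.sqrt N : ℕ) : ℝ) ≤ M := by linarith
  have hRN : ((Vz z) ^ (2 * f))⁻¹ * √((Nat.sqrt N : ℕ) : ℝ) ≤ N := by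
    have g1 : (N : ℝ) * (1 / 2 : ℝ) ^ b ≤ N := mul_le_of_le_one_right hN0.le he1
    have g2 : 4 * (((Vz z) ^ (4 * f))⁻¹ * √((Nat.sqrt N : ℕ) : ℝ)) * 1 ≤
        4 * (((Vz z) ^ (4 * f))⁻¹ * √((Nat.sqrt N : ℕ) : ℝ)) * L ^ (2 * f + 1) := mul_le_mul_of_nonneg_left hLf (by positivity)
    linarith
  have hzN : (z : ℝ) ≤ N := by
    have g1 := zN_sq c0 N hc01 (by omega)
    rw [← hzd] at g1
    refine g1.trans ?_
    rw [Real.sqrt_le_left (by linarith)]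
    exact le_self_pow₀ (by linarith) (by norm_num)
  have hz2 : 2 ≤ z := by omega
  have hVzL : (Vz z)⁻¹ ≤ C * L := by
    refine (hC z hz2).1.trans ?_
    apply mul_le_mul_of_nonneg_left _ (by linarith)
    rw [hL]
    apply Real.log_le_log _ hzN
    exact_mod_cast (by omega : 0 < z)
  have hZ : (Vz z)⁻¹ ≤ C * C7 * H := by
    calc _ ≤ C * L := hVzL
      _ ≤ C * (C7 * H) := mul_le_mul_of_nonneg_left hLH (by linarith)
      _ = _ := by ring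
  have hW : WW (C2 f) (yy f b N) ≤ H * (1 / 2 : ℝ) ^ b := cond_W hC7 h3 hLH
  have hW5 := one_le_WW (yy f b N) (C5_pos f).le
  have hA : DG f (C * C7) (WW (C5 f) (yy f b N)) ≤ P.card * (1 / 2 : ℝ) ^ b :=
    cond_A (DG_le f (C := C * C7) (W := WW (C5 f) (yy f b N)) (by positivity) (by linarith)) h3' hAP
  have hHK : 2 * H ≤ 2 ^ (2 * (Nat.log 2 N + 1)) := by
    refine le_trans ?_ (two_pow_K N (by omega))
    calc 2 * H ≤ N := by omega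
      _ ≤ N ^ 2 := Nat.le_self_pow (by norm_num) N
  have hsize := DD_size (f := f) (P := P) (by omega) h12H h12q (fun p hp => (hP p hp).2.2)
  have hy : 1 ≤ yy f b N := by
    unfold yy
    have : 0 < f ^ 3 := by positivity
    have : 0 < 32 * f ^ 3 * (2 * (Nat.log 2 N + 1)) * 2 ^ b := by positivity
    omega
  obtain ⟨T, hTd⟩ : ∃ T : ℝ, T = (H : ℝ) / q := ⟨_, rfl⟩
  have hH0 : (0 : ℝ) ≤ H := Nat.cast_nonneg _
  have hT0 : 0 ≤ T := by rw [hTd]; positivity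
  have hTq : T * q = H := by rw [hTd]; field_simp
  have hT : (H : ℝ) * J * M ≤ 4 * N * T ^ 2 := by
    have g1 : (q : ℝ) * J ≤ 2 * H := by exact_mod_cast hJ2
    have g2 : (H : ℝ) * J * M * q ^ 2 ≤ (4 * N * T ^ 2) * q ^ 2 := by
      calc (H : ℝ) * J * M * q ^ 2 = H * (q * J) * (q * M) := by ring
        _ ≤ H * (2 * H) * (2 * N) := by gcongr
        _ = 4 * N * (T * q) ^ 2 := by rw [hTq]; ring
        _ = _ := by ring
    exact le_of_mul_le_mul_right g2 (by positivity)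
  have main := block_nu (x := Nat.sqrt N) (z := z) (y := yy f b N) (K := 2 * (Nat.log 2 N + 1)) (M := M) (J := J) (N := N) (H := H)
    (w := 2 ^ b) hf w2 w3 hFL hwz hy w4 (le_of_eq rfl) rfl P hPz hH1 hHK hsize hW hR hR4 (C * C7) (one_le_mul_of_one_le_of_one_le hC1 hC7) hZ hA c hc
    (fun p hp => hJ1.trans (Nat.mul_le_mul_right _ (hP p hp).2.1)) (fun g hg => hmrt M J hM₀ hJ0 hJM g hg)
    (fun p hp => hqM.le.trans (Nat.mul_le_mul_right _ (hP p hp).2.1)) hRN T hT hT0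
  -- the numerical bound
  obtain ⟨V, hV⟩ : ∃ V, V = ((Vz (2 ^ b)) ^ f)⁻¹ := ⟨_, rfl⟩
  have hVV : ((Vz (2 ^ b)) ^ (2 * f))⁻¹ = V ^ 2 := by rw [hV, mul_comm 2 f, pow_mul, inv_pow]
  have hV1 : 1 ≤ V := by rw [hV]; exact inv_ge_one _ f
  have hVb : V ≤ (C * b) ^ f := by
    rw [hV, ← inv_pow]
    apply pow_le_pow_left₀ (inv_pos.2 (Vz_pos _)).le
    have g1 : 2 ≤ 2 ^ b := by
      calc 2 = 2 ^ 1 := by norm_num
        _ ≤ 2 ^ b := Nat.pow_le_pow_right (by norm_num) hb1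
    refine (hC _ g1).1.trans ?_
    apply mul_le_mul_of_nonneg_left _ (by linarith)
    push_cast
    rw [Real.log_pow]
    have : Real.log 2 ≤ 1 := by
      have := Real.log_two_lt_d9
      linarith
    exact mul_le_of_le_one_right (Nat.cast_nonneg _) this
  rw [hVV, ← hV, ← hC9] at main
  obtain ⟨S, hSd⟩ : ∃ S, S = √(20 * (C * b) ^ f * (2 * √(C8 f * (C * b) ^ (2 * f) * (1 / 2 : ℝ) ^ b) + (C * b) ^ f * (1 / 2 : ℝ) ^ b)) := ⟨_, rfl⟩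
  have hS0 : 0 ≤ S := by rw [hSd]; exact Real.sqrt_nonneg _
  have hsq : √(4 * C9 * V * (2 * √(C8 f * V ^ 2 * (1 / 2 : ℝ) ^ b) + V * (1 / 2 : ℝ) ^ b)) ≤ C9 * S := by
    have g1 := num_sq (c := C8 f) (e := (1 / 2 : ℝ) ^ b) hC9' (by linarith : 0 ≤ V) hVb hC8 he0.le
    have g2 : ((C * (b : ℝ)) ^ f) ^ 2 = (C * b) ^ (2 * f) := by rw [mul_comm 2 f, pow_mul]
    rw [g2, ← hSd] at g1
    exact g1
  have hberr' : (128 * C0 * C * C9 * b) ^ f * S + (1 / 2 : ℝ) ^ b < ε := by rw [hSd]; exact hberr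
  have hP0 : (0 : ℝ) ≤ P.card := Nat.cast_nonneg _
  have hTN : 0 ≤ T * N := mul_nonneg hT0 hN0.le
  have main2 : ∑ s ∈ Tf f H, ∑ p ∈ P, ∑ n ∈ Icc 1 N, nu (cz s 0) z n * ‖Gz (c s) H p n‖ ≤ P.card * ((H : ℝ) ^ f * (T * N)) * (C9 * S) :=
    main.trans (mul_le_mul_of_nonneg_left hsq (by positivity))
  -- from the rough integers to the sieve weight
  have hzz1 : z ≤ z1 := by
    have g1 : (z : ℝ) ≤ (N : ℝ) ^ (1 / (2 * (c0 : ℝ))) := by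
      rw [hzd]
      unfold zN
      exact Nat.floor_le (by positivity)
    have g2 : (N : ℝ) ^ (1 / (2 * (c0 : ℝ))) < (N : ℝ) ^ θ := Real.rpow_lt_rpow_of_exponent_lt (by linarith) hc0θ
    have g3 : (z : ℝ) < ((z1 + 1 : ℕ) : ℝ) := by
      push_cast
      linarith
    have : z < z1 + 1 := by exact_mod_cast g3
    omega
  have hVz0 := (Vz_pos z).le
  have tr : ∑ s ∈ Tf f H, ∑ p ∈ P, ∑ n ∈ Icc 1 N, RR s z1 n * ‖Gz (c s) H p n‖ ≤
      (Vz z) ^ f * ∑ s ∈ Tf f H, ∑ p ∈ P, ∑ n ∈ Icc 1 N, nu (cz s 0) z n * ‖Gz (c s) H p n‖ := by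
    rw [mul_sum]
    apply sum_le_sum
    intro s _
    rw [mul_sum]
    apply sum_le_sum
    intro p _
    rw [mul_sum]
    apply sum_le_sum
    intro n _
    rw [← mul_assoc]
    exact mul_le_mul_of_nonneg_right (RR_le s hzz1 n) (norm_nonneg _)
  have hL0 : 0 < L := by linarith
  have hVH : (Vz z) ^ f * (H : ℝ) ^ f ≤ (128 * C0 * C * b) ^ f * ((H : ℝ) / L) ^ f := by
    rw [← mul_pow, ← mul_pow]
    apply pow_le_pow_left₀ (by positivity)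
    have g1 : Real.log (3 * N) * Vz z ≤ 8 * c0 * C := h4
    have g2 : L ≤ Real.log (3 * N) := by
      rw [hL]
      exact Real.log_le_log hN0 (by linarith)
    have g3 : L * Vz z ≤ 8 * c0 * C := (mul_le_mul_of_nonneg_right g2 hVz0).trans g1
    have g4 := mul_le_mul_of_nonneg_right g3 (by positivity : (0 : ℝ) ≤ (H : ℝ) / L)
    calc Vz z * H = L * Vz z * ((H : ℝ) / L) := by field_simp
      _ ≤ 8 * c0 * C * ((H : ℝ) / L) := g4
      _ = _ := by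
        rw [hc0]
        push_cast
        ring
  have hK0 : (128 * C0 * C * C9 * (b : ℝ)) = (128 * C0 * C * b) * C9 := by ring
  rw [hK0] at hberr'
  rw [← hTd]
  exact tr.trans (num_fin2 hf hVH (by positivity) hC9' hP0 hTN hS0 he0.le (by positivity) hberr' hVz0 main2)

end Pool.Agent.H526.FC
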