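import Mathlib
import Pool.Agent.H526.FC.P11
import Pool.Agent.H526.FC.Q2

set_option autoImplicit false

/-! The averaged correlations of the von Mangoldt and Liouville functions: all scales from `c log N` on. -/

namespace Pool.Agent.H526.FC
open Finset Filter Topology
open Pool.Agent.H373R2.T7 (pz mem_pz)
open Pool.Agent.E8helper16.SL (lz lz_norm log_tendsto Rough)

/-- the product of the von Mangoldt functions -/
noncomputable def LP {k : ℕ} (s : Fin k → ℕ) (n : ℕ) : ℝ := ∏ i, ArithmeticFunction.vonMangoldt (n + s i)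

lemma LP_nonneg {k : ℕ} (s : Fin k → ℕ) (n : ℕ) : 0 ≤ LP s n := prod_nonneg fun _ _ => ArithmeticFunction.vonMangoldt_nonneg

lemma LP_le {k : ℕ} (s : Fin k → ℕ) {n M : ℕ} (hn : 1 ≤ n) (hM : ∀ i, n + s i ≤ M) : LP s n ≤ (Real.log M) ^ k := by
  unfold LP
  have h1 : ∀ i ∈ (univ : Finset (Fin k)), ArithmeticFunction.vonMangoldt (n + s i) ≤ Real.log M := by
    intro i _
    refine ArithmeticFunction.vonMangoldt_le_log.trans ?_
    apply Real.log_le_log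
    · exact_mod_cast (by omega : 0 < n + s i)
    · exact_mod_cast hM i
  refine (prod_le_prod (fun i _ => ArithmeticFunction.vonMangoldt_nonneg) h1).trans (le_of_eq ?_)
  rw [prod_const, card_univ, Fintype.card_fin]

/-- the bad integers for the coordinate `i` -/
lemma LP_bad {k : ℕ} (s : Fin k → ℕ) (z n M : ℕ) (hM : ∀ i, n + s i ≤ M) (h : LP s n ≠ 0) (hr : ¬ Rough (cz s 0) z n) :
    ∃ i, n + s i ∈ ((pz z) ×ˢ range (Nat.log 2 M + 1)).image (fun x => x.1 ^ x.2) := by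
  classical
  rw [rough_Rg] at hr
  push Not at hr
  obtain ⟨i, hi⟩ := hr
  refine ⟨i, ?_⟩
  unfold Rg at hi
  push Not at hi
  obtain ⟨l, hl, hd⟩ := hi
  have e : cz s 0 i = (s i : ℤ) := by
    unfold cz
    ring
  rw [e] at hd
  have hd' : l ∣ n + s i := by exact_mod_cast hd
  have hΛ : ArithmeticFunction.vonMangoldt (n + s i) ≠ 0 := by
    intro h0
    exact h (prod_eq_zero (mem_univ i) h0)
  rw [ArithmeticFunction.vonMangoldt_ne_zero_iff] at hΛ
  obtain ⟨p, j, hp, hj, hpj⟩ := hΛ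
  have hpp : p.Prime := hp.nat_prime
  have hlz := mem_pz.1 hl
  have hlp : l = p := by
    rw [← hpj] at hd'
    exact (Nat.prime_dvd_prime_iff_eq hlz.2 hpp).1 (hlz.2.dvd_of_dvd_pow hd')
  rw [mem_image]
  refine ⟨(l, j), ?_, ?_⟩
  · rw [mem_product, mem_range]
    refine ⟨hl, ?_⟩
    have h1 : 2 ^ j ≤ M := by
      calc 2 ^ j ≤ p ^ j := Nat.pow_le_pow_left hpp.two_le j
        _ = n + s i := hpj
        _ ≤ M := hM i
    have := Nat.le_log_of_pow_le (by norm_num : 1 < 2) h1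
    show j < Nat.log 2 M + 1
    omega
  · show l ^ j = n + s i
    rw [hlp, hpj]

lemma card_bad {k : ℕ} (s : Fin k → ℕ) (z N M : ℕ) : (((Icc 1 N).filter (fun n => ∃ i, n + s i ∈
    ((pz z) ×ˢ range (Nat.log 2 M + 1)).image (fun x => x.1 ^ x.2))).card : ℝ) ≤ k * (z * (Nat.log 2 M + 1)) := by
  classical
  obtain ⟨Q, hQ⟩ : ∃ Q, Q = ((pz z) ×ˢ range (Nat.log 2 M + 1)).image (fun x => x.1 ^ x.2) := ⟨_, rfl⟩
  rw [← hQ]
  have hQc : Q.card ≤ z * (Nat.log 2 M + 1) := by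
    rw [hQ]
    refine card_image_le.trans ?_
    rw [card_product, card_range]
    apply Nat.mul_le_mul_right
    have h1 : pz z ⊆ Icc 1 z := by
      intro l hl
      have := mem_pz.1 hl
      exact mem_Icc.2 ⟨this.2.one_le, this.1⟩
    refine (card_le_card h1).trans ?_
    rw [Nat.card_Icc]
    omega
  have h2 : (Icc 1 N).filter (fun n => ∃ i, n + s i ∈ Q) ⊆ (univ : Finset (Fin k)).biUnion (fun i => (Icc 1 N).filter (fun n => n + s i ∈ Q)) := by
    intro n hn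
    rw [mem_filter] at hn
    obtain ⟨h3, i, hi⟩ := hn
    rw [mem_biUnion]
    exact ⟨i, mem_univ i, mem_filter.2 ⟨h3, hi⟩⟩
  have h3 : ∀ i ∈ (univ : Finset (Fin k)), ((Icc 1 N).filter (fun n => n + s i ∈ Q)).card ≤ Q.card := by
    intro i _
    apply card_le_card_of_injOn (fun n => n + s i)
    · intro n hn
      rw [mem_coe, mem_filter] at hn
      exact hn.2
    · intro a _ b _ hab
      simpa using hab
  have h4 := (card_le_card h2).trans (card_biUnion_le.trans (sum_le_sum h3))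
  rw [sum_const, card_univ, Fintype.card_fin, smul_eq_mul] at h4
  have h5 := h4.trans (Nat.mul_le_mul_left k hQc)
  exact_mod_cast h5

/-- from the von Mangoldt functions to the rough integers -/
lemma LP_sum {k : ℕ} (s : Fin k → ℕ) (z N M : ℕ) (hM : ∀ n ∈ Icc 1 N, ∀ i, n + s i ≤ M) (G : ℕ → ℝ) (B : ℝ) (hG0 : ∀ n, 0 ≤ G n)
    (hG : ∀ n, G n ≤ B) (hM1 : 1 ≤ M) :
    ∑ n ∈ Icc 1 N, LP s n * G n ≤ (Real.log M) ^ k * ∑ n ∈ Icc 1 N, RR s z n * G n +
      (Real.log M) ^ k * B * (k * (z * (Nat.log 2 M + 1))) := by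
  classical
  have hB : 0 ≤ B := (hG0 0).trans (hG 0)
  have hL : 0 ≤ (Real.log M) ^ k := by
    apply pow_nonneg
    apply Real.log_nonneg
    exact_mod_cast hM1
  obtain ⟨Q, hQ⟩ : ∃ Q, Q = ((pz z) ×ˢ range (Nat.log 2 M + 1)).image (fun x => x.1 ^ x.2) := ⟨_, rfl⟩
  have h1 : ∀ n ∈ Icc 1 N, LP s n * G n ≤ (Real.log M) ^ k * (RR s z n * G n) + if (∃ i, n + s i ∈ Q) then (Real.log M) ^ k * B else 0 := by
    intro n hn
    have hn1 := (mem_Icc.1 hn).1
    have hRR := RR_nonneg s z (n : ℤ)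
    have hLP := LP_nonneg s n
    have hle := LP_le s hn1 (hM n hn)
    by_cases hr : Rough (cz s 0) z n
    · have e : RR s z (n : ℤ) = 1 := by
        unfold RR
        rw [if_pos hr]
      rw [e, one_mul]
      have h2 : LP s n * G n ≤ (Real.log M) ^ k * G n := mul_le_mul_of_nonneg_right hle (hG0 n)
      split_ifs
      · have := mul_nonneg hL hB
        linarith
      · linarith
    · by_cases h0 : LP s n = 0
      · rw [h0, zero_mul]
        have h2 : 0 ≤ (Real.log M) ^ k * (RR s z n * G n) := mul_nonneg hL (mul_nonneg hRR (hG0 n))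
        split_ifs
        · have := mul_nonneg hL hB
          linarith
        · linarith
      · have hb := LP_bad s z n M (hM n hn) h0 hr
        rw [← hQ] at hb
        rw [if_pos hb]
        have h2 : LP s n * G n ≤ (Real.log M) ^ k * B := mul_le_mul hle (hG n) (hG0 n) hL
        have h3 : 0 ≤ (Real.log M) ^ k * (RR s z n * G n) := mul_nonneg hL (mul_nonneg hRR (hG0 n))
        linarith
  refine (sum_le_sum h1).trans ?_
  rw [sum_add_distrib, ← mul_sum]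
  apply add_le_add le_rfl
  rw [← sum_filter, sum_const, nsmul_eq_mul, mul_comm]
  apply mul_le_mul_of_nonneg_left _ (mul_nonneg hL hB)
  rw [hQ]
  exact card_bad s z N M

/-- the correlations, averaged over all shifts -/
theorem avg_corr (k : ℕ) (hk : 1 ≤ k) (c ε : ℝ) (hc : 0 < c) (hε : 0 < ε) : ∃ N₀ : ℕ, ∀ N : ℕ, N₀ ≤ N →
    ∀ H : ℕ, c * Real.log N ≤ H → H ≤ N → ∀ b : (Fin k → ℕ) → ℕ → ℂ, (∀ s n, ‖b s n‖ ≤ 1) →
      ∑ s ∈ Tf k H, ∑ h ∈ Icc 1 H, ‖∑ n ∈ Icc 1 N, b s n * (LP s n : ℂ) * lz ((n + h : ℕ) : ℤ)‖ ≤ ε * ((H : ℝ) ^ (k + 1) * N) := by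
  classical
  obtain ⟨C7, hC7d⟩ : ∃ C7 : ℝ, C7 = 1 + 2 / c := ⟨_, rfl⟩
  have hC7 : 1 ≤ C7 := by
    rw [hC7d]
    have : 0 < 2 / c := by positivity
    linarith
  obtain ⟨N₁, hcore⟩ := core2 k hk (1 / 2) (by norm_num) C7 hC7 (ε / 24) (by positivity)
  -- the error terms
  have herr : ∀ᶠ N : ℕ in atTop, (Real.log (2 * N : ℕ)) ^ k * (k * ((⌊((12 * N : ℕ) : ℝ) ^ (1 / 2 : ℝ)⌋₊ : ℝ) * (Nat.log 2 (2 * N) + 1))) ≤ ε / 2 * N := by
    have h1 := Pool.Agent.E8helper16.SL.log_pow_le (16 * k * 2 ^ (k + 1) / ε * 4) (k + 1) (1 / 2) (by norm_num)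
    filter_upwards [h1, eventually_ge_atTop 4] with N g1 g2
    have hN0 : (0 : ℝ) < N := by exact_mod_cast (by omega : 0 < N)
    have hN4 : (4 : ℝ) ≤ N := by exact_mod_cast g2
    obtain ⟨L, hL⟩ : ∃ L, L = Real.log N := ⟨_, rfl⟩
    have hL1 : 1 ≤ L := by
      rw [hL, Real.le_log_iff_exp_le hN0]
      have := Real.exp_one_lt_d9
      linarith
    have a1 : Real.log (2 * N : ℕ) ≤ 2 * L := by
      push_cast
      rw [Real.log_mul (by norm_num) (by positivity), ← hL]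
      have := Real.log_two_lt_d9
      linarith
    have a2 : ((Nat.log 2 (2 * N) : ℕ) : ℝ) + 1 ≤ 4 * L := by
      have h2 : ((Nat.log 2 (2 * N) : ℕ) : ℝ) * Real.log 2 ≤ Real.log (2 * N : ℕ) := by
        rw [← Real.log_pow]
        apply Real.log_le_log (by positivity)
        have := Nat.pow_log_le_self 2 (show 2 * N ≠ 0 by omega)
        exact_mod_cast this
      have h3 := Real.log_two_gt_d9
      have h4 : 0 ≤ ((Nat.log 2 (2 * N) : ℕ) : ℝ) := Nat.cast_nonneg _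
      have h5 : ((Nat.log 2 (2 * N) : ℕ) : ℝ) * 0.6931471803 ≤ 2 * L := by nlinarith
      linarith
    have a3 : (⌊((12 * N : ℕ) : ℝ) ^ (1 / 2 : ℝ)⌋₊ : ℝ) ≤ 4 * (N : ℝ) ^ (1 / 2 : ℝ) := by
      refine (Nat.floor_le (by positivity)).trans ?_
      push_cast
      rw [Real.mul_rpow (by norm_num) hN0.le]
      apply mul_le_mul_of_nonneg_right _ (by positivity)
      rw [← Real.sqrt_eq_rpow]
      rw [Real.sqrt_le_left (by norm_num)]
      norm_num
    have hL0 : 0 ≤ Real.log (2 * N : ℕ) := Real.log_nonneg (by exact_mod_cast (by omega : 1 ≤ 2 * N))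
    have a4 : (Real.log (2 * N : ℕ)) ^ k ≤ (2 * L) ^ k := pow_le_pow_left₀ hL0 a1 k
    have h2 : (N : ℝ) ^ (1 / 2 : ℝ) * (N : ℝ) ^ (1 / 2 : ℝ) = N := by
      rw [← Real.rpow_add hN0]
      norm_num
    have h3 : 0 < (N : ℝ) ^ (1 / 2 : ℝ) := by positivity
    rw [← hL] at g1
    calc (Real.log (2 * N : ℕ)) ^ k * (k * ((⌊((12 * N : ℕ) : ℝ) ^ (1 / 2 : ℝ)⌋₊ : ℝ) * (Nat.log 2 (2 * N) + 1))) ≤
          (2 * L) ^ k * (k * ((4 * (N : ℝ) ^ (1 / 2 : ℝ)) * (4 * L))) := by gcongr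
      _ = (16 * k * 2 ^ k * L ^ (k + 1)) * (N : ℝ) ^ (1 / 2 : ℝ) := by ring
      _ ≤ (ε / 2 * (N : ℝ) ^ (1 / 2 : ℝ)) * (N : ℝ) ^ (1 / 2 : ℝ) := by
          apply mul_le_mul_of_nonneg_right _ h3.le
          have g3 := mul_le_mul_of_nonneg_left g1 (by positivity : (0 : ℝ) ≤ ε / 2)
          refine le_trans ?_ g3
          have e1 : ε / 2 * (16 * k * 2 ^ (k + 1) / ε * 4 * L ^ (k + 1)) = 4 * (16 * k * 2 ^ k * L ^ (k + 1)) := by
            field_simp
            ring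
          rw [e1]
          have : 0 ≤ 16 * k * 2 ^ k * L ^ (k + 1) := by positivity
          linarith
      _ = ε / 2 * N := by rw [mul_assoc, h2]
  obtain ⟨N₂, herr⟩ := eventually_atTop.1 herr
  refine ⟨N₁ + N₂ + 12, fun N hN H hH1 hH2 b hb => ?_⟩
  have hN12 : 12 ≤ N := by omega
  have hN0 : (0 : ℝ) < N := by exact_mod_cast (by omega : 0 < N)
  have hN12r : (12 : ℝ) ≤ N := by exact_mod_cast hN12
  have hlogN : 0 < Real.log N := Real.log_pos (by linarith)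
  have hlog12 : Real.log ((12 * N : ℕ) : ℝ) ≤ 2 * Real.log N := by
    push_cast
    rw [Real.log_mul (by norm_num) (by positivity)]
    have := Real.log_le_log (by norm_num : (0 : ℝ) < 12) hN12r
    linarith
  have hH0 : (0 : ℝ) < H := lt_of_lt_of_le (by positivity) hH1
  have hcond : Real.log ((12 * N : ℕ) : ℝ) ≤ C7 * H := by
    have h1 : 2 * Real.log N ≤ 2 / c * H := by
      have := mul_le_mul_of_nonneg_left hH1 (by positivity : 0 ≤ 2 / c)
      refine le_trans (le_of_eq ?_) this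
      field_simp
    have h2 : C7 * (H : ℝ) = H + 2 / c * H := by rw [hC7d]; ring
    rw [h2]
    linarith
  obtain ⟨z, hz⟩ : ∃ z : ℕ, z = ⌊((12 * N : ℕ) : ℝ) ^ (1 / 2 : ℝ)⌋₊ := ⟨_, rfl⟩
  have hz1 : ((12 * N : ℕ) : ℝ) ^ (1 / 2 : ℝ) ≤ z + 1 := by
    rw [hz]
    exact (Nat.lt_floor_add_one _).le
  -- the phases
  choose ph hph1 hph2 using fun w : (Fin k → ℕ) × ℕ => phase (∑ n ∈ Icc 1 N, b w.1 n * (LP w.1 n : ℂ) * lz ((n + w.2 : ℕ) : ℤ))
  have key := hcore (12 * N) (by omega) H (by omega) hcond z hz1 (fun s h => ph (s, h)) (fun s h => hph1 _)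
  have hstep : ∀ s ∈ Tf k H, ∑ h ∈ Icc 1 H, ‖∑ n ∈ Icc 1 N, b s n * (LP s n : ℂ) * lz ((n + h : ℕ) : ℤ)‖ ≤
      ∑ n ∈ Icc 1 N, LP s n * ‖∑ h ∈ Icc 1 H, ph (s, h) * lz ((n + h : ℕ) : ℤ)‖ := by
    intro s _
    have h0 : (0 : ℝ) ≤ ∑ h ∈ Icc 1 H, ‖∑ n ∈ Icc 1 N, b s n * (LP s n : ℂ) * lz ((n + h : ℕ) : ℤ)‖ := sum_nonneg fun _ _ => norm_nonneg _
    have h1 : ((∑ h ∈ Icc 1 H, ‖∑ n ∈ Icc 1 N, b s n * (LP s n : ℂ) * lz ((n + h : ℕ) : ℤ)‖ : ℝ) : ℂ) =
        ∑ n ∈ Icc 1 N, b s n * (LP s n : ℂ) * ∑ h ∈ Icc 1 H, ph (s, h) * lz ((n + h : ℕ) : ℤ) := by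
      rw [Complex.ofReal_sum]
      have h2 : ∀ h ∈ Icc 1 H, ((‖∑ n ∈ Icc 1 N, b s n * (LP s n : ℂ) * lz ((n + h : ℕ) : ℤ)‖ : ℝ) : ℂ) =
          ∑ n ∈ Icc 1 N, b s n * (LP s n : ℂ) * (ph (s, h) * lz ((n + h : ℕ) : ℤ)) := by
        intro h _
        have := hph2 (s, h)
        simp only at this
        rw [← this, mul_sum]
        apply sum_congr rfl
        intro n _
        ring
      rw [sum_congr rfl h2, sum_comm]
      apply sum_congr rfl
      intro n _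
      rw [mul_sum]
    have h3 : ∑ h ∈ Icc 1 H, ‖∑ n ∈ Icc 1 N, b s n * (LP s n : ℂ) * lz ((n + h : ℕ) : ℤ)‖ =
        ‖((∑ h ∈ Icc 1 H, ‖∑ n ∈ Icc 1 N, b s n * (LP s n : ℂ) * lz ((n + h : ℕ) : ℤ)‖ : ℝ) : ℂ)‖ := by
      rw [Complex.norm_real, Real.norm_eq_abs, abs_of_nonneg h0]
    rw [h3, h1]
    refine (norm_sum_le _ _).trans (sum_le_sum fun n _ => ?_)
    rw [norm_mul, norm_mul, Complex.norm_real, Real.norm_eq_abs, abs_of_nonneg (LP_nonneg s n)]
    apply mul_le_mul_of_nonneg_right _ (norm_nonneg _)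
    exact mul_le_of_le_one_left (LP_nonneg s n) (hb s n)
  have hGB : ∀ s n, ‖∑ h ∈ Icc 1 H, ph (s, h) * lz ((n + h : ℕ) : ℤ)‖ ≤ H := by
    intro s n
    refine (norm_sum_le _ _).trans ?_
    have h1 : ∀ h ∈ Icc 1 H, ‖ph (s, h) * lz ((n + h : ℕ) : ℤ)‖ ≤ 1 := by
      intro h _
      rw [norm_mul]
      exact mul_le_one₀ (hph1 _) (norm_nonneg _) (lz_norm _)
    refine (sum_le_sum h1).trans ?_
    rw [sum_const, nsmul_eq_mul, mul_one, Nat.card_Icc, Nat.add_sub_cancel]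
  have hstep2 : ∀ s ∈ Tf k H, ∑ n ∈ Icc 1 N, LP s n * ‖∑ h ∈ Icc 1 H, ph (s, h) * lz ((n + h : ℕ) : ℤ)‖ ≤
      (Real.log (2 * N : ℕ)) ^ k * ∑ n ∈ Icc 1 N, RR s z n * ‖∑ h ∈ Icc 1 H, ph (s, h) * lz ((n + h : ℕ) : ℤ)‖ +
      H * (ε / 2 * N) := by
    intro s hs
    have h1 := LP_sum s z N (2 * N) (fun n hn i => by
      have := ((mem_Tf.1 hs).1 i).2
      have := (mem_Icc.1 hn).2
      omega) (fun n => ‖∑ h ∈ Icc 1 H, ph (s, h) * lz ((n + h : ℕ) : ℤ)‖) H (fun n => norm_nonneg _) (fun n => hGB s n) (by omega)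
    refine h1.trans (add_le_add le_rfl ?_)
    have h2 := herr N (by omega)
    rw [← hz] at h2
    have h3 := mul_le_mul_of_nonneg_left h2 hH0.le
    refine le_trans (le_of_eq ?_) h3
    ring
  have hLk0 : 0 ≤ (Real.log (2 * N : ℕ)) ^ k := by
    apply pow_nonneg
    apply Real.log_nonneg
    exact_mod_cast (by omega : 1 ≤ 2 * N)
  have hmono : ∑ s ∈ Tf k H, ∑ n ∈ Icc 1 N, RR s z n * ‖∑ h ∈ Icc 1 H, ph (s, h) * lz ((n + h : ℕ) : ℤ)‖ ≤
      ε / 24 * (H * (((H : ℝ) / Real.log ((12 * N : ℕ) : ℝ)) ^ k * ((12 * N : ℕ) : ℝ))) := by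
    refine le_trans (sum_le_sum fun s _ => ?_) key
    apply sum_le_sum_of_subset_of_nonneg
    · exact Icc_subset_Icc le_rfl (by omega)
    · intro n _ _
      exact mul_nonneg (RR_nonneg s z _) (norm_nonneg _)
  calc ∑ s ∈ Tf k H, ∑ h ∈ Icc 1 H, ‖∑ n ∈ Icc 1 N, b s n * (LP s n : ℂ) * lz ((n + h : ℕ) : ℤ)‖ ≤
        ∑ s ∈ Tf k H, ((Real.log (2 * N : ℕ)) ^ k * ∑ n ∈ Icc 1 N, RR s z n * ‖∑ h ∈ Icc 1 H, ph (s, h) * lz ((n + h : ℕ) : ℤ)‖ +
          H * (ε / 2 * N)) := sum_le_sum fun s hs => (hstep s hs).trans (hstep2 s hs)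
    _ = (Real.log (2 * N : ℕ)) ^ k * ∑ s ∈ Tf k H, ∑ n ∈ Icc 1 N, RR s z n * ‖∑ h ∈ Icc 1 H, ph (s, h) * lz ((n + h : ℕ) : ℤ)‖ +
          (Tf k H).card * (H * (ε / 2 * N)) := by
        rw [sum_add_distrib, ← mul_sum, sum_const, nsmul_eq_mul]
    _ ≤ (Real.log (2 * N : ℕ)) ^ k * (ε / 24 * (H * (((H : ℝ) / Real.log ((12 * N : ℕ) : ℝ)) ^ k * ((12 * N : ℕ) : ℝ)))) +
          (H : ℝ) ^ k * (H * (ε / 2 * N)) := by
        apply add_le_add
        · exact mul_le_mul_of_nonneg_left hmono hLk0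
        · exact mul_le_mul_of_nonneg_right (card_Tf k H) (by positivity)
    _ ≤ ε / 2 * ((H : ℝ) ^ (k + 1) * N) + ε / 2 * ((H : ℝ) ^ (k + 1) * N) := by
        apply add_le_add
        · have hl12 : 0 < Real.log ((12 * N : ℕ) : ℝ) := by
            apply Real.log_pos
            exact_mod_cast (by omega : 1 < 12 * N)
          have hl2 : Real.log (2 * N : ℕ) ≤ Real.log ((12 * N : ℕ) : ℝ) := by
            apply Real.log_le_log
            · exact_mod_cast (by omega : 0 < 2 * N)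
            · exact_mod_cast (by omega : 2 * N ≤ 12 * N)
          have hl20 : 0 ≤ Real.log (2 * N : ℕ) := Real.log_nonneg (by exact_mod_cast (by omega : 1 ≤ 2 * N))
          have h1 : (Real.log (2 * N : ℕ)) ^ k * ((H : ℝ) / Real.log ((12 * N : ℕ) : ℝ)) ^ k ≤ (H : ℝ) ^ k := by
            rw [← mul_pow]
            apply pow_le_pow_left₀ (by positivity)
            rw [mul_div_assoc', div_le_iff₀ hl12, mul_comm]
            exact mul_le_mul_of_nonneg_left hl2 hH0.le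
          have h2 : (0 : ℝ) ≤ ε / 24 * (H * ((12 * N : ℕ) : ℝ)) := by positivity
          have h3 := mul_le_mul_of_nonneg_right h1 h2
          calc _ = (Real.log (2 * N : ℕ)) ^ k * ((H : ℝ) / Real.log ((12 * N : ℕ) : ℝ)) ^ k * (ε / 24 * (H * ((12 * N : ℕ) : ℝ))) := by ring
            _ ≤ (H : ℝ) ^ k * (ε / 24 * (H * ((12 * N : ℕ) : ℝ))) := h3
            _ = _ := by
              push_cast
              ring
        · apply le_of_eq
          ring
    _ = _ := by ring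

end Pool.Agent.H526.FC
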