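import Mathlib
import Pool.Agent.H526.FC.Q3
import Pool.Agent.H526.FC.R2

set_option autoImplicit false

/-! The averaged correlations of the von Mangoldt and Liouville functions: scales below the mean gap. -/

namespace Pool.Agent.H526.FC
open Finset Filter Topology
open Pool.Agent.H373R2.T7 (pz mem_pz)
open Pool.Agent.E8helper16.SL (lz lz_norm log_tendsto Rough)

/-- the correlations, averaged over all shifts -/
theorem avg_corr3 (k : ℕ) (hk : 1 ≤ k) (ε : ℝ) (hε : 0 < ε) : ∃ η : ℝ, 0 < η ∧ ∃ N₀ : ℕ, ∀ N : ℕ, N₀ ≤ N →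
    ∀ H : ℕ, Real.log N ^ (1 - η) ≤ H → H ≤ N → ∀ b : (Fin k → ℕ) → ℕ → ℂ, (∀ s n, ‖b s n‖ ≤ 1) →
      ∑ s ∈ Tf k H, ∑ h ∈ Icc 1 H, ‖∑ n ∈ Icc 1 N, b s n * (LP s n : ℂ) * lz ((n + h : ℕ) : ℤ)‖ ≤ ε * ((H : ℝ) ^ (k + 1) * N) := by
  classical
  obtain ⟨η₁, hη₁, hη₂, N₁, hcore⟩ := core3 k hk (1 / 2) (by norm_num) (ε / 24) (by positivity)
  have hlogc : ∀ᶠ N : ℕ in atTop, (2 : ℝ) ≤ Real.log N ^ (η₁ / 2) := by
    have h1 : Tendsto (fun N : ℕ => Real.log N ^ (η₁ / 2)) atTop atTop := (tendsto_rpow_atTop (by positivity)).comp log_tendsto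
    exact h1.eventually_ge_atTop 2
  obtain ⟨N₃, hN₃⟩ := eventually_atTop.1 hlogc
  -- the error terms
  have herr : ∀ᶠ N : ℕ in atTop, (Real.log (2 * N : ℕ)) ^ k * (k * ((⌊((12 * N : ℕ) : ℝ) ^ (1 / 2 : ℝ)⌋₊ : ℝ) * (Nat.log 2 (2 * N) + 1))) ≤ ε / 2 * N := by
    have h1 := Pool.Agent.E8helper16.SL.log_pow_le (16 * k * 2 ^ (k + 1) / ε * 4) (k + 1) (1 / 2) (by norm_num)
    filter_upwards [h1, eventually_ge_atTop 4] with N g1 g2
    have hN0 : (0 : ℝ) < N := by exact_mod_cast (by omega : 0 < N)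
    have hN4 : (4 : ℝ) ≤ N := by exact_mod_cast g2
    obtain ⟨L, hL⟩ : ∃ L, L = Real.log N := ⟨_, rfl⟩
    have hL1 : 1 ≤ L := by
      rw [hL, Real.le_log_iff_exp_le hN0]
      have := Real.exp_one_lt_d9
      linarith
    have a1 : Real.log (2 * N : ℕ) ≤ 2 * L := by
      push_cast
      rw [Real.log_mul (by norm_num) (by positivity), ← hL]
      have := Real.log_two_lt_d9
      linarith
    have a2 : ((Nat.log 2 (2 * N) : ℕ) : ℝ) + 1 ≤ 4 * L := by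
      have h2 : ((Nat.log 2 (2 * N) : ℕ) : ℝ) * Real.log 2 ≤ Real.log (2 * N : ℕ) := by
        rw [← Real.log_pow]
        apply Real.log_le_log (by positivity)
        have := Nat.pow_log_le_self 2 (show 2 * N ≠ 0 by omega)
        exact_mod_cast this
      have h3 := Real.log_two_gt_d9
      have h4 : 0 ≤ ((Nat.log 2 (2 * N) : ℕ) : ℝ) := Nat.cast_nonneg _
      have h5 : ((Nat.log 2 (2 * N) : ℕ) : ℝ) * 0.6931471803 ≤ 2 * L := by nlinarith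
      linarith
    have a3 : (⌊((12 * N : ℕ) : ℝ) ^ (1 / 2 : ℝ)⌋₊ : ℝ) ≤ 4 * (N : ℝ) ^ (1 / 2 : ℝ) := by
      refine (Nat.floor_le (by positivity)).trans ?_
      push_cast
      rw [Real.mul_rpow (by norm_num) hN0.le]
      apply mul_le_mul_of_nonneg_right _ (by positivity)
      rw [← Real.sqrt_eq_rpow]
      rw [Real.sqrt_le_left (by norm_num)]
      norm_num
    have hL0 : 0 ≤ Real.log (2 * N : ℕ) := Real.log_nonneg (by exact_mod_cast (by omega : 1 ≤ 2 * N))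
    have a4 : (Real.log (2 * N : ℕ)) ^ k ≤ (2 * L) ^ k := pow_le_pow_left₀ hL0 a1 k
    have h2 : (N : ℝ) ^ (1 / 2 : ℝ) * (N : ℝ) ^ (1 / 2 : ℝ) = N := by
      rw [← Real.rpow_add hN0]
      norm_num
    have h3 : 0 < (N : ℝ) ^ (1 / 2 : ℝ) := by positivity
    rw [← hL] at g1
    calc (Real.log (2 * N : ℕ)) ^ k * (k * ((⌊((12 * N : ℕ) : ℝ) ^ (1 / 2 : ℝ)⌋₊ : ℝ) * (Nat.log 2 (2 * N) + 1))) ≤
          (2 * L) ^ k * (k * ((4 * (N : ℝ) ^ (1 / 2 : ℝ)) * (4 * L))) := by gcongr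
      _ = (16 * k * 2 ^ k * L ^ (k + 1)) * (N : ℝ) ^ (1 / 2 : ℝ) := by ring
      _ ≤ (ε / 2 * (N : ℝ) ^ (1 / 2 : ℝ)) * (N : ℝ) ^ (1 / 2 : ℝ) := by
          apply mul_le_mul_of_nonneg_right _ h3.le
          have g3 := mul_le_mul_of_nonneg_left g1 (by positivity : (0 : ℝ) ≤ ε / 2)
          refine le_trans ?_ g3
          have e1 : ε / 2 * (16 * k * 2 ^ (k + 1) / ε * 4 * L ^ (k + 1)) = 4 * (16 * k * 2 ^ k * L ^ (k + 1)) := by
            field_simp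
            ring
          rw [e1]
          have : 0 ≤ 16 * k * 2 ^ k * L ^ (k + 1) := by positivity
          linarith
      _ = ε / 2 * N := by rw [mul_assoc, h2]
  obtain ⟨N₂, herr⟩ := eventually_atTop.1 herr
  refine ⟨η₁ / 2, by positivity, N₁ + N₂ + N₃ + 12, fun N hN H hH1 hH2 b hb => ?_⟩
  have hN12 : 12 ≤ N := by omega
  have hN0 : (0 : ℝ) < N := by exact_mod_cast (by omega : 0 < N)
  have hN12r : (12 : ℝ) ≤ N := by exact_mod_cast hN12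
  have hlogN : 0 < Real.log N := Real.log_pos (by linarith)
  have hlog12 : Real.log ((12 * N : ℕ) : ℝ) ≤ 2 * Real.log N := by
    push_cast
    rw [Real.log_mul (by norm_num) (by positivity)]
    have := Real.log_le_log (by norm_num : (0 : ℝ) < 12) hN12r
    linarith
  have hH0 : (0 : ℝ) < H := lt_of_lt_of_le (by positivity) hH1
  have hcond : Real.log ((12 * N : ℕ) : ℝ) ^ (1 - η₁) ≤ H := by
    have h1 := hN₃ N (by omega)
    have hl0 : 0 ≤ Real.log ((12 * N : ℕ) : ℝ) := Real.log_nonneg (by exact_mod_cast (by omega : 1 ≤ 12 * N))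
    have h2 : Real.log ((12 * N : ℕ) : ℝ) ^ (1 - η₁) ≤ (2 * Real.log N) ^ (1 - η₁) := Real.rpow_le_rpow hl0 hlog12 (by linarith)
    have h3 : (2 * Real.log N) ^ (1 - η₁) = 2 ^ (1 - η₁) * Real.log N ^ (1 - η₁) := Real.mul_rpow (by norm_num) hlogN.le
    have h4 : (2 : ℝ) ^ (1 - η₁) ≤ 2 ^ (1 : ℝ) := Real.rpow_le_rpow_of_exponent_le (by norm_num) (by linarith)
    rw [Real.rpow_one] at h4
    have h5 : 0 ≤ Real.log N ^ (1 - η₁) := by positivity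
    have h6 : Real.log N ^ (η₁ / 2) * Real.log N ^ (1 - η₁) = Real.log N ^ (1 - η₁ / 2) := by
      rw [← Real.rpow_add hlogN]
      congr 1
      ring
    calc Real.log ((12 * N : ℕ) : ℝ) ^ (1 - η₁) ≤ 2 ^ (1 - η₁) * Real.log N ^ (1 - η₁) := h2.trans (le_of_eq h3)
      _ ≤ 2 * Real.log N ^ (1 - η₁) := mul_le_mul_of_nonneg_right h4 h5
      _ ≤ Real.log N ^ (η₁ / 2) * Real.log N ^ (1 - η₁) := mul_le_mul_of_nonneg_right h1 h5
      _ = Real.log N ^ (1 - η₁ / 2) := h6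
      _ ≤ H := hH1
  obtain ⟨z, hz⟩ : ∃ z : ℕ, z = ⌊((12 * N : ℕ) : ℝ) ^ (1 / 2 : ℝ)⌋₊ := ⟨_, rfl⟩
  have hz1 : ((12 * N : ℕ) : ℝ) ^ (1 / 2 : ℝ) ≤ z + 1 := by
    rw [hz]
    exact (Nat.lt_floor_add_one _).le
  -- the phases
  choose ph hph1 hph2 using fun w : (Fin k → ℕ) × ℕ => phase (∑ n ∈ Icc 1 N, b w.1 n * (LP w.1 n : ℂ) * lz ((n + w.2 : ℕ) : ℤ))
  have key := hcore (12 * N) (by omega) H (by omega) hcond z hz1 (fun s h => ph (s, h)) (fun s h => hph1 _)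
  have hstep : ∀ s ∈ Tf k H, ∑ h ∈ Icc 1 H, ‖∑ n ∈ Icc 1 N, b s n * (LP s n : ℂ) * lz ((n + h : ℕ) : ℤ)‖ ≤
      ∑ n ∈ Icc 1 N, LP s n * ‖∑ h ∈ Icc 1 H, ph (s, h) * lz ((n + h : ℕ) : ℤ)‖ := by
    intro s _
    have h0 : (0 : ℝ) ≤ ∑ h ∈ Icc 1 H, ‖∑ n ∈ Icc 1 N, b s n * (LP s n : ℂ) * lz ((n + h : ℕ) : ℤ)‖ := sum_nonneg fun _ _ => norm_nonneg _
    have h1 : ((∑ h ∈ Icc 1 H, ‖∑ n ∈ Icc 1 N, b s n * (LP s n : ℂ) * lz ((n + h : ℕ) : ℤ)‖ : ℝ) : ℂ) =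
        ∑ n ∈ Icc 1 N, b s n * (LP s n : ℂ) * ∑ h ∈ Icc 1 H, ph (s, h) * lz ((n + h : ℕ) : ℤ) := by
      rw [Complex.ofReal_sum]
      have h2 : ∀ h ∈ Icc 1 H, ((‖∑ n ∈ Icc 1 N, b s n * (LP s n : ℂ) * lz ((n + h : ℕ) : ℤ)‖ : ℝ) : ℂ) =
          ∑ n ∈ Icc 1 N, b s n * (LP s n : ℂ) * (ph (s, h) * lz ((n + h : ℕ) : ℤ)) := by
        intro h _
        have := hph2 (s, h)
        simp only at this
        rw [← this, mul_sum]
        apply sum_congr rfl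
        intro n _
        ring
      rw [sum_congr rfl h2, sum_comm]
      apply sum_congr rfl
      intro n _
      rw [mul_sum]
    have h3 : ∑ h ∈ Icc 1 H, ‖∑ n ∈ Icc 1 N, b s n * (LP s n : ℂ) * lz ((n + h : ℕ) : ℤ)‖ =
        ‖((∑ h ∈ Icc 1 H, ‖∑ n ∈ Icc 1 N, b s n * (LP s n : ℂ) * lz ((n + h : ℕ) : ℤ)‖ : ℝ) : ℂ)‖ := by
      rw [Complex.norm_real, Real.norm_eq_abs, abs_of_nonneg h0]
    rw [h3, h1]
    refine (norm_sum_le _ _).trans (sum_le_sum fun n _ => ?_)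
    rw [norm_mul, norm_mul, Complex.norm_real, Real.norm_eq_abs, abs_of_nonneg (LP_nonneg s n)]
    apply mul_le_mul_of_nonneg_right _ (norm_nonneg _)
    exact mul_le_of_le_one_left (LP_nonneg s n) (hb s n)
  have hGB : ∀ s n, ‖∑ h ∈ Icc 1 H, ph (s, h) * lz ((n + h : ℕ) : ℤ)‖ ≤ H := by
    intro s n
    refine (norm_sum_le _ _).trans ?_
    have h1 : ∀ h ∈ Icc 1 H, ‖ph (s, h) * lz ((n + h : ℕ) : ℤ)‖ ≤ 1 := by
      intro h _
      rw [norm_mul]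
      exact mul_le_one₀ (hph1 _) (norm_nonneg _) (lz_norm _)
    refine (sum_le_sum h1).trans ?_
    rw [sum_const, nsmul_eq_mul, mul_one, Nat.card_Icc, Nat.add_sub_cancel]
  have hstep2 : ∀ s ∈ Tf k H, ∑ n ∈ Icc 1 N, LP s n * ‖∑ h ∈ Icc 1 H, ph (s, h) * lz ((n + h : ℕ) : ℤ)‖ ≤
      (Real.log (2 * N : ℕ)) ^ k * ∑ n ∈ Icc 1 N, RR s z n * ‖∑ h ∈ Icc 1 H, ph (s, h) * lz ((n + h : ℕ) : ℤ)‖ +
      H * (ε / 2 * N) := by
    intro s hs
    have h1 := LP_sum s z N (2 * N) (fun n hn i => by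
      have := ((mem_Tf.1 hs).1 i).2
      have := (mem_Icc.1 hn).2
      omega) (fun n => ‖∑ h ∈ Icc 1 H, ph (s, h) * lz ((n + h : ℕ) : ℤ)‖) H (fun n => norm_nonneg _) (fun n => hGB s n) (by omega)
    refine h1.trans (add_le_add le_rfl ?_)
    have h2 := herr N (by omega)
    rw [← hz] at h2
    have h3 := mul_le_mul_of_nonneg_left h2 hH0.le
    refine le_trans (le_of_eq ?_) h3
    ring
  have hLk0 : 0 ≤ (Real.log (2 * N : ℕ)) ^ k := by
    apply pow_nonneg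
    apply Real.log_nonneg
    exact_mod_cast (by omega : 1 ≤ 2 * N)
  have hmono : ∑ s ∈ Tf k H, ∑ n ∈ Icc 1 N, RR s z n * ‖∑ h ∈ Icc 1 H, ph (s, h) * lz ((n + h : ℕ) : ℤ)‖ ≤
      ε / 24 * (H * (((H : ℝ) / Real.log ((12 * N : ℕ) : ℝ)) ^ k * ((12 * N : ℕ) : ℝ))) := by
    refine le_trans (sum_le_sum fun s _ => ?_) key
    apply sum_le_sum_of_subset_of_nonneg
    · exact Icc_subset_Icc le_rfl (by omega)
    · intro n _ _
      exact mul_nonneg (RR_nonneg s z _) (norm_nonneg _)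
  calc ∑ s ∈ Tf k H, ∑ h ∈ Icc 1 H, ‖∑ n ∈ Icc 1 N, b s n * (LP s n : ℂ) * lz ((n + h : ℕ) : ℤ)‖ ≤
        ∑ s ∈ Tf k H, ((Real.log (2 * N : ℕ)) ^ k * ∑ n ∈ Icc 1 N, RR s z n * ‖∑ h ∈ Icc 1 H, ph (s, h) * lz ((n + h : ℕ) : ℤ)‖ +
          H * (ε / 2 * N)) := sum_le_sum fun s hs => (hstep s hs).trans (hstep2 s hs)
    _ = (Real.log (2 * N : ℕ)) ^ k * ∑ s ∈ Tf k H, ∑ n ∈ Icc 1 N, RR s z n * ‖∑ h ∈ Icc 1 H, ph (s, h) * lz ((n + h : ℕ) : ℤ)‖ +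
          (Tf k H).card * (H * (ε / 2 * N)) := by
        rw [sum_add_distrib, ← mul_sum, sum_const, nsmul_eq_mul]
    _ ≤ (Real.log (2 * N : ℕ)) ^ k * (ε / 24 * (H * (((H : ℝ) / Real.log ((12 * N : ℕ) : ℝ)) ^ k * ((12 * N : ℕ) : ℝ)))) +
          (H : ℝ) ^ k * (H * (ε / 2 * N)) := by
        apply add_le_add
        · exact mul_le_mul_of_nonneg_left hmono hLk0
        · exact mul_le_mul_of_nonneg_right (card_Tf k H) (by positivity)
    _ ≤ ε / 2 * ((H : ℝ) ^ (k + 1) * N) + ε / 2 * ((H : ℝ) ^ (k + 1) * N) := by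
        apply add_le_add
        · have hl12 : 0 < Real.log ((12 * N : ℕ) : ℝ) := by
            apply Real.log_pos
            exact_mod_cast (by omega : 1 < 12 * N)
          have hl2 : Real.log (2 * N : ℕ) ≤ Real.log ((12 * N : ℕ) : ℝ) := by
            apply Real.log_le_log
            · exact_mod_cast (by omega : 0 < 2 * N)
            · exact_mod_cast (by omega : 2 * N ≤ 12 * N)
          have hl20 : 0 ≤ Real.log (2 * N : ℕ) := Real.log_nonneg (by exact_mod_cast (by omega : 1 ≤ 2 * N))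
          have h1 : (Real.log (2 * N : ℕ)) ^ k * ((H : ℝ) / Real.log ((12 * N : ℕ) : ℝ)) ^ k ≤ (H : ℝ) ^ k := by
            rw [← mul_pow]
            apply pow_le_pow_left₀ (by positivity)
            rw [mul_div_assoc', div_le_iff₀ hl12, mul_comm]
            exact mul_le_mul_of_nonneg_left hl2 hH0.le
          have h2 : (0 : ℝ) ≤ ε / 24 * (H * ((12 * N : ℕ) : ℝ)) := by positivity
          have h3 := mul_le_mul_of_nonneg_right h1 h2
          calc _ = (Real.log (2 * N : ℕ)) ^ k * ((H : ℝ) / Real.log ((12 * N : ℕ) : ℝ)) ^ k * (ε / 24 * (H * ((12 * N : ℕ) : ℝ))) := by ring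
            _ ≤ (H : ℝ) ^ k * (ε / 24 * (H * ((12 * N : ℕ) : ℝ))) := h3
            _ = _ := by
              push_cast
              ring
        · apply le_of_eq
          ring
    _ = _ := by ring

end Pool.Agent.H526.FC
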