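import Mathlib
import Pool.Agent.H526.FC.R3
import Pool.Agent.H526.FC.P13

/-!
# Mixed correlations of the von Mangoldt and Liouville functions on average, at and below the mean gap of the primes

The theorem has two parts.

(1) The Hardy-Littlewood-Chowla statement on average over all shifts: all shifts run over `[1, H]`, `s 1, ..., s k` are the
(distinct) shifts of the von Mangoldt function and `t 0, ..., t l` the shifts of the Liouville function, and `b s n` is an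
arbitrary weight of modulus at most one. The mixed correlations with at least one Liouville factor are `o(N)` for almost all
shifts, as soon as `H ≥ (log N) ^ (1 - η)`, for every number of factors; `η > 0` depends on `k` and `ε` only. The mean gap of
the primes is `log N`, so the windows may be shorter than the mean gap.

(2) The Liouville function is independent of the exact constellation of the primes: `conf θ C N χ n` is the exact constellation
of those integers at distance at most `C log N` from `n` which are primes or have no prime factor `≤ N ^ θ`, each of them with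
a colour `χ`. The Liouville function `λ(n) = (-1) ^ Ω(n)` is asymptotically orthogonal to every function of this constellation
and of the residue class of `n` modulo `q`, times a factor `Ψ` of total variation `O(N / log N)`, uniformly in all these data
(the colours are arbitrary; colour `1` for the primes gives every function of the exact constellation of the primes within
`C log N` of `n`).

Method. By duality (1) is the bound
`∑ s, ∑ n ≤ N, Λ(n + s 1) ⋯ Λ(n + s k) |∑ h ≤ H, c s h λ(n + h)| ≤ ε H ^ (k + 1) N` for arbitrary coefficients. The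
Liouville function is averaged over multiples of primes in the window (Turán-Kubilius), the von Mangoldt functions are
replaced by sieve weights, and the covariances of the sieve weights along two tuples and two multipliers are estimated on
average over all pairs of tuples; for equal multipliers, where this fails for a single pair at the critical scale, moments of
the number of rough integers in short windows are used. What remains is an average of the Liouville function over short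
windows, treated with the theorem of Matomäki, Radziwiłł and Tao. For (2) a window of length `H ≍ log N` is cut out at a base
point, and the windows are sorted by the number and the exact positions of the rough integers in them.
-/

set_option autoImplicit false

namespace Pool.Agent.Results.MP_e6fa8b_nt.MixedCorrelationsOnAverage

open Finset

open Classical in
/-- Let `k ≥ 1`, `l ≥ 0` and `ε > 0`. There are `η > 0` and `N₀` such that for `N ≥ N₀`, `(log N) ^ (1 - η) ≤ H ≤ N` and all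
weights `b s n` of modulus at most one:
`∑ s, ∑ t, |∑ n ≤ N, b s n Λ(n + s 1) ⋯ Λ(n + s k) λ(n + t 0) ⋯ λ(n + t l)| ≤ ε H ^ (k + l + 1) N`,
where `s` runs over the `k`-tuples of distinct integers in `[1, H]` and `t` over all `(l + 1)`-tuples in `[1, H]`. -/
theorem allShifts (k : ℕ) (hk : 1 ≤ k) (l : ℕ) (ε : ℝ) (hε : 0 < ε) : ∃ η : ℝ, 0 < η ∧ ∃ N₀ : ℕ, ∀ N H : ℕ, N₀ ≤ N →
    Real.log N ^ (1 - η) ≤ H → H ≤ N → ∀ b : (Fin k → ℕ) → ℕ → ℂ, (∀ s n, ‖b s n‖ ≤ 1) →
      ∑ s ∈ (Fintype.piFinset fun _ : Fin k => Icc 1 H).filter (fun s => Function.Injective s),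
        ∑ t ∈ Fintype.piFinset (fun _ : Fin (l + 1) => Icc 1 H),
          ‖∑ n ∈ Icc 1 N, b s n * ((∏ i, ArithmeticFunction.vonMangoldt (n + s i) : ℝ) : ℂ) *
            ∏ j, (-1 : ℂ) ^ (ArithmeticFunction.cardFactors (n + t j))‖ ≤ ε * ((H : ℝ) ^ (k + l + 1) * N) := by
  obtain ⟨η, hη, N₀, h⟩ := Pool.Agent.H526.FC.avg_corr3 k hk ε hε
  refine ⟨η, hη, N₀, fun N H hN hH1 hH2 b hb => ?_⟩
  -- the tuples of the Liouville shifts: the first one and the others
  have hsplit : ∀ F : (Fin (l + 1) → ℕ) → ℝ, ∑ t ∈ Fintype.piFinset (fun _ : Fin (l + 1) => Icc 1 H), F t =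
      ∑ t' ∈ Fintype.piFinset (fun _ : Fin l => Icc 1 H), ∑ a ∈ Icc 1 H, F (Fin.cons a t') := by
    intro F
    rw [← sum_product']
    apply sum_nbij' (fun t => (Fin.tail t, t 0)) (fun x => Fin.cons x.2 x.1)
    · intro t ht
      rw [Fintype.mem_piFinset] at ht
      rw [mem_product, Fintype.mem_piFinset]
      exact ⟨fun i => ht i.succ, ht 0⟩
    · intro x hx
      rw [mem_product, Fintype.mem_piFinset] at hx
      rw [Fintype.mem_piFinset]
      intro i
      refine Fin.cases ?_ (fun j => ?_) i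
      · exact hx.2
      · exact hx.1 j
    · intro t _
      exact Fin.cons_self_tail t
    · intro x _
      simp only [Fin.tail_cons, Fin.cons_zero]
    · intro t _
      simp only [Fin.cons_self_tail]
  have hne : ∀ (n m : ℕ), 1 ≤ n → (-1 : ℂ) ^ (ArithmeticFunction.cardFactors (n + m)) = Pool.Agent.E8helper16.SL.lz ((n + m : ℕ) : ℤ) :=
    fun n m hn => (Pool.Agent.E8helper16.SL.lz_nat (n + m) (by omega)).symm
  have h1 : ∀ t' ∈ Fintype.piFinset (fun _ : Fin l => Icc 1 H),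
      ∑ s ∈ (Fintype.piFinset fun _ : Fin k => Icc 1 H).filter (fun s => Function.Injective s), ∑ a ∈ Icc 1 H,
        ‖∑ n ∈ Icc 1 N, b s n * ((∏ i, ArithmeticFunction.vonMangoldt (n + s i) : ℝ) : ℂ) *
            ∏ j, (-1 : ℂ) ^ (ArithmeticFunction.cardFactors (n + (Fin.cons a t' : Fin (l + 1) → ℕ) j))‖ ≤ ε * ((H : ℝ) ^ (k + 1) * N) := by
    intro t' _
    have h2 := h N hN H hH1 hH2 (fun s n => b s n * ∏ j, (-1 : ℂ) ^ (ArithmeticFunction.cardFactors (n + t' j))) (by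
      intro s n
      rw [norm_mul, norm_prod]
      have : ∏ j, ‖(-1 : ℂ) ^ (ArithmeticFunction.cardFactors (n + t' j))‖ = 1 := by
        apply prod_eq_one
        intro j _
        rw [norm_pow, norm_neg, norm_one, one_pow]
      rw [this, mul_one]
      exact hb s n)
    refine le_trans (le_of_eq ?_) h2
    unfold Pool.Agent.H526.FC.Tf
    apply sum_congr (by ext s; simp only [mem_filter])
    intro s _
    apply sum_congr rfl
    intro a _
    congr 1
    apply sum_congr rfl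
    intro n hn
    rw [mem_Icc] at hn
    rw [Fin.prod_univ_succ]
    simp only [Fin.cons_zero, Fin.cons_succ]
    rw [hne n a hn.1]
    unfold Pool.Agent.H526.FC.LP
    ring
  calc _ = ∑ t' ∈ Fintype.piFinset (fun _ : Fin l => Icc 1 H),
        ∑ s ∈ (Fintype.piFinset fun _ : Fin k => Icc 1 H).filter (fun s => Function.Injective s), ∑ a ∈ Icc 1 H,
        ‖∑ n ∈ Icc 1 N, b s n * ((∏ i, ArithmeticFunction.vonMangoldt (n + s i) : ℝ) : ℂ) *
            ∏ j, (-1 : ℂ) ^ (ArithmeticFunction.cardFactors (n + (Fin.cons a t' : Fin (l + 1) → ℕ) j))‖ := by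
        rw [sum_comm (s := Fintype.piFinset (fun _ : Fin l => Icc 1 H))]
        apply sum_congr rfl
        intro s _
        exact hsplit _
    _ ≤ ∑ t' ∈ Fintype.piFinset (fun _ : Fin l => Icc 1 H), ε * ((H : ℝ) ^ (k + 1) * N) := sum_le_sum h1
    _ = ε * ((H : ℝ) ^ (k + l + 1) * N) := by
        rw [sum_const, nsmul_eq_mul, Fintype.card_piFinset, prod_const, card_univ, Fintype.card_fin, Nat.card_Icc, Nat.add_sub_cancel]
        push_cast
        ring

/-- the integer `k` is a prime or has no prime factor `≤ N ^ θ` -/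
def PrimeOrRough (θ : ℝ) (N : ℕ) (k : ℤ) : Prop := k.toNat.Prime ∨ ∀ p : ℕ, p.Prime → (p : ℤ) ∣ k → (N : ℝ) ^ θ < p

open Classical in
/-- the coloured constellation of the primes and of the rough integers at distance at most `C log N` from `n` -/
noncomputable def conf {a : ℕ} (θ C : ℝ) (N : ℕ) (χ : ℤ → Fin a) (n : ℕ) : Finset (ℤ × Fin a) :=
  ((Icc (-(⌊C * Real.log N⌋₊ : ℤ)) ⌊C * Real.log N⌋₊).filter (fun t => PrimeOrRough θ N (n + t))).image (fun t => (t, χ (n + t)))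

open Classical in
/-- the colours with a mark -/
noncomputable def col {a : ℕ} (θ : ℝ) (N : ℕ) (χ : ℤ → Fin a) (m : ℤ) : Fin (a * 2) :=
  finProdFinEquiv (χ m, if PrimeOrRough θ N m then 1 else 0)

/-- the marked part of a coloured constellation -/
def proj {a : ℕ} (S : Finset (ℤ × Fin (a * 2))) : Finset (ℤ × Fin a) :=
  (S.filter (fun x => (finProdFinEquiv.symm x.2).2 = 1)).image (fun x => (x.1, (finProdFinEquiv.symm x.2).1))

lemma proj_conf {a : ℕ} {θ θ' C : ℝ} {N n : ℕ} (χ : ℤ → Fin a) (h1 : θ' ≤ θ) (h2 : θ' ≤ 1 / 2) (hN : 1 ≤ N)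
    (hn : ⌊(N : ℝ) ^ (1 / 2 : ℝ)⌋₊ + ⌊C * Real.log N⌋₊ < n) :
    proj (Pool.Agent.H526.FC.cz1 ⌊C * Real.log N⌋₊ ⌊(N : ℝ) ^ θ'⌋₊ (col θ N χ) (n : ℤ)) = conf θ C N χ n := by
  classical
  have hN1 : (1 : ℝ) ≤ N := by exact_mod_cast hN
  have h0 : (0 : ℝ) ≤ (N : ℝ) ^ (1 / 2 : ℝ) := Real.rpow_nonneg (Nat.cast_nonneg N) _
  have h0' : (0 : ℝ) ≤ (N : ℝ) ^ θ' := Real.rpow_nonneg (Nat.cast_nonneg N) _
  have hcol : ∀ m : ℤ, (finProdFinEquiv.symm (col θ N χ m)).1 = χ m ∧ ((finProdFinEquiv.symm (col θ N χ m)).2 = 1 ↔ PrimeOrRough θ N m) := by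
    intro m
    unfold col
    rw [Equiv.symm_apply_apply]
    refine ⟨rfl, ?_⟩
    show ((if PrimeOrRough θ N m then (1 : Fin 2) else 0) = 1) ↔ PrimeOrRough θ N m
    by_cases hm : PrimeOrRough θ N m
    · rw [if_pos hm]
      exact ⟨fun _ => hm, fun _ => rfl⟩
    · rw [if_neg hm]
      exact ⟨fun h => absurd h (by decide), fun h => absurd h hm⟩
  have hrg : ∀ t : ℤ, -(⌊C * Real.log N⌋₊ : ℤ) ≤ t → PrimeOrRough θ N (n + t) → Pool.Agent.H526.FC.Rg ⌊(N : ℝ) ^ θ'⌋₊ ((n : ℤ) + t) := by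
    intro t ht hr l hl hd
    rw [Pool.Agent.H373R2.T7.mem_pz] at hl
    have hl2 : (l : ℝ) ≤ (N : ℝ) ^ θ' := (Nat.le_floor_iff h0').1 hl.1
    rcases hr with hp | hr
    · have e : (((n + t : ℤ).toNat : ℕ) : ℤ) = n + t := Int.toNat_of_nonneg (by omega)
      rw [← e, Int.natCast_dvd_natCast, Nat.prime_dvd_prime_iff_eq hl.2 hp] at hd
      have h3 : ⌊(N : ℝ) ^ (1 / 2 : ℝ)⌋₊ < l := by
        have : (l : ℤ) = n + t := by rw [hd]; exact e
        omega
      have h4 := (Nat.floor_lt h0).1 h3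
      have h5 : (N : ℝ) ^ θ' ≤ (N : ℝ) ^ (1 / 2 : ℝ) := Real.rpow_le_rpow_of_exponent_le hN1 h2
      linarith
    · have h4 := hr l hl.2 hd
      have h5 : (N : ℝ) ^ θ' ≤ (N : ℝ) ^ θ := Real.rpow_le_rpow_of_exponent_le hN1 h1
      linarith
  ext ⟨t, c⟩
  unfold proj conf Pool.Agent.H526.FC.cz1
  rw [mem_image, mem_image]
  constructor
  · rintro ⟨⟨t', c'⟩, hx, he⟩
    rw [mem_filter, mem_image] at hx
    obtain ⟨⟨t₁, ht, he1⟩, hc⟩ := hx
    rw [mem_filter] at ht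
    rw [Prod.mk.injEq] at he1 he
    obtain ⟨e1, e2⟩ := he1
    obtain ⟨e3, e4⟩ := he
    subst e1
    subst e2
    refine ⟨t₁, ?_, ?_⟩
    · rw [mem_filter]
      exact ⟨ht.1, (hcol _).2.1 hc⟩
    · rw [Prod.mk.injEq]
      exact ⟨e3, (hcol _).1.symm.trans e4⟩
  · rintro ⟨t', ht, he⟩
    rw [mem_filter] at ht
    rw [Prod.mk.injEq] at he
    obtain ⟨e1, e2⟩ := he
    subst e1
    refine ⟨(t', col θ N χ (n + t')), ?_, ?_⟩
    · rw [mem_filter, mem_image]
      refine ⟨⟨t', ?_, rfl⟩, (hcol _).2.2 ht.2⟩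
      rw [mem_filter]
      exact ⟨ht.1, hrg t' (mem_Icc.1 ht.1).1 ht.2⟩
    · rw [Prod.mk.injEq]
      exact ⟨rfl, (hcol _).1.trans e2⟩

lemma numbers (C ε : ℝ) (hε : 0 < ε) : ∃ N₀ : ℕ, ∀ N : ℕ, N₀ ≤ N →
    2 * ((⌊(N : ℝ) ^ (1 / 2 : ℝ)⌋₊ + ⌊C * Real.log N⌋₊ : ℕ) : ℝ) ≤ ε / 2 * N := by
  have hlog : ∀ᶠ N : ℕ in Filter.atTop, 8 / ε * (|C| * Real.log N) ≤ N := by
    have h2 := Pool.Agent.E8helper16.SL.log_pow_le (8 / ε * |C|) 1 1 one_pos
    filter_upwards [h2] with N g2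
    rw [Real.rpow_one, pow_one] at g2
    refine le_trans (le_of_eq ?_) g2
    ring
  have hrt : ∀ᶠ N : ℕ in Filter.atTop, (8 / ε) * (N : ℝ) ^ (1 / 2 : ℝ) ≤ N := by
    have h1 : Filter.Tendsto (fun N : ℕ => (N : ℝ) ^ (1 / 2 : ℝ)) Filter.atTop Filter.atTop :=
      (tendsto_rpow_atTop (by norm_num)).comp tendsto_natCast_atTop_atTop
    filter_upwards [h1.eventually_ge_atTop (8 / ε), Filter.eventually_ge_atTop 1] with N g1 g2
    have hN : (0 : ℝ) < N := by exact_mod_cast g2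
    have h3 : (N : ℝ) = (N : ℝ) ^ (1 / 2 : ℝ) * (N : ℝ) ^ (1 / 2 : ℝ) := by
      rw [← Real.rpow_add hN]
      norm_num
    calc (8 / ε) * (N : ℝ) ^ (1 / 2 : ℝ) ≤ (N : ℝ) ^ (1 / 2 : ℝ) * (N : ℝ) ^ (1 / 2 : ℝ) :=
          mul_le_mul_of_nonneg_right g1 (Real.rpow_nonneg hN.le _)
      _ = N := h3.symm
  have hall := hlog.and (hrt.and (Filter.eventually_ge_atTop 1))
  rw [Filter.eventually_atTop] at hall
  obtain ⟨N₂, hall⟩ := hall
  refine ⟨N₂, fun N hN => ?_⟩
  obtain ⟨g1, g2, g3⟩ := hall N hN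
  have hN0 : (1 : ℝ) ≤ N := by exact_mod_cast g3
  have hl0 : 0 ≤ Real.log N := Real.log_nonneg hN0
  have b1 : (⌊(N : ℝ) ^ (1 / 2 : ℝ)⌋₊ : ℝ) ≤ ε / 8 * N := by
    refine (Nat.floor_le (Real.rpow_nonneg (by linarith) _)).trans ?_
    have := mul_le_mul_of_nonneg_left g2 (by positivity : (0 : ℝ) ≤ ε / 8)
    refine le_trans (le_of_eq ?_) this
    field_simp
  have b2 : (⌊C * Real.log N⌋₊ : ℝ) ≤ ε / 8 * N := by
    have c1 : (⌊C * Real.log N⌋₊ : ℝ) ≤ |C| * Real.log N := by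
      have : (⌊C * Real.log N⌋₊ : ℝ) ≤ (⌊|C| * Real.log N⌋₊ : ℝ) := by
        exact_mod_cast Nat.floor_mono (mul_le_mul_of_nonneg_right (le_abs_self C) hl0)
      exact this.trans (Nat.floor_le (mul_nonneg (abs_nonneg C) hl0))
    have c3 := mul_le_mul_of_nonneg_left g1 (by positivity : (0 : ℝ) ≤ ε / 8)
    have c4 : ε / 8 * (8 / ε * (|C| * Real.log N)) = |C| * Real.log N := by field_simp
    rw [c4] at c3
    exact c1.trans c3
  push_cast
  linarith

/-- The Liouville function is asymptotically orthogonal to every function of the residue class of `n` modulo `q` and of the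
coloured constellation of the primes and of the integers without prime factors `≤ N ^ θ` within `C log N` of `n`, times any
factor `Ψ` of total variation `O(N / log N)`. -/
theorem constellations (θ C V ε : ℝ) (hθ : 0 < θ) (hε : 0 < ε) (a q : ℕ) (hq : 1 ≤ q) : ∃ N₀ : ℕ, ∀ N : ℕ, N₀ ≤ N →
    ∀ (χ : ℤ → Fin a) (Φ : ℕ → Finset (ℤ × Fin a) → ℂ) (Ψ : ℕ → ℂ), (∀ r S, ‖Φ r S‖ ≤ 1) → (∀ n, ‖Ψ n‖ ≤ 1) →
    ∑ n ∈ Icc 1 N, ‖Ψ (n + 1) - Ψ n‖ ≤ V * N / Real.log N →
    ‖∑ n ∈ Icc 1 N, (-1 : ℂ) ^ (ArithmeticFunction.cardFactors n) * Φ (n % q) (conf θ C N χ n) * Ψ n‖ ≤ ε * N := by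
  classical
  obtain ⟨θ', hθ'd⟩ : ∃ θ' : ℝ, θ' = min θ (1 / 2) := ⟨_, rfl⟩
  have hθ'0 : 0 < θ' := by rw [hθ'd]; exact lt_min hθ (by norm_num)
  have hθ1 : θ' ≤ θ := by rw [hθ'd]; exact min_le_left _ _
  have hθ2 : θ' ≤ 1 / 2 := by rw [hθ'd]; exact min_le_right _ _
  obtain ⟨N₁, h⟩ := Pool.Agent.H526.FC.fin θ' C V (ε / 2) hθ'0 (by positivity) (a * 2) q hq
  obtain ⟨N₂, hnum⟩ := numbers C ε hε
  refine ⟨N₁ + N₂ + 1, fun N hN χ Φ Ψ hΦ hΨ hTV => ?_⟩
  have hMb := hnum N (by omega)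
  have h1 := h N (by omega) (col θ N χ) (fun r S => Φ r (proj S)) Ψ (fun r S => hΦ r _) hΨ hTV
  obtain ⟨M, hM⟩ : ∃ M : ℕ, M = ⌊(N : ℝ) ^ (1 / 2 : ℝ)⌋₊ + ⌊C * Real.log N⌋₊ := ⟨_, rfl⟩
  rw [← hM] at hMb
  have hdiff : ‖∑ n ∈ Icc 1 N, (-1 : ℂ) ^ (ArithmeticFunction.cardFactors n) * Φ (n % q) (conf θ C N χ n) * Ψ n -
      ∑ n ∈ Icc 1 N, Pool.Agent.H526.FC.Wf q ⌊C * Real.log N⌋₊ ⌊(N : ℝ) ^ θ'⌋₊ (col θ N χ) (fun r S => Φ r (proj S)) n * Ψ n‖ ≤ 2 * M := by
    rw [← sum_sub_distrib]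
    refine (norm_sum_le _ _).trans ?_
    have d1 : ∀ n ∈ Icc 1 N, ‖(-1 : ℂ) ^ (ArithmeticFunction.cardFactors n) * Φ (n % q) (conf θ C N χ n) * Ψ n -
        Pool.Agent.H526.FC.Wf q ⌊C * Real.log N⌋₊ ⌊(N : ℝ) ^ θ'⌋₊ (col θ N χ) (fun r S => Φ r (proj S)) n * Ψ n‖ ≤
        if n ∈ Icc 1 M then 2 else 0 := by
      intro n hn
      rw [mem_Icc] at hn
      split_ifs with hnM
      · have d3 : ‖(-1 : ℂ) ^ (ArithmeticFunction.cardFactors n) * Φ (n % q) (conf θ C N χ n) * Ψ n‖ ≤ 1 := by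
          rw [norm_mul, norm_mul, norm_pow, norm_neg, norm_one, one_pow, one_mul]
          exact mul_le_one₀ (hΦ _ _) (norm_nonneg _) (hΨ n)
        have d4 : ‖Pool.Agent.H526.FC.Wf q ⌊C * Real.log N⌋₊ ⌊(N : ℝ) ^ θ'⌋₊ (col θ N χ) (fun r S => Φ r (proj S)) n * Ψ n‖ ≤ 1 := by
          rw [norm_mul]
          exact mul_le_one₀ (Pool.Agent.H526.FC.Wf_norm _ _ _ _ _ (fun r S => hΦ r _) n) (norm_nonneg _) (hΨ n)
        refine (norm_sub_le _ _).trans ?_
        linarith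
      · have d5 : M < n := by
          rw [mem_Icc] at hnM
          omega
        have d8 := proj_conf (C := C) χ hθ1 hθ2 (by omega) (by rw [← hM]; exact d5 : ⌊(N : ℝ) ^ (1 / 2 : ℝ)⌋₊ + ⌊C * Real.log N⌋₊ < n)
        have d9 : Pool.Agent.H526.FC.Wf q ⌊C * Real.log N⌋₊ ⌊(N : ℝ) ^ θ'⌋₊ (col θ N χ) (fun r S => Φ r (proj S)) n =
            (-1 : ℂ) ^ (ArithmeticFunction.cardFactors n) * Φ (n % q) (conf θ C N χ n) := by
          unfold Pool.Agent.H526.FC.Wf
          rw [Pool.Agent.E8helper16.SL.lz_nat n hn.1]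
          show _ * Φ (n % q) (proj _) = _
          rw [d8]
        rw [d9, sub_self, norm_zero]
    refine (sum_le_sum d1).trans ?_
    rw [← sum_filter, sum_const, nsmul_eq_mul]
    have d6 : ((Icc 1 N).filter (fun n => n ∈ Icc 1 M)).card ≤ M := by
      refine (card_le_card (fun n hn => (mem_filter.1 hn).2)).trans ?_
      rw [Nat.card_Icc]
      omega
    have d7 : (((Icc 1 N).filter (fun n => n ∈ Icc 1 M)).card : ℝ) ≤ M := by exact_mod_cast d6
    linarith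
  have h2 := norm_sub_norm_le (∑ n ∈ Icc 1 N, (-1 : ℂ) ^ (ArithmeticFunction.cardFactors n) * Φ (n % q) (conf θ C N χ n) * Ψ n)
    (∑ n ∈ Icc 1 N, Pool.Agent.H526.FC.Wf q ⌊C * Real.log N⌋₊ ⌊(N : ℝ) ^ θ'⌋₊ (col θ N χ) (fun r S => Φ r (proj S)) n * Ψ n)
  linarith

open Classical in
/-- (1) Let `k ≥ 1`, `l ≥ 0` and `ε > 0`. There are `η > 0` and `N₀` such that for `N ≥ N₀`, `(log N) ^ (1 - η) ≤ H ≤ N` and
all weights `b s n` of modulus at most one:
`∑ s, ∑ t, |∑ n ≤ N, b s n Λ(n + s 1) ⋯ Λ(n + s k) λ(n + t 0) ⋯ λ(n + t l)| ≤ ε H ^ (k + l + 1) N`,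
where `s` runs over the `k`-tuples of distinct integers in `[1, H]` and `t` over all `(l + 1)`-tuples in `[1, H]`.
(2) For `θ, ε > 0`, `C`, `V`, `a`, `q` there is `N₀` such that for `N ≥ N₀`, all colours `χ`, all functions `Φ` and `Ψ` bounded
by one such that the total variation of `Ψ` on `[1, N]` is at most `V N / log N`: `|∑ n ≤ N, λ(n) Φ(n mod q, S(n)) Ψ(n)| ≤ ε N`
with the coloured constellation `S(n) = conf θ C N χ n`. -/
theorem result :
    (∀ (k : ℕ) (_ : 1 ≤ k) (l : ℕ) (ε : ℝ) (_ : 0 < ε), ∃ η : ℝ, 0 < η ∧ ∃ N₀ : ℕ, ∀ N H : ℕ, N₀ ≤ N →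
      Real.log N ^ (1 - η) ≤ H → H ≤ N → ∀ b : (Fin k → ℕ) → ℕ → ℂ, (∀ s n, ‖b s n‖ ≤ 1) →
        ∑ s ∈ (Fintype.piFinset fun _ : Fin k => Icc 1 H).filter (fun s => Function.Injective s),
          ∑ t ∈ Fintype.piFinset (fun _ : Fin (l + 1) => Icc 1 H),
            ‖∑ n ∈ Icc 1 N, b s n * ((∏ i, ArithmeticFunction.vonMangoldt (n + s i) : ℝ) : ℂ) *
              ∏ j, (-1 : ℂ) ^ (ArithmeticFunction.cardFactors (n + t j))‖ ≤ ε * ((H : ℝ) ^ (k + l + 1) * N)) ∧
    (∀ (θ C V ε : ℝ) (_ : 0 < θ) (_ : 0 < ε) (a q : ℕ) (_ : 1 ≤ q), ∃ N₀ : ℕ, ∀ N : ℕ, N₀ ≤ N →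
      ∀ (χ : ℤ → Fin a) (Φ : ℕ → Finset (ℤ × Fin a) → ℂ) (Ψ : ℕ → ℂ), (∀ r S, ‖Φ r S‖ ≤ 1) → (∀ n, ‖Ψ n‖ ≤ 1) →
      ∑ n ∈ Icc 1 N, ‖Ψ (n + 1) - Ψ n‖ ≤ V * N / Real.log N →
      ‖∑ n ∈ Icc 1 N, (-1 : ℂ) ^ (ArithmeticFunction.cardFactors n) * Φ (n % q) (conf θ C N χ n) * Ψ n‖ ≤ ε * N) :=
  ⟨fun k hk l ε hε => allShifts k hk l ε hε, fun θ C V ε hθ hε a q hq => constellations θ C V ε hθ hε a q hq⟩

end Pool.Agent.Results.MP_e6fa8b_nt.MixedCorrelationsOnAverage
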